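import Pool.Agent.RAYT.Bridge
import Pool.Agent.RAY.CircInst

/-!
RAYT/Top: the topological core as an instance of the interface `RAY.TopSys`.
-/

set_option autoImplicit false

namespace Pool.Agent.RAYT

open Complex Set Topology Filter unitInterval

section one

variable {q : ℕ} {Q : Set (OnePoint ℂ)} (e : RAY.Enum q Q)

/-- the polygon of an enumeration -/
noncomputable def poly : Poly e.N where
  θ n := 2 * Real.pi * e.θ n
  mono i j h := mul_lt_mul_of_pos_left (e.mono h) (by positivity)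
  per j := by show 2 * Real.pi * e.θ (j + e.N) = _; rw [e.per]; ring
  small j := by
    have := e.gap j
    show 2 * Real.pi * e.θ (j + 1) - 2 * Real.pi * e.θ j < Real.pi
    nlinarith [Real.pi_pos]

theorem poly_θ (n : ℤ) : (poly e).θ n = 2 * Real.pi * e.θ n := rfl

theorem poly_pt (n : ℤ) : (poly e).pt n = RAY.pt (e.θ n) 0 := by
  unfold Poly.pt RAY.pt
  rw [poly_θ]
  congr 1
  push_cast
  ring

theorem vert_iff {x : OnePoint ℂ} : x ∈ (dbl (poly e)).Vert ↔ x ∈ Q := by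
  rw [dbl_vert, e.mem]
  simp only [poly_pt]

theorem isRayP_of_end {η : I → OnePoint ℂ} (h : RAY.PathTo Q η) {n : ℤ}
    (hn : η 1 = (RAY.pt (e.θ n) 0 : ℂ)) : (dbl (poly e)).IsRayP n η := by
  refine ⟨h.continuous, ?_, ?_, ?_⟩
  · rw [h.zero, dbl_up_zero]
  · intro t ht hv
    exact h.avoid t ht ((vert_iff e).1 hv)
  · rw [hn, dbl_up_pt, poly_pt]

theorem exists_isRayP {η : I → OnePoint ℂ} (h : RAY.PathTo Q η) :
    ∃ j, (dbl (poly e)).IsRayP j η ∧ η 1 = (RAY.pt (e.θ j) 0 : ℂ) := by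
  obtain ⟨n, hn⟩ := (e.mem _).1 h.one
  exact ⟨n, isRayP_of_end e h hn, hn⟩

open Classical in
/-- the end point as a point of the circle -/
noncomputable def endC (η : I → OnePoint ℂ) : Circle :=
  if h : ‖(dbl (poly e)).endPt η‖ = 1 then
    ⟨(dbl (poly e)).endPt η, mem_sphere_zero_iff_norm.2 h⟩ else 1

theorem endC_coe {η : I → OnePoint ℂ} (h : RAY.PathTo Q η) :
    (endC e η : ℂ) = (dbl (poly e)).endPt η := by
  obtain ⟨j, hj, -⟩ := exists_isRayP e h
  rw [endC, dif_pos hj.norm_endPt]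

theorem rf_eq_lref (j : ℤ) (v : V3) :
    (poly e).rf j v = RAY.lref (2 * Real.pi * e.θ j) (2 * Real.pi * e.θ (j + 1)) v := by
  have h1 := (poly e).B_nrm_nrm j
  show refl ((poly e).nrm j) v = _
  rw [refl_apply, h1]
  have hn : (poly e).nrm j = (Complex.exp ((((2 * Real.pi * e.θ j + 2 * Real.pi * e.θ (j + 1)) / 2 :
      ℝ) : ℂ) * Complex.I), Real.cos ((2 * Real.pi * e.θ (j + 1) - 2 * Real.pi * e.θ j) / 2)) := rfl
  have hw : (poly e).hw j = (2 * Real.pi * e.θ (j + 1) - 2 * Real.pi * e.θ j) / 2 := rfl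
  rw [hn, hw]
  unfold RAY.lref
  have hB : B v (Complex.exp ((((2 * Real.pi * e.θ j + 2 * Real.pi * e.θ (j + 1)) / 2 :
      ℝ) : ℂ) * Complex.I), Real.cos ((2 * Real.pi * e.θ (j + 1) - 2 * Real.pi * e.θ j) / 2)) =
      v.1.re * Real.cos ((2 * Real.pi * e.θ j + 2 * Real.pi * e.θ (j + 1)) / 2) +
      v.1.im * Real.sin ((2 * Real.pi * e.θ j + 2 * Real.pi * e.θ (j + 1)) / 2) -
      v.2 * Real.cos ((2 * Real.pi * e.θ (j + 1) - 2 * Real.pi * e.θ j) / 2) := by
    unfold B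
    rw [Complex.exp_ofReal_mul_I_re, Complex.exp_ofReal_mul_I_im]
  rw [hB]
  ext1
  · simp only [Prod.fst_sub, Prod.smul_fst, real_smul]
  · simp only [Prod.snd_sub, Prod.smul_snd, smul_eq_mul]

theorem act_coe (w : List ℤ) (p : Circle) :
    (((RAY.Enum.circ e).act w p : Circle) : ℂ) = (poly e).act w p := by
  induction w with
  | nil => rw [RAY.Circ.act_nil, Poly.act_nil]
  | cons a w ih =>
    rw [RAY.Circ.act_cons]
    have h1 : (a :: w) = [a] ++ w := rfl
    rw [h1, Poly.act_append _ _ _ (Circle.norm_coe p).le, ← ih]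
    show (RAY.pref _ _ (e.angle_lt a) (e.angle_gap a) _ : ℂ) = _
    rw [RAY.pref_coe]
    unfold Poly.act proj
    rw [Poly.word_cons, Poly.word_nil, rf_eq_lref, real_smul, ofReal_inv, div_eq_mul_inv]
    exact mul_comm _ _

theorem enum_add (k n : ℤ) : e.θ (n + k * e.N) = e.θ n + k := by
  induction k using Int.induction_on generalizing n with
  | zero => simp
  | succ k ih =>
    have : n + ((k : ℤ) + 1) * e.N = (n + k * e.N) + e.N := by ring
    rw [this, e.per, ih]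
    push_cast
    ring
  | pred k ih =>
    have h1 := e.per (n + (-(k : ℤ) - 1) * e.N)
    have h2 : n + (-(k : ℤ) - 1) * e.N + e.N = n + (-(k : ℤ)) * e.N := by ring
    rw [h2, ih] at h1
    push_cast at h1 ⊢
    linarith

include e in
theorem finite_of_enum : Q.Finite := by
  have hN : (0 : ℤ) < e.N := by exact_mod_cast e.N_pos
  refine ((Set.finite_Ico (0 : ℤ) e.N).image
    (fun n => ((RAY.pt (e.θ n) 0 : ℂ) : OnePoint ℂ))).subset ?_
  intro z hz
  obtain ⟨n, rfl⟩ := (e.mem _).1 hz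
  refine ⟨n % e.N, ⟨Int.emod_nonneg n hN.ne', Int.emod_lt_of_pos n hN⟩, ?_⟩
  have h1 := enum_add e (n / e.N) (n % e.N)
  have h2 : n % e.N + n / e.N * e.N = n := Int.emod_add_ediv_mul n e.N
  rw [h2] at h1
  show ((RAY.pt (e.θ (n % e.N)) 0 : ℂ) : OnePoint ℂ) = _
  rw [h1, RAY.pt_add_int]

theorem top_htpy (H : I × I → OnePoint ℂ) (hH : Continuous H)
    (h : ∀ s, RAY.PathTo Q fun t => H (s, t)) :
    endC e (fun t => H (0, t)) = endC e fun t => H (1, t) := by
  apply Circle.ext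
  rw [endC_coe e (h 0), endC_coe e (h 1)]
  obtain ⟨j, hj, -⟩ := exists_isRayP e (h 0)
  have hc : ∀ s, H (s, 1) = H (0, 1) := by
    intro s
    have h1 : IsPreconnected (range fun s : I => H (s, 1)) :=
      isPreconnected_range (hH.comp (continuous_id.prodMk continuous_const))
    have h2 : (range fun s : I => H (s, 1)).Subsingleton := by
      by_contra hcon
      rw [Set.not_subsingleton_iff] at hcon
      exact h1.infinite_of_nontrivial hcon ((finite_of_enum e).subset (by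
        rintro _ ⟨s, rfl⟩; exact (h s).one))
    exact h2 ⟨s, rfl⟩ ⟨0, rfl⟩
  refine Dbl.endPt_homotopy (j := j) (dbl (poly e)) hH fun s => ⟨(h s).continuous, ?_, ?_, ?_⟩
  · rw [(h s).zero, dbl_up_zero]
  · intro t ht hv
    exact (h s).avoid t ht ((vert_iff e).1 hv)
  · show H (s, 1) = _
    rw [hc s]
    exact hj.one

theorem gate_subset (i : ℤ) : RAY.gt q i ⊆ (dbl (poly e)).Gap (e.γ i) := by
  rintro z ⟨x, h1, h2, rfl⟩
  obtain ⟨h3, h4⟩ := e.gate i x h1 h2
  rw [dbl_gap]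
  refine ⟨2 * Real.pi * x, ?_, ?_, ?_⟩
  · rw [poly_θ]
    exact mul_lt_mul_of_pos_left h3 (by positivity)
  · rw [poly_θ]
    exact mul_lt_mul_of_pos_left h4 (by positivity)
  · unfold RAY.pt
    congr 2
    push_cast
    ring

theorem top_itin (D : Set (OnePoint ℂ)) (hD : Q ⊆ D) (w : List ℤ) (η : I → OnePoint ℂ)
    (hη : RAY.Itin D q w η) (n : ℤ) (h1 : η 1 = (RAY.pt (e.θ n) 0 : ℂ)) :
    endC e η = (RAY.Enum.circ e).act (w.map e.γ)
      ((RAY.Enum.circ e).c ((RAY.Enum.circ e).θ n)) := by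
  have h2 := itinP_of_itin (poly e) (fun j => hD ((e.mem _).2 ⟨j, by rw [poly_pt]⟩))
    (gate_subset e) hη (j := n) (by rw [h1, poly_pt])
  have h3 := h2.ray.norm_endPt
  apply Circle.ext
  rw [act_coe]
  have h4 : (endC e η : ℂ) = (dbl (poly e)).endPt η := by
    rw [endC, dif_pos h3]
  rw [h4, Dbl.endPt_itin _ h2]
  congr 1

theorem top_disj (y z : I → OnePoint ℂ) (hy : RAY.PathTo Q y) (hz : RAY.PathTo Q z)
    (hyi : Function.Injective y) (hzi : Function.Injective z) (hd : RAY.DisjointInteriors y z)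
    (w : List ℤ) (hw : Even w.length) (t1 t2 t3 t4 : ℝ) (h12 : t1 < t2) (h23 : t2 < t3)
    (h34 : t3 < t4) (h41 : t4 < t1 + (RAY.Enum.circ e).T)
    (c1 : (RAY.Enum.circ e).c t1 = endC e y)
    (c2 : (RAY.Enum.circ e).c t2 = (RAY.Enum.circ e).act w (endC e z))
    (c3 : (RAY.Enum.circ e).c t3 = endC e z)
    (c4 : (RAY.Enum.circ e).c t4 = (RAY.Enum.circ e).act w (endC e y)) : False := by
  obtain ⟨i, hi, -⟩ := exists_isRayP e hy
  obtain ⟨j, hj, -⟩ := exists_isRayP e hz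
  have hc : ∀ t, (((RAY.Enum.circ e).c t : Circle) : ℂ) = ang t := fun t => Circle.coe_exp t
  have d1 := congrArg (fun x : Circle => (x : ℂ)) c1
  have d2 := congrArg (fun x : Circle => (x : ℂ)) c2
  have d3 := congrArg (fun x : Circle => (x : ℂ)) c3
  have d4 := congrArg (fun x : Circle => (x : ℂ)) c4
  simp only [hc, act_coe, endC_coe e hy, endC_coe e hz] at d1 d2 d3 d4
  have hT : (RAY.Enum.circ e).T = 2 * Real.pi := rfl
  rw [hT] at h41
  have hl := linked_ang h12 h23 h34 h41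
  by_cases hne : ∀ v, (poly e).word [] v = (poly e).word w v
  · have e2 : (poly e).act w ((dbl (poly e)).endPt z) = (dbl (poly e)).endPt z := by
      rw [← Poly.act_congr _ hne, Poly.act_nil]
    rw [e2] at d2
    have h5 := hl.1
    rw [d2, d3] at h5
    simp [ori, cross] at h5
    nlinarith
  · have h5 := (Dbl.unlinked (dbl (poly e)) hi hj hyi hzi hd (L := []) (L' := w)
      (by simpa using hw) hne).2
    rw [Poly.act_nil, Poly.act_nil, ← d4, ← d2, ← d1, ← d3] at h5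
    exact h5 hl

theorem enum_lo (j : ℤ) : q * e.θ (e.γ (2 * j)) ≤ j - 7 / 16 := by
  have h1 := e.γ_step (2 * j - 1)
  rw [sub_add_cancel] at h1
  have h2 := (e.box (2 * j - 1) (e.γ (2 * j))).1 ⟨by omega, by rw [sub_add_cancel]⟩
  have h3 := (abs_le.1 h2).2
  push_cast at h3
  linarith

theorem enum_hi (j : ℤ) : (j : ℝ) + 7 / 16 ≤ q * e.θ (e.γ (2 * j + 1) + 1) := by
  have h1 := e.γ_step (2 * j + 1)
  have h2 := (e.box (2 * j + 1) (e.γ (2 * j + 1) + 1)).1 ⟨by omega, by omega⟩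
  have h3 := (abs_le.1 h2).1
  push_cast at h3
  linarith

theorem pt_eq_exp (x : ℝ) : RAY.pt x 0 = Complex.exp ((2 * Real.pi * x : ℝ) * Complex.I) := by
  unfold RAY.pt
  congr 1
  push_cast
  ring

theorem top_strip (η : I → OnePoint ℂ) (hη : RAY.PathTo Q η) (j : ℤ) (τ : I)
    (h1 : ∀ s ≤ τ, η s ∈ RAY.sideU)
    (h2 : ∀ s ≥ τ, ∃ x y : ℝ, |q * x - j| < 1 / 2 - 1 / 16 ∧ η s = (RAY.pt x y : ℂ)) :
    ∃ t, (RAY.Enum.circ e).θ (e.γ (2 * j)) ≤ t ∧ t ≤ (RAY.Enum.circ e).θ (e.γ (2 * j + 1) + 1) ∧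
      (RAY.Enum.circ e).c t = endC e η := by
  have hlo := enum_lo e j
  have hhi := enum_hi e j
  have hq : (0 : ℝ) ≤ q := Nat.cast_nonneg q
  have hmono := e.mono.monotone
  -- the end point lies in the box `2 j`
  obtain ⟨n, hn1, hn2, hn3⟩ :
      ∃ n, e.γ (2 * j) < n ∧ n ≤ e.γ (2 * j + 1) ∧ η 1 = (RAY.pt (e.θ n) 0 : ℂ) := by
    obtain ⟨x, y, hx, hxy⟩ := h2 1 (unitInterval.le_one' (t := τ))
    obtain ⟨n, hn⟩ := (e.mem _).1 hη.one
    have h3 : RAY.pt (e.θ n) 0 = RAY.pt x y := OnePoint.coe_injective (hn.symm.trans hxy)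
    obtain ⟨-, k, hk⟩ := RAY.pt_eq_iff.1 h3
    have h4 : e.θ (n + (-k) * e.N) = x := by
      rw [enum_add, hk]; push_cast; ring
    have hx' := abs_lt.1 hx
    refine ⟨n + (-k) * e.N, ?_, ?_, ?_⟩
    · by_contra hcon
      push Not at hcon
      have h5 := mul_le_mul_of_nonneg_left (hmono hcon) hq
      rw [h4] at h5
      linarith [hx'.1]
    · by_contra hcon
      push Not at hcon
      have h5 := mul_le_mul_of_nonneg_left (hmono (show e.γ (2 * j + 1) + 1 ≤ n + (-k) * e.N by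
        omega)) hq
      rw [h4] at h5
      linarith [hx'.2]
    · rw [hn, enum_add, RAY.pt_add_int]
  have hray := isRayP_of_end e hη hn3
  have hfin : ∀ φ : ℝ, (poly e).θ (e.γ (2 * j)) ≤ φ → φ ≤ (poly e).θ (e.γ (2 * j + 1) + 1) →
      (dbl (poly e)).endPt η = Complex.exp (φ * Complex.I) →
      ∃ t, (RAY.Enum.circ e).θ (e.γ (2 * j)) ≤ t ∧
        t ≤ (RAY.Enum.circ e).θ (e.γ (2 * j + 1) + 1) ∧ (RAY.Enum.circ e).c t = endC e η := by
    intro φ h3 h4 h5
    refine ⟨φ, h3, h4, Circle.ext ?_⟩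
    rw [endC_coe e hη, h5]
    exact Circle.coe_exp φ
  by_cases hτ : τ = 1
  · have hit : (dbl (poly e)).ItinP n [] η := by
      refine ⟨hray, fun i => if i = 0 then 0 else 1, ?_, ?_, ?_, ?_, ?_⟩
      · intro a b hab
        by_cases ha : a = 0
        · simp only [ha, if_true]
          exact unitInterval.nonneg' 
        · have hb : b ≠ 0 := by omega
          simp only [ha, hb, if_false]
          exact le_rfl
      · simp
      · simp
      · intro i hi
        simp at hi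
      · intro i hi t _ _
        have hi0 : i = 0 := by simpa using hi
        have h3 := h1 t (by rw [hτ]; exact unitInterval.le_one')
        have h4 : t ∈ (univ : Set I) := trivial
        unfold Dbl.sideP
        rw [hi0, if_pos (by simp), dbl_SU]
        exact h3
    have h3 := Dbl.endPt_itin _ hit
    rw [Poly.act_nil] at h3
    refine hfin ((poly e).θ n) ?_ ?_ h3
    · exact (poly e).mono.monotone hn1.le
    · exact (poly e).mono.monotone (by omega)
  · obtain ⟨φ, h3, h4, h5⟩ := Dbl.strip (dbl (poly e)) hn1 hn2 hray hτ (fun t ht => by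
        rw [dbl_SU]; exact h1 t ht) (fun t ht _ i hi => by
        obtain ⟨x, y, hx, hxy⟩ := h2 t ht
        obtain ⟨φ, hφ1, hφ2, hφ3⟩ := (dbl_gap _).1 hi
        have h6 : RAY.pt x y = RAY.pt (φ / (2 * Real.pi)) 0 := by
          have h7 := OnePoint.coe_injective (hxy.symm.trans hφ3)
          rw [h7, pt_eq_exp]
          congr 2
          push_cast
          field_simp
        obtain ⟨-, k, hk⟩ := RAY.pt_eq_iff.1 h6
        rw [poly_θ] at hφ1 hφ2
        have hπ : 0 < 2 * Real.pi := by positivity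
        have h8 : e.θ (i + k * e.N) < x := by
          rw [enum_add, hk]
          have : e.θ i < φ / (2 * Real.pi) := by rw [lt_div_iff₀ hπ]; linarith
          linarith
        have h9 : x < e.θ (i + k * e.N + 1) := by
          have e1 : i + k * (e.N : ℤ) + 1 = (i + 1) + k * e.N := by ring
          rw [e1, enum_add, hk]
          have : φ / (2 * Real.pi) < e.θ (i + 1) := by rw [div_lt_iff₀ hπ]; linarith
          linarith
        have hx' := abs_lt.1 hx
        refine ⟨k, ?_, ?_⟩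
        · by_contra hcon
          push Not at hcon
          have h10 := mul_le_mul_of_nonneg_left (h9.le.trans (hmono (show i + k * (e.N : ℤ) + 1 ≤
            e.γ (2 * j) by omega))) hq
          linarith [hx'.1]
        · by_contra hcon
          push Not at hcon
          have h10 := mul_le_mul_of_nonneg_left ((hmono (show e.γ (2 * j + 1) + 1 ≤
            i + k * (e.N : ℤ) by omega)).trans h8.le) hq
          linarith [hx'.2])
    exact hfin φ h3 h4 h5

end one

section two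

variable {q q' : ℕ} {Q Q' : Set (OnePoint ℂ)} (e : RAY.Enum q Q) (e' : RAY.Enum q' Q')

theorem top_base (h : OnePoint ℂ ≃ₜ OnePoint ℂ) (h0 : h OnePoint.infty = OnePoint.infty) :
    h ((dbl (poly e)).up 0) = (dbl (poly e')).up 0 := by
  rw [dbl_up_zero, dbl_up_zero, h0]

theorem top_vert (h : OnePoint ℂ ≃ₜ OnePoint ℂ) (hQ : h ⁻¹' Q' = Q) (x : OnePoint ℂ) :
    x ∈ (dbl (poly e)).Vert ↔ h x ∈ (dbl (poly e')).Vert := by
  rw [vert_iff, vert_iff, ← hQ]
  rfl

theorem _root_.Pool.Agent.RAY.PathTo.homeo {Q Q' : Set (OnePoint ℂ)}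
    {η : I → OnePoint ℂ} (hη : RAY.PathTo Q η) (h : OnePoint ℂ ≃ₜ OnePoint ℂ)
    (h0 : h OnePoint.infty = OnePoint.infty) (hQ : h ⁻¹' Q' = Q) :
    RAY.PathTo Q' fun t => h (η t) := by
  refine ⟨h.continuous.comp hη.continuous, ?_, ?_, fun t ht hm => ?_⟩
  · show h (η 0) = _
    rw [hη.zero, h0]
  · have := hη.one
    rw [← hQ] at this
    exact this
  · exact hη.avoid t ht (by rw [← hQ]; exact hm)

theorem top_transEq (h : OnePoint ℂ ≃ₜ OnePoint ℂ) (h0 : h OnePoint.infty = OnePoint.infty)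
    (hQ : h ⁻¹' Q' = Q) (y z : I → OnePoint ℂ) (hy : RAY.PathTo Q y) (hz : RAY.PathTo Q z)
    (he : endC e y = endC e z) : endC e' (fun t => h (y t)) = endC e' fun t => h (z t) := by
  obtain ⟨i, hi, -⟩ := exists_isRayP e hy
  obtain ⟨j, hj, -⟩ := exists_isRayP e hz
  apply Circle.ext
  rw [endC_coe e' (hy.homeo h h0 hQ), endC_coe e' (hz.homeo h h0 hQ)]
  refine Dbl.endPt_transport (dbl (poly e)) (dbl (poly e')) (top_base e e' h h0)
    (top_vert e e' h hQ) hi hj ?_
  rw [← endC_coe e hy, ← endC_coe e hz, he]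

theorem top_transLk (h : OnePoint ℂ ≃ₜ OnePoint ℂ) (h0 : h OnePoint.infty = OnePoint.infty)
    (hQ : h ⁻¹' Q' = Q) (y : Fin 4 → I → OnePoint ℂ) (hy : ∀ i, RAY.PathTo Q (y i))
    (t : Fin 4 → ℝ) (ht : ∀ i, (RAY.Enum.circ e).c (t i) = endC e (y i)) (h01 : t 0 < t 1)
    (h12 : t 1 < t 2) (h23 : t 2 < t 3) (h30 : t 3 < t 0 + (RAY.Enum.circ e).T) :
    ∃ t' : Fin 4 → ℝ, (∀ i, (RAY.Enum.circ e').c (t' i) = endC e' fun s => h (y i s)) ∧
        ((t' 0 < t' 1 ∧ t' 1 < t' 2 ∧ t' 2 < t' 3 ∧ t' 3 < t' 0 + (RAY.Enum.circ e').T) ∨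
         (t' 0 < t' 3 ∧ t' 3 < t' 2 ∧ t' 2 < t' 1 ∧ t' 1 < t' 0 + (RAY.Enum.circ e').T)) := by
  have hc : ∀ t, (((RAY.Enum.circ e).c t : Circle) : ℂ) = ang t := fun t => Circle.coe_exp t
  have hc' : ∀ t, (((RAY.Enum.circ e').c t : Circle) : ℂ) = ang t := fun t => Circle.coe_exp t
  have hT : (RAY.Enum.circ e).T = 2 * Real.pi := rfl
  have hT' : (RAY.Enum.circ e').T = 2 * Real.pi := rfl
  rw [hT] at h30
  rw [hT']
  have hE : ∀ i, (dbl (poly e)).endPt (y i) = ang (t i) := fun i => by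
    rw [← endC_coe e (hy i), ← ht i, hc]
  choose j hj _ using fun i => exists_isRayP e (hy i)
  have hl := linked_ang h01 h12 h23 h30
  rw [← hE 0, ← hE 1, ← hE 2, ← hE 3] at hl
  have hx : Crossed ((dbl (poly e)).endPt (y 0)) ((dbl (poly e)).endPt (y 2))
      ((dbl (poly e)).endPt (y 1)) ((dbl (poly e)).endPt (y 3)) := Or.inl hl
  have hx' := Dbl.crossed_transport (dbl (poly e)) (dbl (poly e')) (top_base e e' h h0)
    (top_vert e e' h hQ) (hj 0) (hj 2) (hj 1) (hj 3) hx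
  have hy' : ∀ i, RAY.PathTo Q' fun s => h (y i s) := fun i => (hy i).homeo h h0 hQ
  have hE' : ∀ i, (dbl (poly e')).endPt (fun s => h (y i s)) = endC e' fun s => h (y i s) :=
    fun i => (endC_coe e' (hy' i)).symm
  have hn : ∀ i, ‖((endC e' fun s => h (y i s) : Circle) : ℂ)‖ = 1 := fun i => Circle.norm_coe _
  rw [hE' 0, hE' 1, hE' 2, hE' 3] at hx'
  obtain ⟨a, -, -, ha⟩ := exists_ang (hn 0) 0
  rw [ha] at hx'
  rcases hx' with hx' | hx'
  · obtain ⟨b, c, d, k1, k2, k3, k4, e1, e2, e3⟩ := exists_of_linked (hn 1) (hn 2) (hn 3) hx'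
    refine ⟨![a, b, c, d], fun i => Circle.ext ?_, Or.inl ⟨k1, k2, k3, k4⟩⟩
    rw [hc']
    fin_cases i
    · exact ha.symm
    · exact e1.symm
    · exact e2.symm
    · exact e3.symm
  · obtain ⟨b, c, d, k1, k2, k3, k4, e1, e2, e3⟩ := exists_of_linked (hn 3) (hn 2) (hn 1) hx'
    refine ⟨![a, d, c, b], fun i => Circle.ext ?_, Or.inr ⟨k1, k2, k3, k4⟩⟩
    rw [hc']
    fin_cases i
    · exact ha.symm
    · exact e3.symm
    · exact e2.symm
    · exact e1.symm

end two

/-- THE TOPOLOGICAL CORE -/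
noncomputable def topSys : RAY.TopSys where
  X := Circle
  K e := RAY.Enum.circ e
  E e η := endC e η
  K_N _ := rfl
  K_T _ := by
    show (0 : ℝ) < 2 * Real.pi
    positivity
  K_θ _ _ := rfl
  htpy e H hH h := top_htpy e H hH h
  itin e D hD w η hη n h1 := top_itin e D hD w η hη n h1
  disj e y z hy hz hyi hzi hd w hw t1 t2 t3 t4 h12 h23 h34 h41 c1 c2 c3 c4 :=
    top_disj e y z hy hz hyi hzi hd w hw t1 t2 t3 t4 h12 h23 h34 h41 c1 c2 c3 c4
  transEq e e' h h0 hQ y z hy hz he := top_transEq e e' h h0 hQ y z hy hz he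
  transLk e e' h h0 hQ y hy t ht h01 h12 h23 h30 :=
    top_transLk e e' h h0 hQ y hy t ht h01 h12 h23 h30
  strip e η hη j τ h1 h2 := top_strip e η hη j τ h1 h2

end Pool.Agent.RAYT
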