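import Pool.Agent.RAYT.Pong

/-!
RAYT/Ball: the cells fill the open unit disc; the projective action of words on the closed disc.

PROOFS.  `exists_cell_v`.  Put `c = - B v v > 0`, `T = v.2`.  For `i, j < N`, `i ≠ j` (natural
numbers as representatives; `nrm` depends only on the class, `N_pos`) the set
`K = {u | B u u = - c, 0 ≤ u.2 ≤ T, 0 ≤ B u (nrm i), 0 ≤ B (rf i u) (nrm j)}` is compact (closed and
bounded: `‖u.1‖² = u.2² - c`) and `B u (nrm i) > 0` on it: if `B u (nrm i) = 0` then `rf i u = u`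
(`refl_fix`), and `disj_lt` contradicts `0 ≤ B u (nrm j)`.  So there is `δ > 0` with
`B u (nrm i) ≥ δ` on all these sets (`IsCompact.exists_isMinOn`, finitely many pairs; `K` empty is
harmless).  Hence in a step `u ↦ rf i u` the height decreases by
`2 B(u,n)/B(n,n) n.2 ≥ δ' > 0`, `δ'` the minimum over `i` of `2 δ cos (hw i) / sin² (hw i)`.
Algorithm (induction on the natural number `m` with `u.2 ≤ m δ'`, for `u` with `B u u = - c`,
`0 < u.2 ≤ T`, and a class `i` with `0 ≤ B u (nrm i)`): let `w = rf i u`.  If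
`B w (nrm j) ≤ 0` for all `j`, then `w ∈ Qv`, `u = word [i] w`.  Otherwise `0 < B w (nrm j)` for
some `j`; `j ≢ i` because `B w (nrm i) = - B u (nrm i) ≤ 0`; so `u ∈ K`, the height of `w` is at
most `u.2 - δ'`, and the induction applies to `w` and `j`.  Heights stay positive
(`cone_refl_lt`).  Start: either `v ∈ Qv` or `0 < B v (nrm i)` for some `i`.
`act_*`: `(z, 1)` with `‖z‖ ≤ 1` is in the closed cone, `cone_word`, and
`word L' (z,1) = s • (act L' z, 1)` (`eq_smul_proj`), `s > 0`; use `norm_proj`, linearity.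
`norm_act_eq`: `B (word L (z,1)) (word L (z,1)) = 0`.  `continuousOn_act`: quotient of continuous
functions (a linear map of a finite dimensional space is continuous), nonzero denominator.
`ori_act_*`: `tri_eq_ori`, `tri_one`, `tri_word_even/odd`.  `act_concat_side`: `word_append`,
`refl_fix`.
-/

set_option autoImplicit false

namespace Pool.Agent.RAYT

open Complex Set Topology Filter

namespace Poly

variable {N : ℕ} (P : Poly N)

private theorem ball_rf_congr_snd (i : ℤ) (u : V3) :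
    (P.rf i u).2 = u.2 - 2 * B u (P.nrm i) / B (P.nrm i) (P.nrm i) * (P.nrm i).2 := by
  simp [rf, refl_apply]

private theorem ball_cont_rf (i : ℤ) : Continuous fun u : V3 => P.rf i u :=
  (P.rf i).toLinearMap.continuous_of_finiteDimensional

private theorem ball_cont_word (L : List ℤ) : Continuous fun u : V3 => P.word L u :=
  (P.word L).toLinearMap.continuous_of_finiteDimensional

/-- a uniform decrease of the height for one pair of gaps -/
private theorem ball_pair {c T : ℝ} (hc : 0 < c) (i j : ℤ) (hne : ¬ j ≡ i [ZMOD (N : ℤ)]) :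
    ∃ ε : ℝ, 0 < ε ∧ ∀ u : V3, B u u = -c → 0 ≤ u.2 → u.2 ≤ T → 0 ≤ B u (P.nrm i) →
      0 ≤ B (P.rf i u) (P.nrm j) → (P.rf i u).2 ≤ u.2 - ε := by
  set K : Set V3 := {u | B u u = -c ∧ 0 ≤ u.2 ∧ u.2 ≤ T ∧ 0 ≤ B u (P.nrm i) ∧
    0 ≤ B (P.rf i u) (P.nrm j)} with hK
  have hcB : Continuous fun u : V3 => B u u := by
    unfold B
    fun_prop
  have hclosed : IsClosed K := by
    have h1 : IsClosed {u : V3 | B u u = -c} := isClosed_eq hcB continuous_const
    have h2 : IsClosed {u : V3 | 0 ≤ u.2} := isClosed_le continuous_const continuous_snd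
    have h3 : IsClosed {u : V3 | u.2 ≤ T} := isClosed_le continuous_snd continuous_const
    have h4 : IsClosed {u : V3 | 0 ≤ B u (P.nrm i)} :=
      isClosed_le continuous_const (continuous_B_left _)
    have h5 : IsClosed {u : V3 | 0 ≤ B (P.rf i u) (P.nrm j)} :=
      isClosed_le continuous_const ((continuous_B_left _).comp (P.ball_cont_rf i))
    have : K = {u : V3 | B u u = -c} ∩ ({u : V3 | 0 ≤ u.2} ∩ ({u : V3 | u.2 ≤ T} ∩
        ({u : V3 | 0 ≤ B u (P.nrm i)} ∩ {u : V3 | 0 ≤ B (P.rf i u) (P.nrm j)}))) := by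
      ext u; simp [hK]
    rw [this]
    exact h1.inter (h2.inter (h3.inter (h4.inter h5)))
  have hcpt : IsCompact K := by
    refine (isCompact_closedBall (0 : V3) T).of_isClosed_subset hclosed ?_
    rintro u ⟨h1, h2, h3, -, -⟩
    rw [mem_closedBall_zero_iff, Prod.norm_def]
    rw [B_self] at h1
    refine max_le ?_ ?_
    · have h0 : 0 ≤ T := h2.trans h3
      nlinarith [norm_nonneg u.1]
    · rw [Real.norm_of_nonneg h2]; exact h3
  have hpos : ∀ u ∈ K, 0 < u.2 - (P.rf i u).2 := by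
    rintro u ⟨h1, h2, h3, h4, h5⟩
    have hlt : ‖u.1‖ < u.2 := by
      rw [B_self] at h1
      nlinarith [norm_nonneg u.1]
    have hB : 0 < B u (P.nrm i) := by
      rcases h4.lt_or_eq with h | h
      · exact h
      · exfalso
        have e : P.rf i u = u := refl_fix h.symm
        rw [e] at h5
        exact absurd (P.disj_lt hlt h4 hne) (not_lt.mpr h5)
    rw [P.ball_rf_congr_snd]
    have h6 := P.B_nrm_nrm_pos i
    have h7 := P.nrm_snd_pos i
    have : 0 < 2 * B u (P.nrm i) / B (P.nrm i) (P.nrm i) * (P.nrm i).2 := by positivity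
    linarith
  by_cases hne' : K.Nonempty
  · have hcont : ContinuousOn (fun u : V3 => u.2 - (P.rf i u).2) K :=
      (continuous_snd.sub (continuous_snd.comp (P.ball_cont_rf i))).continuousOn
    obtain ⟨u₀, hu₀, hmin⟩ := hcpt.exists_isMinOn hne' hcont
    refine ⟨u₀.2 - (P.rf i u₀).2, hpos u₀ hu₀, ?_⟩
    intro u h1 h2 h3 h4 h5
    have := hmin (show u ∈ K from ⟨h1, h2, h3, h4, h5⟩)
    have h6 : u₀.2 - (P.rf i u₀).2 ≤ u.2 - (P.rf i u).2 := this
    linarith
  · refine ⟨1, one_pos, ?_⟩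
    intro u h1 h2 h3 h4 h5
    exact absurd ⟨u, h1, h2, h3, h4, h5⟩ hne'

include P in
private theorem ball_N_pos : 0 < N := by
  rcases Nat.eq_zero_or_pos N with h | h
  · exfalso
    have h1 := P.per 0
    have e : (0 : ℤ) + (N : ℤ) = 0 := by rw [h]; simp
    rw [e] at h1
    have := Real.pi_pos
    linarith
  · exact h

/-- a uniform decrease of the height -/
private theorem ball_unif {c T : ℝ} (hc : 0 < c) :
    ∃ ε : ℝ, 0 < ε ∧ ∀ i j : ℤ, ¬ j ≡ i [ZMOD (N : ℤ)] → ∀ u : V3, B u u = -c → 0 ≤ u.2 →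
      u.2 ≤ T → 0 ≤ B u (P.nrm i) → 0 ≤ B (P.rf i u) (P.nrm j) → (P.rf i u).2 ≤ u.2 - ε := by
  have hN := P.ball_N_pos
  have hex : ∀ p : ℕ × ℕ, ∃ ε : ℝ, 0 < ε ∧ (¬ (p.2 : ℤ) ≡ (p.1 : ℤ) [ZMOD (N : ℤ)] →
      ∀ u : V3, B u u = -c → 0 ≤ u.2 → u.2 ≤ T → 0 ≤ B u (P.nrm p.1) →
      0 ≤ B (P.rf p.1 u) (P.nrm p.2) → (P.rf p.1 u).2 ≤ u.2 - ε) := by
    intro p
    by_cases h : (p.2 : ℤ) ≡ (p.1 : ℤ) [ZMOD (N : ℤ)]
    · exact ⟨1, one_pos, fun h' => absurd h h'⟩
    · obtain ⟨ε, h1, h2⟩ := P.ball_pair (T := T) hc p.1 p.2 h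
      exact ⟨ε, h1, fun _ => h2⟩
  choose f hf0 hf using hex
  have hne : (Finset.range N ×ˢ Finset.range N).Nonempty :=
    ⟨(0, 0), by simp [hN]⟩
  obtain ⟨p₀, -, hp₀⟩ := Finset.exists_min_image _ f hne
  refine ⟨f p₀, hf0 p₀, ?_⟩
  intro i j hij u h1 h2 h3 h4 h5
  have hN' : (0 : ℤ) < N := by exact_mod_cast hN
  obtain ⟨a, ha, hai⟩ : ∃ a : ℕ, a < N ∧ (a : ℤ) ≡ i [ZMOD (N : ℤ)] := by
    refine ⟨(i % N).toNat, ?_, ?_⟩
    · have := Int.emod_lt_of_pos i hN'
      have h0 := Int.emod_nonneg i hN'.ne'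
      omega
    · rw [Int.toNat_of_nonneg (Int.emod_nonneg i hN'.ne')]
      exact Int.mod_modEq i N
  obtain ⟨b, hb, hbj⟩ : ∃ b : ℕ, b < N ∧ (b : ℤ) ≡ j [ZMOD (N : ℤ)] := by
    refine ⟨(j % N).toNat, ?_, ?_⟩
    · have := Int.emod_lt_of_pos j hN'
      have h0 := Int.emod_nonneg j hN'.ne'
      omega
    · rw [Int.toNat_of_nonneg (Int.emod_nonneg j hN'.ne')]
      exact Int.mod_modEq j N
  have hab : ¬ ((a, b).2 : ℤ) ≡ ((a, b).1 : ℤ) [ZMOD (N : ℤ)] := by
    intro h
    exact hij (hbj.symm.trans (h.trans hai))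
  have e1 : P.nrm i = P.nrm a := P.nrm_congr hai.symm
  have e2 : P.nrm j = P.nrm b := P.nrm_congr hbj.symm
  have e3 : P.rf i = P.rf a := P.rf_congr hai.symm
  rw [e3, e2] at h5
  rw [e1] at h4
  have h6 := hf (a, b) hab u h1 h2 h3 h4 h5
  have h7 := hp₀ (a, b) (by simp [ha, hb])
  rw [e3]
  simp only at h6
  linarith

/-- the cells fill the open cone -/
theorem exists_cell_v {v : V3} (h1 : ‖v.1‖ < v.2) : ∃ L : List ℤ, ∃ q ∈ P.Qv, v = P.word L q := by
  have hBv : B v v < 0 := by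
    rw [B_self]; nlinarith [norm_nonneg v.1]
  obtain ⟨ε, hε, hstep⟩ := P.ball_unif (c := - B v v) (T := v.2) (by linarith)
  have key : ∀ m : ℕ, ∀ u : V3, B u u = B v v → ‖u.1‖ < u.2 → u.2 ≤ v.2 → u.2 ≤ m * ε →
      ∀ i, 0 ≤ B u (P.nrm i) → ∃ L : List ℤ, ∃ q ∈ P.Qv, u = P.word L q := by
    intro m
    induction m with
    | zero =>
      intro u _ h3 _ h5
      exfalso
      have := norm_nonneg u.1
      simp only [Nat.cast_zero, zero_mul] at h5
      linarith
    | succ m ih =>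
      intro u h2 h3 h4 h5 i hi
      have hw1 : ‖(P.rf i u).1‖ < (P.rf i u).2 := cone_refl_lt (P.B_nrm_nrm_pos i) h3
      have hw2 : P.rf i (P.rf i u) = u := refl_refl _ _
      by_cases hall : ∀ j, B (P.rf i u) (P.nrm j) ≤ 0
      · refine ⟨[i], P.rf i u, ⟨hw1, hall⟩, ?_⟩
        rw [word_cons, word_nil, hw2]
      · push Not at hall
        obtain ⟨j, hj⟩ := hall
        have hji : ¬ j ≡ i [ZMOD (N : ℤ)] := by
          intro h
          rw [P.nrm_congr h, rf, B_refl_left (P.B_nrm_nrm_pos i).ne'] at hj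
          linarith
        have h6 := hstep i j hji u (by rw [h2]; ring) ((norm_nonneg _).trans h3.le) h4 hi hj.le
        have h7 : B (P.rf i u) (P.rf i u) = B v v := by rw [rf, B_refl, h2]
        push_cast at h5
        obtain ⟨L, q, hq, hL⟩ := ih (P.rf i u) h7 hw1 (by linarith) (by linarith) j hj.le
        refine ⟨i :: L, q, hq, ?_⟩
        rw [word_cons, ← hL, hw2]
  by_cases hall : ∀ j, B v (P.nrm j) ≤ 0
  · exact ⟨[], v, ⟨h1, hall⟩, rfl⟩
  · push Not at hall
    obtain ⟨i, hi⟩ := hall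
    obtain ⟨m, hm⟩ := exists_nat_ge (v.2 / ε)
    refine key m v rfl h1 le_rfl ?_ i hi.le
    rw [div_le_iff₀ hε] at hm
    exact hm

theorem act_nil (z : ℂ) : P.act [] z = z := by
  rw [act, word_nil, proj_one]

/-- the height of the image of a point of the closed disc is positive -/
private theorem ball_pos (L : List ℤ) {z : ℂ} (hz : ‖z‖ ≤ 1) : 0 < (P.word L (z, 1)).2 :=
  (P.cone_word L (v := (z, 1)) one_pos hz).1

/-- the action of a word and the action of the same word on vectors -/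
theorem proj_word (L : List ℤ) {v : V3} (h0 : 0 < v.2) (_h1 : ‖v.1‖ ≤ v.2) :
    proj (P.word L v) = P.act L (proj v) := by
  conv_lhs => rw [eq_smul_proj h0.ne']
  rw [map_smul, proj_smul h0.ne', act]

theorem act_append (L L' : List ℤ) {z : ℂ} (hz : ‖z‖ ≤ 1) :
    P.act (L ++ L') z = P.act L (P.act L' z) := by
  rw [act, word_append]
  obtain ⟨h1, h2⟩ := P.cone_word L' (v := (z, 1)) one_pos hz
  rw [P.proj_word L h1 h2]
  rfl

theorem act_reverse (L : List ℤ) {z : ℂ} (hz : ‖z‖ ≤ 1) : P.act L.reverse (P.act L z) = z := by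
  rw [← P.act_append _ _ hz, act, word_append, word_reverse, proj_one]

theorem act_reverse' (L : List ℤ) {z : ℂ} (hz : ‖z‖ ≤ 1) : P.act L (P.act L.reverse z) = z := by
  rw [← P.act_append _ _ hz, act, word_append, word_reverse', proj_one]

theorem norm_act_le (L : List ℤ) {z : ℂ} (hz : ‖z‖ ≤ 1) : ‖P.act L z‖ ≤ 1 := by
  obtain ⟨h1, h2⟩ := P.cone_word L (v := (z, 1)) one_pos hz
  rw [act, norm_proj h1, div_le_one h1]
  exact h2

theorem norm_act_lt (L : List ℤ) {z : ℂ} (hz : ‖z‖ < 1) : ‖P.act L z‖ < 1 := by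
  have h1 := P.ball_pos L hz.le
  have h2 := P.cone_word_lt L (v := (z, 1)) hz
  rw [act, norm_proj h1, div_lt_one h1]
  exact h2

theorem norm_act_eq (L : List ℤ) {z : ℂ} (hz : ‖z‖ = 1) : ‖P.act L z‖ = 1 := by
  have h1 := P.ball_pos L hz.le
  have h2 : B (P.word L (z, 1)) (P.word L (z, 1)) = 0 := by
    rw [P.B_word, B_self, hz]; norm_num
  rw [act, norm_proj h1, div_eq_one_iff_eq h1.ne']
  rw [B_self] at h2
  have h3 : (‖(P.word L (z, 1)).1‖ - (P.word L (z, 1)).2) *
      (‖(P.word L (z, 1)).1‖ + (P.word L (z, 1)).2) = 0 := by linarith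
  rcases mul_eq_zero.mp h3 with h | h
  · linarith
  · have := norm_nonneg (P.word L (z, 1)).1
    linarith

theorem continuousOn_act (L : List ℤ) : ContinuousOn (P.act L) (Metric.closedBall (0 : ℂ) 1) := by
  have hc : Continuous fun z : ℂ => P.word L (z, 1) :=
    (P.ball_cont_word L).comp (continuous_id.prodMk continuous_const)
  have h1 : ContinuousOn (fun z : ℂ => ((P.word L (z, 1)).2)⁻¹) (Metric.closedBall (0 : ℂ) 1) := by
    refine ContinuousOn.inv₀ (continuous_snd.comp hc).continuousOn ?_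
    intro z hz
    exact (P.ball_pos L (mem_closedBall_zero_iff.mp hz)).ne'
  have h2 : ContinuousOn (fun z : ℂ => (P.word L (z, 1)).1) (Metric.closedBall (0 : ℂ) 1) :=
    (continuous_fst.comp hc).continuousOn
  exact h1.smul h2

theorem act_congr {L L' : List ℤ} (h : ∀ v, P.word L v = P.word L' v) (z : ℂ) :
    P.act L z = P.act L' z := by
  unfold act; rw [h]

/-- even words preserve orientation -/
theorem ori_act_even {L : List ℤ} (hL : Even L.length) {a b c : ℂ} (ha : ‖a‖ ≤ 1) (hb : ‖b‖ ≤ 1)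
    (hc : ‖c‖ ≤ 1) : 0 < ori (P.act L a) (P.act L b) (P.act L c) ↔ 0 < ori a b c := by
  have h1 := P.ball_pos L ha
  have h2 := P.ball_pos L hb
  have h3 := P.ball_pos L hc
  have h4 := P.tri_word_even hL (a, 1) (b, 1) (c, 1)
  rw [tri_one, tri_eq_ori h1.ne' h2.ne' h3.ne'] at h4
  rw [← h4, act, act, act]
  exact (mul_pos_iff_of_pos_left (mul_pos (mul_pos h1 h2) h3)).symm

theorem ori_act_odd {L : List ℤ} (hL : Odd L.length) {a b c : ℂ} (ha : ‖a‖ ≤ 1) (hb : ‖b‖ ≤ 1)
    (hc : ‖c‖ ≤ 1) : 0 < ori (P.act L a) (P.act L b) (P.act L c) ↔ ori a b c < 0 := by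
  have h1 := P.ball_pos L ha
  have h2 := P.ball_pos L hb
  have h3 := P.ball_pos L hc
  have h4 := P.tri_word_odd hL (a, 1) (b, 1) (c, 1)
  rw [tri_one, tri_eq_ori h1.ne' h2.ne' h3.ne'] at h4
  have h5 : ori a b c < 0 ↔ 0 < - ori a b c := by
    constructor <;> intro h <;> linarith
  rw [h5, ← h4, act, act, act]
  exact (mul_pos_iff_of_pos_left (mul_pos (mul_pos h1 h2) h3)).symm

/-- the crossing of the gap `j` -/
theorem act_concat_side (L : List ℤ) {j : ℤ} {z : ℂ} (h : B (z, 1) (P.nrm j) = 0) :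
    P.act (L ++ [j]) z = P.act L z := by
  rw [act, word_append, word_cons, word_nil, rf, refl_fix h, act]

end Poly

end Pool.Agent.RAYT
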