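import Pool.Agent.RAYT.Lines

/-!
RAYT/Circ: orientation of points of the circle given by angles.

PROOFS.  `ori_ang`: with the half angles `α = a/2, β = b/2, γ = c/2` both sides are
polynomials in sines and cosines of `α, β, γ`; e.g. `ori = sin (b - a) + sin (c - b) - sin (c - a)`
and the sum to product formulas.  `ori_ang_pos`: the half differences are in `(0, π)`.
`linked_ang`: four times `ori_ang_pos` (use `ang (a + 2 π) = ang a`, `ori_rot`).
`exists_of_linked`: choose `b, c, d` in `[a, a + 2 π)` (`exists_ang`); none is `a` (`ori` would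
vanish); the sign of `ori_ang` for `a ≤ b, c` is the sign of `c - b`.
-/

set_option autoImplicit false

namespace Pool.Agent.RAYT

open Complex Set Topology Filter

/-- the point of the circle with angle `t` -/
noncomputable def ang (t : ℝ) : ℂ := Complex.exp (t * Complex.I)

theorem norm_ang (t : ℝ) : ‖ang t‖ = 1 := by
  rw [ang]; exact Complex.norm_exp_ofReal_mul_I t

theorem ang_add (t : ℝ) : ang (t + 2 * Real.pi) = ang t := by
  rw [ang, ang]
  push_cast
  rw [add_mul, Complex.exp_add, Complex.exp_two_pi_mul_I, mul_one]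

theorem exists_ang {z : ℂ} (h : ‖z‖ = 1) (t₀ : ℝ) : ∃ t, t₀ ≤ t ∧ t < t₀ + 2 * Real.pi ∧
    z = ang t := by
  have hp : Function.Periodic ang (2 * Real.pi) := ang_add
  have hm := toIcoMod_mem_Ico Real.two_pi_pos t₀ (Complex.arg z)
  refine ⟨toIcoMod Real.two_pi_pos t₀ (Complex.arg z), hm.1, hm.2, ?_⟩
  rw [toIcoMod, hp.sub_zsmul_eq, ang]
  have := Complex.norm_mul_exp_arg_mul_I z
  rw [h] at this
  simpa using this.symm

private theorem circ_alg (sa ca sb cb sc cc : ℝ) (ha : sa ^ 2 + ca ^ 2 = 1)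
    (hb : sb ^ 2 + cb ^ 2 = 1) (hc : sc ^ 2 + cc ^ 2 = 1) :
    ((cb ^ 2 - sb ^ 2) - (ca ^ 2 - sa ^ 2)) * (2 * sc * cc - 2 * sa * ca) -
      (2 * sb * cb - 2 * sa * ca) * ((cc ^ 2 - sc ^ 2) - (ca ^ 2 - sa ^ 2)) =
    4 * (sb * ca - cb * sa) * (sc * cb - cc * sb) * (sc * ca - cc * sa) := by
  linear_combination
    (-((cb ^ 2 - sb ^ 2) * (2 * sc * cc) - (2 * sb * cb) * (cc ^ 2 - sc ^ 2))) * ha +
    (-((2 * sa * ca) * (cc ^ 2 - sc ^ 2) - (ca ^ 2 - sa ^ 2) * (2 * sc * cc))) * hb +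
    (-((2 * sb * cb) * (ca ^ 2 - sa ^ 2) - (cb ^ 2 - sb ^ 2) * (2 * sa * ca))) * hc

private theorem circ_half (t : ℝ) : Real.cos t = Real.cos (t / 2) ^ 2 - Real.sin (t / 2) ^ 2 ∧
    Real.sin t = 2 * Real.sin (t / 2) * Real.cos (t / 2) := by
  constructor
  · have := Real.cos_two_mul (t / 2)
    rw [show 2 * (t / 2) = t by ring] at this
    have h2 := Real.sin_sq_add_cos_sq (t / 2)
    rw [this]; linarith
  · have := Real.sin_two_mul (t / 2)
    rw [show 2 * (t / 2) = t by ring] at this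
    exact this

theorem ori_ang (a b c : ℝ) : ori (ang a) (ang b) (ang c) =
    4 * Real.sin ((b - a) / 2) * Real.sin ((c - b) / 2) * Real.sin ((c - a) / 2) := by
  have e : ∀ t : ℝ, (ang t).re = Real.cos t ∧ (ang t).im = Real.sin t := fun t =>
    ⟨Complex.exp_ofReal_mul_I_re t, Complex.exp_ofReal_mul_I_im t⟩
  have k := circ_alg _ _ _ _ _ _ (Real.sin_sq_add_cos_sq (a / 2))
    (Real.sin_sq_add_cos_sq (b / 2)) (Real.sin_sq_add_cos_sq (c / 2))
  rw [sub_div, sub_div, sub_div, Real.sin_sub, Real.sin_sub, Real.sin_sub]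
  simp only [ori, cross, sub_re, sub_im, (e _).1, (e _).2]
  rw [(circ_half a).1, (circ_half a).2, (circ_half b).1, (circ_half b).2, (circ_half c).1,
    (circ_half c).2]
  exact k

theorem ori_ang_pos {a b c : ℝ} (h1 : a < b) (h2 : b < c) (h3 : c < a + 2 * Real.pi) :
    0 < ori (ang a) (ang b) (ang c) := by
  rw [ori_ang]
  have s1 : 0 < Real.sin ((b - a) / 2) :=
    Real.sin_pos_of_pos_of_lt_pi (by linarith) (by linarith)
  have s2 : 0 < Real.sin ((c - b) / 2) :=
    Real.sin_pos_of_pos_of_lt_pi (by linarith) (by linarith)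
  have s3 : 0 < Real.sin ((c - a) / 2) :=
    Real.sin_pos_of_pos_of_lt_pi (by linarith) (by linarith)
  positivity

theorem linked_ang {a b c d : ℝ} (h1 : a < b) (h2 : b < c) (h3 : c < d)
    (h4 : d < a + 2 * Real.pi) : Linked (ang a) (ang b) (ang c) (ang d) := by
  refine ⟨ori_ang_pos h1 h2 (by linarith), ori_ang_pos h2 h3 (by linarith), ?_, ?_⟩
  · rw [ori_rot (ang a) (ang c) (ang d)]
    exact ori_ang_pos (h1.trans h2) h3 h4
  · rw [← ori_rot (ang d) (ang a) (ang b)]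
    exact ori_ang_pos h1 (h2.trans h3) h4

private theorem circ_sign {a b c : ℝ} (hb1 : a ≤ b) (hb2 : b < a + 2 * Real.pi) (hc1 : a ≤ c)
    (hc2 : c < a + 2 * Real.pi) (h : 0 < ori (ang a) (ang b) (ang c)) : a < b ∧ b < c := by
  rw [ori_ang] at h
  have s1 : 0 ≤ Real.sin ((b - a) / 2) :=
    Real.sin_nonneg_of_nonneg_of_le_pi (by linarith) (by linarith)
  have s3 : 0 ≤ Real.sin ((c - a) / 2) :=
    Real.sin_nonneg_of_nonneg_of_le_pi (by linarith) (by linarith)
  constructor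
  · rcases hb1.lt_or_eq with h' | h'
    · exact h'
    · exfalso
      rw [← h'] at h
      simp at h
  · by_contra hcon
    push Not at hcon
    have s2 : 0 ≤ Real.sin ((b - c) / 2) :=
      Real.sin_nonneg_of_nonneg_of_le_pi (by linarith) (by linarith)
    have e : Real.sin ((c - b) / 2) = - Real.sin ((b - c) / 2) := by
      rw [← Real.sin_neg]; congr 1; ring
    rw [e] at h
    have := mul_nonneg (mul_nonneg s1 s2) s3
    nlinarith

/-- linked points, the first one with a given angle -/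
theorem exists_of_linked {a : ℝ} {z w u : ℂ} (hz : ‖z‖ = 1) (hw : ‖w‖ = 1) (hu : ‖u‖ = 1)
    (h : Linked (ang a) z w u) : ∃ b c d : ℝ, a < b ∧ b < c ∧ c < d ∧ d < a + 2 * Real.pi ∧
      z = ang b ∧ w = ang c ∧ u = ang d := by
  obtain ⟨b, hb1, hb2, rfl⟩ := exists_ang hz a
  obtain ⟨c, hc1, hc2, rfl⟩ := exists_ang hw a
  obtain ⟨d, hd1, hd2, rfl⟩ := exists_ang hu a
  obtain ⟨h1, -, h3, -⟩ := h
  rw [ori_rot (ang a) (ang c) (ang d)] at h3
  obtain ⟨k1, k2⟩ := circ_sign hb1 hb2 hc1 hc2 h1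
  obtain ⟨-, k4⟩ := circ_sign hc1 hc2 hd1 hd2 h3
  exact ⟨b, c, d, k1, k2, k4, hd2, rfl, rfl, rfl⟩

end Pool.Agent.RAYT
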