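import Pool.Agent.RAYT.Sector

/-!
RAYT/Inst: the sphere as the double of the polygon.

PROOFS.  Let `Q = P.Qc` (as a set of `ℂ`; the condition `‖z‖ ≤ 1` follows from the others, because
for `z = r e^{iφ}`, `θ j ≤ φ ≤ θ (j+1)`, `r cos (φ - mid j) ≤ cos (hw j) ≤ cos (φ - mid j)`).  `Q`
is
compact, convex, a neighbourhood of `0` (all `cos (hw j) > 0`, finitely many classes mod `N`).
`m := gaugeRescaleHomeomorph` of `Q` and the closed unit ball (see
`Mathlib/Analysis/Convex/Gauge...`, `gaugeRescale s t x = (gauge s x / gauge t x) • x`), a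
homeomorphism of `ℂ` which maps `Q` onto the closed ball, `∂ Q` onto the circle, and preserves
every ray `ℝ₊ z`.  `z ∈ Q` is in the frontier of `Q` iff `B (z,1) (nrm j) = 0` for some `j`
(if all are `< 0` then the same is true in a neighbourhood; if one is `0` then `(1 + ε) z ∉ Q`).
`fold : OnePoint ℂ → ℂ`, `fold ∞ = 0`, `fold w = w` for `‖w‖ ≤ 1`, `fold w = 1 / conj w` for
`‖w‖ ≥ 1`, is continuous.  `κ = m⁻¹ ∘ fold`.  `dn z = m z`, `up z = 1 / conj (m z)` (`∞` for
`z = 0`) for `z ∈ Q`; `SU`, `SV` as in the statement (`SV` is compact, hence closed; `SU` is the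
complement of the open set `coe '' ball 0 1`).  On the circle `1 / conj w = w`, which gives
`glue` and `inter`.  The vertices are in `∂ Q` and in the circle, so `m (pt j) = pt j`.  For a point
`e^{iφ}`, `θ j < φ < θ (j+1)`: the point `r e^{iφ}`, `r = cos (hw j) / cos (φ - mid j)`, is in `Q`
(`disj`) with `B = 0` for `j`, so `m (r e^{iφ}) = e^{iφ}`, `κ (e^{iφ}) = r e^{iφ}`, and `e^{iφ}` is
in `Gap j`.  Conversely, if `x ∈ Gap j` then `κ x = r e^{iφ}` is on the open chord `j` (`sector`),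
`m (κ x) = e^{iφ}` and `x = e^{iφ}`.  (One may also avoid gauges: `ρ z = max_j Re (z conj e_j) /
cos (hw j)` and `m z = (ρ z / ‖z‖) z` with the inverse `w ↦ (‖w‖ / ρ w) w`.)
-/

set_option autoImplicit false

namespace Pool.Agent.RAYT

open Complex Set Topology Filter

variable {N : ℕ} (P : Poly N)

section Aux

private noncomputable def instLin (j : ℤ) (z : ℂ) : ℝ :=
  (z.re * (P.nrm j).1.re + z.im * (P.nrm j).1.im) / (P.nrm j).2

private theorem instB (j : ℤ) (z : ℂ) (t : ℝ) :
    B (z, t) (P.nrm j) = z.re * (P.nrm j).1.re + z.im * (P.nrm j).1.im - t * (P.nrm j).2 := rfl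

private theorem instB_le (j : ℤ) (z : ℂ) (t : ℝ) :
    B (z, t) (P.nrm j) ≤ 0 ↔ instLin P j z ≤ t := by
  rw [instB, instLin, div_le_iff₀ (P.nrm_snd_pos j), sub_nonpos]

private theorem instB_ge (j : ℤ) (z : ℂ) (t : ℝ) :
    0 ≤ B (z, t) (P.nrm j) ↔ t ≤ instLin P j z := by
  rw [instB, instLin, le_div_iff₀ (P.nrm_snd_pos j), sub_nonneg]

private theorem instB_eq (j : ℤ) (z : ℂ) (t : ℝ) :
    B (z, t) (P.nrm j) = 0 ↔ instLin P j z = t := by
  rw [instB, instLin, div_eq_iff (P.nrm_snd_pos j).ne', sub_eq_zero]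

private theorem inst_N_pos (P : Poly N) : 0 < N := by
  rcases Nat.eq_zero_or_pos N with h | h
  · exfalso
    have h1 := P.per 0
    subst h
    rw [Nat.cast_zero, add_zero] at h1
    linarith [Real.pi_pos]
  · exact h

private theorem inst_ne (P : Poly N) : (Finset.range N).Nonempty :=
  ⟨0, Finset.mem_range.mpr (inst_N_pos P)⟩

private noncomputable def instRho (z : ℂ) : ℝ :=
  (Finset.range N).sup' (inst_ne P) (fun i : ℕ => instLin P (i : ℤ) z)

private theorem inst_lin_le (j : ℤ) (z : ℂ) : instLin P j z ≤ instRho P z := by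
  have hN : (0 : ℤ) < N := by exact_mod_cast inst_N_pos P
  have h1 := Int.emod_nonneg j hN.ne'
  have h2 := Int.emod_lt_of_pos j hN
  have h3 : ((j % N).toNat : ℤ) = j % N := Int.toNat_of_nonneg h1
  have h4 : (j % N).toNat ∈ Finset.range N := by
    rw [Finset.mem_range]; omega
  have h5 : instLin P j z = instLin P ((j % N).toNat : ℤ) z := by
    rw [instLin, instLin, P.nrm_congr (a := j) (b := ((j % N).toNat : ℤ))]
    rw [h3]
    exact (Int.mod_modEq j N).symm
  rw [h5]
  exact Finset.le_sup' (fun i : ℕ => instLin P (i : ℤ) z) h4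

private theorem inst_rho_eq (z : ℂ) : ∃ j : ℤ, instRho P z = instLin P j z := by
  obtain ⟨i, -, h⟩ := Finset.exists_mem_eq_sup' (inst_ne P) (fun i : ℕ => instLin P (i : ℤ) z)
  exact ⟨i, h⟩

private theorem inst_lin_smul (j : ℤ) (c : ℝ) (z : ℂ) :
    instLin P j (c • z) = c * instLin P j z := by
  simp only [instLin, Complex.real_smul, Complex.re_ofReal_mul, Complex.im_ofReal_mul]
  ring

private theorem inst_rho_smul {c : ℝ} (hc : 0 ≤ c) (z : ℂ) :
    instRho P (c • z) = c * instRho P z := by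
  apply le_antisymm
  · obtain ⟨j, hj⟩ := inst_rho_eq P (c • z)
    rw [hj, inst_lin_smul]
    exact mul_le_mul_of_nonneg_left (inst_lin_le P j z) hc
  · obtain ⟨j, hj⟩ := inst_rho_eq P z
    rw [hj, ← inst_lin_smul]
    exact inst_lin_le P j _

private theorem inst_rho_zero : instRho P 0 = 0 := by
  have := inst_rho_smul P (le_refl (0 : ℝ)) 0
  simpa using this

private theorem inst_norm_le (z : ℂ) : ‖z‖ ≤ instRho P z := by
  obtain ⟨j, h1, h2⟩ := P.exists_gap (Complex.arg z)
  have hz : ((‖z‖ : ℝ) : ℂ) * Complex.exp (Complex.arg z * Complex.I) = z :=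
    Complex.norm_mul_exp_arg_mul_I z
  have h3 := P.B_polar j ‖z‖ (Complex.arg z) ‖z‖
  rw [hz] at h3
  have h4 : |Complex.arg z - P.mid j| ≤ P.hw j := by
    rw [abs_le, Poly.mid, Poly.hw]
    constructor <;> linarith
  have h5 : Real.cos (P.hw j) ≤ Real.cos (Complex.arg z - P.mid j) := by
    rw [← Real.cos_abs (Complex.arg z - P.mid j)]
    exact Real.cos_le_cos_of_nonneg_of_le_pi (abs_nonneg _)
      (by linarith [P.hw_lt j, Real.pi_pos]) h4
  have h6 : 0 ≤ B (z, ‖z‖) (P.nrm j) := by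
    rw [h3]
    nlinarith [norm_nonneg z, mul_le_mul_of_nonneg_left h5 (norm_nonneg z)]
  exact ((instB_ge P j z ‖z‖).1 h6).trans (inst_lin_le P j z)

private theorem inst_rho_pos {z : ℂ} (hz : z ≠ 0) : 0 < instRho P z :=
  lt_of_lt_of_le (norm_pos_iff.2 hz) (inst_norm_le P z)

private theorem inst_rho_nonneg (z : ℂ) : 0 ≤ instRho P z :=
  (norm_nonneg z).trans (inst_norm_le P z)

private theorem inst_cont_rho : Continuous (instRho P) := by
  unfold instRho
  apply Continuous.finset_sup'_apply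
  intro i _
  unfold instLin
  fun_prop

private theorem inst_mem_Qc (z : ℂ) : z ∈ P.Qc ↔ instRho P z ≤ 1 := by
  constructor
  · rintro ⟨-, h⟩
    obtain ⟨j, hj⟩ := inst_rho_eq P z
    rw [hj]
    exact (instB_le P j z 1).1 (h j)
  · intro h
    exact ⟨(inst_norm_le P z).trans h, fun j => (instB_le P j z 1).2 ((inst_lin_le P j z).trans h)⟩

private theorem inst_eq_one {z : ℂ} (hz : z ∈ P.Qc) {j : ℤ} (h : B (z, 1) (P.nrm j) = 0) :
    instRho P z = 1 := by
  apply le_antisymm ((inst_mem_Qc P z).1 hz)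
  rw [← (instB_eq P j z 1).1 h]
  exact inst_lin_le P j z

private theorem inst_exists_zero {z : ℂ} (h : instRho P z = 1) :
    ∃ j, B (z, 1) (P.nrm j) = 0 := by
  obtain ⟨j, hj⟩ := inst_rho_eq P z
  exact ⟨j, (instB_eq P j z 1).2 (hj.symm.trans h)⟩

private noncomputable def instM (z : ℂ) : ℂ := (instRho P z / ‖z‖) • z

private noncomputable def instMi (w : ℂ) : ℂ := (‖w‖ / instRho P w) • w

private theorem instM_zero : instM P 0 = 0 := by simp [instM]

private theorem instMi_zero : instMi P 0 = 0 := by simp [instMi]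

private theorem inst_norm_M (z : ℂ) : ‖instM P z‖ = instRho P z := by
  by_cases hz : z = 0
  · rw [hz, instM_zero, norm_zero, inst_rho_zero]
  · rw [instM, norm_smul, Real.norm_of_nonneg (div_nonneg (inst_rho_nonneg P z) (norm_nonneg z)),
      div_mul_cancel₀ _ (norm_ne_zero_iff.2 hz)]

private theorem inst_rho_Mi (w : ℂ) : instRho P (instMi P w) = ‖w‖ := by
  by_cases hw : w = 0
  · rw [hw, instMi_zero, inst_rho_zero, norm_zero]
  · rw [instMi, inst_rho_smul P (div_nonneg (norm_nonneg w) (inst_rho_nonneg P w)),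
      div_mul_cancel₀ _ (inst_rho_pos P hw).ne']

private theorem instM_Mi (w : ℂ) : instM P (instMi P w) = w := by
  by_cases hw : w = 0
  · rw [hw, instMi_zero, instM_zero]
  · have h1 := (inst_rho_pos P hw).ne'
    have h2 := norm_ne_zero_iff.2 hw
    rw [instM, inst_rho_Mi, instMi, norm_smul,
      Real.norm_of_nonneg (div_nonneg (norm_nonneg w) (inst_rho_nonneg P w)), smul_smul]
    have : ‖w‖ / (‖w‖ / instRho P w * ‖w‖) * (‖w‖ / instRho P w) = 1 := by field_simp
    rw [this, one_smul]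

private theorem instMi_M (z : ℂ) : instMi P (instM P z) = z := by
  by_cases hz : z = 0
  · rw [hz, instM_zero, instMi_zero]
  · have h1 := (inst_rho_pos P hz).ne'
    have h2 := norm_ne_zero_iff.2 hz
    rw [instMi, inst_norm_M, instM,
      inst_rho_smul P (div_nonneg (inst_rho_nonneg P z) (norm_nonneg z)), smul_smul]
    have : instRho P z / (instRho P z / ‖z‖ * instRho P z) * (instRho P z / ‖z‖) = 1 := by
      field_simp
    rw [this, one_smul]

private theorem inst_cont_M : Continuous (instM P) := by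
  rw [continuous_iff_continuousAt]
  intro z
  by_cases hz : z = 0
  · subst hz
    rw [ContinuousAt, instM_zero, tendsto_zero_iff_norm_tendsto_zero]
    have h := (inst_cont_rho P).tendsto 0
    rw [inst_rho_zero] at h
    exact h.congr (fun w => (inst_norm_M P w).symm)
  · exact ((inst_cont_rho P).continuousAt.div continuous_norm.continuousAt
      (norm_ne_zero_iff.2 hz)).smul continuousAt_id

private theorem inst_cont_Mi : Continuous (instMi P) := by
  rw [continuous_iff_continuousAt]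
  intro z
  by_cases hz : z = 0
  · subst hz
    rw [ContinuousAt, instMi_zero, tendsto_zero_iff_norm_tendsto_zero]
    have h : Tendsto (fun w : ℂ => ‖w‖) (𝓝 0) (𝓝 0) := by
      have := (continuous_norm (E := ℂ)).tendsto 0
      rwa [norm_zero] at this
    refine squeeze_zero (fun w => norm_nonneg _) (fun w => ?_) h
    calc ‖instMi P w‖ ≤ instRho P (instMi P w) := inst_norm_le P _
      _ = ‖w‖ := inst_rho_Mi P w
  · exact (continuous_norm.continuousAt.div (inst_cont_rho P).continuousAt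
      (inst_rho_pos P hz).ne').smul continuousAt_id

private noncomputable def instFd (w : ℂ) : ℂ := (((max 1 ‖w‖) ^ 2)⁻¹ : ℝ) • w

private theorem instFd_le {w : ℂ} (h : ‖w‖ ≤ 1) : instFd w = w := by
  rw [instFd, max_eq_left h]; simp

private theorem instFd_ge {w : ℂ} (h : 1 ≤ ‖w‖) : instFd w = ((‖w‖ ^ 2)⁻¹ : ℝ) • w := by
  rw [instFd, max_eq_right h]

private theorem inst_norm_Fd_ge {w : ℂ} (h : 1 ≤ ‖w‖) : ‖instFd w‖ = ‖w‖⁻¹ := by
  rw [instFd_ge h, norm_smul, Real.norm_of_nonneg (by positivity)]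
  have : ‖w‖ ≠ 0 := by linarith
  field_simp

private theorem inst_norm_Fd (w : ℂ) : ‖instFd w‖ ≤ 1 := by
  rcases le_total ‖w‖ 1 with h | h
  · rw [instFd_le h]; exact h
  · rw [inst_norm_Fd_ge h]; exact inv_le_one_of_one_le₀ h

private theorem inst_cont_Fd : Continuous instFd := by
  unfold instFd
  refine Continuous.smul (Continuous.inv₀ ((continuous_const.max continuous_norm).pow 2) ?_)
    continuous_id
  intro w
  have : 0 < max 1 ‖w‖ := lt_of_lt_of_le one_pos (le_max_left _ _)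
  exact pow_ne_zero 2 this.ne'

private theorem inst_tendsto_Fd : Tendsto instFd (cocompact ℂ) (𝓝 0) := by
  rw [tendsto_zero_iff_norm_tendsto_zero]
  have h1 := tendsto_norm_cocompact_atTop (E := ℂ)
  have h2 : Tendsto (fun w : ℂ => ‖w‖⁻¹) (cocompact ℂ) (𝓝 0) := tendsto_inv_atTop_zero.comp h1
  refine h2.congr' ?_
  filter_upwards [h1.eventually_ge_atTop 1] with w hw
  exact (inst_norm_Fd_ge hw).symm

private noncomputable def instK (x : OnePoint ℂ) : ℂ := x.elim 0 (fun w => instMi P (instFd w))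

private theorem instK_infty : instK P OnePoint.infty = 0 := rfl

private theorem instK_coe (w : ℂ) : instK P (w : OnePoint ℂ) = instMi P (instFd w) := rfl

private theorem inst_cont_K : Continuous (instK P) := by
  rw [OnePoint.continuous_iff]
  constructor
  · rw [coclosedCompact_eq_cocompact, instK_infty]
    have h := ((inst_cont_Mi P).tendsto 0).comp inst_tendsto_Fd
    rw [instMi_zero] at h
    exact h
  · exact (inst_cont_Mi P).comp inst_cont_Fd

open Classical in
private noncomputable def instUp (z : ℂ) : OnePoint ℂ :=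
  if z = 0 then OnePoint.infty else (((instRho P z * ‖z‖)⁻¹ : ℝ) • z : ℂ)

private theorem instUp_zero : instUp P 0 = OnePoint.infty := if_pos rfl

private theorem instUp_ne {z : ℂ} (hz : z ≠ 0) :
    instUp P z = (((instRho P z * ‖z‖)⁻¹ : ℝ) • z : ℂ) := if_neg hz

private theorem inst_norm_up {z : ℂ} (hz : z ≠ 0) :
    ‖(((instRho P z * ‖z‖)⁻¹ : ℝ) • z : ℂ)‖ = (instRho P z)⁻¹ := by
  have h1 := (inst_rho_pos P hz)
  have h2 := norm_pos_iff.2 hz
  rw [norm_smul, Real.norm_of_nonneg (by positivity)]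
  field_simp

private theorem inst_cont_Up : Continuous (instUp P) := by
  rw [continuous_iff_continuousAt]
  intro z
  by_cases hz : z = 0
  · subst hz
    rw [continuousAt_iff_punctured_nhds, instUp_zero]
    have h1 : Tendsto (instRho P) (𝓝[≠] 0) (𝓝[>] 0) := by
      rw [tendsto_nhdsWithin_iff]
      constructor
      · have h := (inst_cont_rho P).tendsto 0
        rw [inst_rho_zero] at h
        exact h.mono_left nhdsWithin_le_nhds
      · filter_upwards [self_mem_nhdsWithin] with w hw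
        exact inst_rho_pos P hw
    have h2 : Tendsto (fun w : ℂ => (instRho P w)⁻¹) (𝓝[≠] 0) atTop :=
      tendsto_inv_nhdsGT_zero.comp h1
    have h3 : Tendsto (fun w : ℂ => (((instRho P w * ‖w‖)⁻¹ : ℝ) • w : ℂ)) (𝓝[≠] 0)
        (cocompact ℂ) := by
      rw [← Metric.cobounded_eq_cocompact, ← tendsto_norm_atTop_iff_cobounded]
      refine h2.congr' ?_
      filter_upwards [self_mem_nhdsWithin] with w hw
      exact (inst_norm_up P hw).symm
    rw [← coclosedCompact_eq_cocompact] at h3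
    refine (OnePoint.tendsto_coe_infty.comp h3).congr' ?_
    filter_upwards [self_mem_nhdsWithin] with w hw
    exact (instUp_ne P hw).symm
  · have h1 : ContinuousAt (fun w : ℂ => (((instRho P w * ‖w‖)⁻¹ : ℝ) • w : ℂ)) z := by
      have h0 : ContinuousAt (fun w : ℂ => (instRho P w * ‖w‖)⁻¹) z :=
        ContinuousAt.inv₀ ((inst_cont_rho P).continuousAt.mul continuous_norm.continuousAt)
          (mul_ne_zero (inst_rho_pos P hz).ne' (norm_ne_zero_iff.2 hz))
      exact h0.smul continuousAt_id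
    have h2 : ContinuousAt (fun w : ℂ =>
        (((((instRho P w * ‖w‖)⁻¹ : ℝ) • w : ℂ)) : OnePoint ℂ)) z :=
      ContinuousAt.comp (g := ((↑) : ℂ → OnePoint ℂ)) OnePoint.continuous_coe.continuousAt h1
    refine h2.congr ?_
    filter_upwards [isOpen_ne.mem_nhds hz] with w hw
    exact (instUp_ne P hw).symm

private def instSU : Set (OnePoint ℂ) := {z | z = OnePoint.infty ∨ ∃ w : ℂ, 1 ≤ ‖w‖ ∧ z = w}

private def instSV : Set (OnePoint ℂ) := {z | ∃ w : ℂ, ‖w‖ ≤ 1 ∧ z = w}

private theorem inst_closedU : IsClosed instSU := by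
  have h : instSU = (((↑) : ℂ → OnePoint ℂ) '' Metric.ball 0 1)ᶜ := by
    ext x
    rw [mem_compl_iff]
    constructor
    · rintro (rfl | ⟨w, hw, rfl⟩) ⟨v, hv, hvx⟩
      · exact OnePoint.coe_ne_infty v hvx
      · rw [OnePoint.coe_eq_coe] at hvx
        subst hvx
        rw [mem_ball_zero_iff] at hv
        linarith
    · intro hx
      induction x using OnePoint.rec with
      | infty => exact Or.inl rfl
      | coe w =>
        right
        refine ⟨w, ?_, rfl⟩
        by_contra hcon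
        push Not at hcon
        exact hx ⟨w, by rwa [mem_ball_zero_iff], rfl⟩
  rw [h, isClosed_compl_iff]
  exact OnePoint.isOpenMap_coe _ Metric.isOpen_ball

private theorem inst_closedV : IsClosed instSV := by
  have h : instSV = ((↑) : ℂ → OnePoint ℂ) '' Metric.closedBall 0 1 := by
    ext x
    constructor
    · rintro ⟨w, hw, rfl⟩
      exact ⟨w, by rwa [mem_closedBall_zero_iff], rfl⟩
    · rintro ⟨w, hw, rfl⟩
      exact ⟨w, by rwa [mem_closedBall_zero_iff] at hw, rfl⟩
  rw [h]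
  exact ((isCompact_closedBall (0 : ℂ) 1).image OnePoint.continuous_coe).isClosed

private theorem instK_up (z : ℂ) (hz : z ∈ P.Qc) : instK P (instUp P z) = z := by
  by_cases h0 : z = 0
  · rw [h0, instUp_zero, instK_infty]
  · have h1 := inst_rho_pos P h0
    have h2 := norm_pos_iff.2 h0
    have h3 := inst_norm_up P h0
    have h4 : 1 ≤ ‖(((instRho P z * ‖z‖)⁻¹ : ℝ) • z : ℂ)‖ := by
      rw [h3]; exact (one_le_inv₀ h1).2 ((inst_mem_Qc P z).1 hz)
    rw [instUp_ne P h0, instK_coe, instFd_ge h4, h3, smul_smul]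
    have h5 : (((instRho P z)⁻¹) ^ 2)⁻¹ * (instRho P z * ‖z‖)⁻¹ = instRho P z / ‖z‖ := by
      field_simp
    rw [h5]
    exact instMi_M P z

private theorem instUp_K {x : OnePoint ℂ} (hx : x ∈ instSU) : instUp P (instK P x) = x := by
  rcases hx with rfl | ⟨w, hw, rfl⟩
  · rw [instK_infty, instUp_zero]
  · have hw0 : 0 < ‖w‖ := by linarith
    have hwne : w ≠ 0 := norm_pos_iff.1 hw0
    rw [instK_coe]
    have h1 : instFd w = ((‖w‖ ^ 2)⁻¹ : ℝ) • w := instFd_ge hw
    have h2 : ‖instFd w‖ = ‖w‖⁻¹ := inst_norm_Fd_ge hw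
    have h3 : instMi P (instFd w) ≠ 0 := by
      intro h
      have := inst_rho_Mi P (instFd w)
      rw [h, inst_rho_zero, h2] at this
      exact (inv_pos.2 hw0).ne this
    have h4 : 0 < ‖instFd w‖ := by rw [h2]; positivity
    have h5 : 0 < instRho P (instFd w) := inst_rho_pos P (norm_pos_iff.1 h4)
    rw [instUp_ne P h3, inst_rho_Mi, instMi, norm_smul,
      Real.norm_of_nonneg (div_nonneg h4.le h5.le), smul_smul]
    have h6 : (‖instFd w‖ * (‖instFd w‖ / instRho P (instFd w) * ‖instFd w‖))⁻¹ *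
        (‖instFd w‖ / instRho P (instFd w)) = (‖instFd w‖ ^ 2)⁻¹ := by
      field_simp
    rw [h6, h2, h1, smul_smul]
    have h7 : ((‖w‖⁻¹) ^ 2)⁻¹ * (‖w‖ ^ 2)⁻¹ = 1 := by
      field_simp
    rw [h7, one_smul]

private theorem instK_dn (z : ℂ) (hz : z ∈ P.Qc) : instK P (instM P z : OnePoint ℂ) = z := by
  rw [instK_coe, instFd_le (by rw [inst_norm_M]; exact (inst_mem_Qc P z).1 hz), instMi_M]

private theorem inst_dn_K {x : OnePoint ℂ} (hx : x ∈ instSV) :
    (instM P (instK P x) : OnePoint ℂ) = x := by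
  obtain ⟨w, hw, rfl⟩ := hx
  rw [instK_coe, instFd_le hw, instM_Mi]

private theorem inst_rho_K_coe (w : ℂ) : instRho P (instK P (w : OnePoint ℂ)) = ‖instFd w‖ := by
  rw [instK_coe, inst_rho_Mi]

private theorem instK_mem (x : OnePoint ℂ) : instK P x ∈ P.Qc := by
  rw [inst_mem_Qc]
  induction x using OnePoint.rec with
  | infty => rw [instK_infty, inst_rho_zero]; exact zero_le_one
  | coe w => rw [inst_rho_K_coe]; exact inst_norm_Fd w

/-- `ρ (κ x) = 1` only on the circle -/
private theorem inst_circle {x : OnePoint ℂ} (h : instRho P (instK P x) = 1) :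
    ∃ w : ℂ, ‖w‖ = 1 ∧ x = w := by
  induction x using OnePoint.rec with
  | infty => rw [instK_infty, inst_rho_zero] at h; exact absurd h zero_ne_one
  | coe w =>
    refine ⟨w, ?_, rfl⟩
    rw [inst_rho_K_coe] at h
    rcases le_total ‖w‖ 1 with h1 | h1
    · rwa [instFd_le h1] at h
    · rw [inst_norm_Fd_ge h1] at h
      rwa [inv_eq_one] at h

private noncomputable def instD : Dbl P (OnePoint ℂ) where
  κ := instK P
  up := instUp P
  dn := fun z => (instM P z : OnePoint ℂ)
  SU := instSU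
  SV := instSV
  κ_cont := inst_cont_K P
  closedU := inst_closedU
  closedV := inst_closedV
  cover := by
    rw [eq_univ_iff_forall]
    intro x
    induction x using OnePoint.rec with
    | infty => exact Or.inl (Or.inl rfl)
    | coe w =>
      rcases le_total 1 ‖w‖ with h | h
      · exact Or.inl (Or.inr ⟨w, h, rfl⟩)
      · exact Or.inr ⟨w, h, rfl⟩
  κ_mem := instK_mem P
  up_cont := (inst_cont_Up P).continuousOn
  dn_cont := (OnePoint.continuous_coe.comp (inst_cont_M P)).continuousOn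
  up_mem := by
    intro z hz
    by_cases h0 : z = 0
    · rw [h0, instUp_zero]; exact Or.inl rfl
    · rw [instUp_ne P h0]
      refine Or.inr ⟨_, ?_, rfl⟩
      rw [inst_norm_up P h0]
      exact (one_le_inv₀ (inst_rho_pos P h0)).2 ((inst_mem_Qc P z).1 hz)
  dn_mem := by
    intro z hz
    refine ⟨_, ?_, rfl⟩
    rw [inst_norm_M]
    exact (inst_mem_Qc P z).1 hz
  κ_up := instK_up P
  κ_dn := instK_dn P
  up_κ := fun x hx => instUp_K P hx
  dn_κ := fun x hx => inst_dn_K P hx
  glue := by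
    rintro z hz ⟨j, hj⟩
    have h1 := inst_eq_one P hz hj
    have h0 : z ≠ 0 := by
      rintro rfl
      rw [inst_rho_zero] at h1
      exact zero_ne_one h1
    rw [instUp_ne P h0, instM, h1, one_mul, one_div]
  inter := by
    rintro x hxU ⟨w, hw, rfl⟩
    rcases hxU with h | ⟨v, hv, hvw⟩
    · exact absurd h (OnePoint.coe_ne_infty w)
    · rw [OnePoint.coe_eq_coe] at hvw
      subst hvw
      apply inst_exists_zero
      rw [inst_rho_K_coe, instFd_le hw]
      exact le_antisymm hw hv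

private theorem inst_B_pt (i j : ℤ) : B (P.pt j, 1) (P.nrm i) ≤ 0 := by
  by_cases h : i ≡ j [ZMOD (N : ℤ)]
  · rw [P.nrm_congr h, P.B_pt_left]
  · exact P.disj (v := (P.pt j, 1)) one_pos (by rw [P.norm_pt]) (P.B_pt_left j).ge h

private theorem inst_pt_mem (j : ℤ) : P.pt j ∈ P.Qc := ⟨(P.norm_pt j).le, fun i => inst_B_pt P i j⟩

private theorem inst_rho_pt (j : ℤ) : instRho P (P.pt j) = 1 :=
  inst_eq_one P (inst_pt_mem P j) (P.B_pt_left j)

private theorem inst_pt_ne (j : ℤ) : P.pt j ≠ 0 := by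
  rw [← norm_ne_zero_iff, P.norm_pt]; exact one_ne_zero

private theorem instUp_pt (j : ℤ) : instUp P (P.pt j) = (P.pt j : OnePoint ℂ) := by
  rw [instUp_ne P (inst_pt_ne P j), inst_rho_pt, P.norm_pt]
  simp

private theorem instM_pt (j : ℤ) : instM P (P.pt j) = P.pt j := by
  rw [instM, inst_rho_pt, P.norm_pt]
  simp

private theorem instK_pt (j : ℤ) : instK P (P.pt j : OnePoint ℂ) = P.pt j := by
  have := instK_dn P (P.pt j) (inst_pt_mem P j)
  rwa [instM_pt] at this

private theorem inst_vert (x : OnePoint ℂ) :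
    x ∈ (instD P).Vert ↔ ∃ j, x = (P.pt j : OnePoint ℂ) := by
  constructor
  · rintro ⟨j, hj⟩
    change instK P x = P.pt j at hj
    refine ⟨j, ?_⟩
    have hc : x ∈ instSU ∪ instSV := by
      have := (instD P).cover
      change instSU ∪ instSV = univ at this
      rw [this]; exact mem_univ x
    rcases hc with h | h
    · rw [← instUp_K P h, hj, instUp_pt]
    · rw [← inst_dn_K P h, hj, instM_pt]
  · rintro ⟨j, rfl⟩
    exact ⟨j, instK_pt P j⟩

private theorem inst_exp_per (φ : ℝ) (k : ℤ) :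
    Complex.exp (((φ - k * (2 * Real.pi) : ℝ) : ℂ) * Complex.I) =
      Complex.exp ((φ : ℂ) * Complex.I) := by
  rw [Complex.exp_eq_exp_iff_exists_int]
  refine ⟨-k, ?_⟩
  push_cast
  ring

private theorem inst_not_vert {j : ℤ} {φ : ℝ} (h1 : P.θ j < φ) (h2 : φ < P.θ (j + 1)) (i : ℤ) :
    Complex.exp (φ * Complex.I) ≠ P.pt i := by
  intro h
  rw [Poly.pt, Complex.exp_eq_exp_iff_exists_int] at h
  obtain ⟨k, hk⟩ := h
  have h3 : (φ : ℂ) = ((P.θ i + k * (2 * Real.pi) : ℝ) : ℂ) := by
    have h4 : ((φ : ℂ) - ((P.θ i + k * (2 * Real.pi) : ℝ) : ℂ)) * Complex.I = 0 := by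
      push_cast
      linear_combination hk
    rcases mul_eq_zero.1 h4 with h | h
    · exact sub_eq_zero.1 h
    · exact absurd h Complex.I_ne_zero
  have h5 : φ = P.θ (i + k * N) := by
    rw [P.θ_add]
    exact_mod_cast h3
  rw [h5] at h1 h2
  have h6 := P.mono.lt_iff_lt.1 h1
  have h7 := P.mono.lt_iff_lt.1 h2
  omega

private theorem inst_norm_exp (φ : ℝ) : ‖Complex.exp (φ * Complex.I)‖ = 1 :=
  Complex.norm_exp_ofReal_mul_I φ

private theorem inst_gap_mpr {j : ℤ} {φ : ℝ} (h1 : P.θ j < φ) (h2 : φ < P.θ (j + 1)) :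
    B (instK P ((Complex.exp (φ * Complex.I) : ℂ) : OnePoint ℂ), 1) (P.nrm j) = 0 := by
  set e := Complex.exp (φ * Complex.I) with he
  have hn : ‖e‖ = 1 := inst_norm_exp φ
  have h3 : 0 < B (e, 1) (P.nrm j) := P.B_exp_pos h1 h2
  have h4 : 1 ≤ instLin P j e := (instB_ge P j e 1).1 h3.le
  have h5 : instRho P e = instLin P j e := by
    apply le_antisymm _ (inst_lin_le P j e)
    obtain ⟨i, hi⟩ := inst_rho_eq P e
    rw [hi]
    by_cases hij : i ≡ j [ZMOD (N : ℤ)]
    · rw [instLin, instLin, P.nrm_congr hij]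
    · refine (instB_le P i e _).1 (P.disj (v := (e, instLin P j e)) ?_ ?_ ?_ hij)
      · change 0 < instLin P j e
        linarith
      · change ‖e‖ ≤ instLin P j e
        rw [hn]; exact h4
      · exact ((instB_eq P j e _).2 rfl).ge
  rw [instB_eq, instK_coe, instFd_le hn.le, instMi, inst_lin_smul, hn, h5]
  have : instLin P j e ≠ 0 := by linarith
  field_simp

private theorem inst_gap (j : ℤ) (x : OnePoint ℂ) : x ∈ (instD P).Gap j ↔
    ∃ φ : ℝ, P.θ j < φ ∧ φ < P.θ (j + 1) ∧
      x = ((Complex.exp (φ * Complex.I) : ℂ) : OnePoint ℂ) := by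
  constructor
  · rintro ⟨hv, hB⟩
    change B (instK P x, 1) (P.nrm j) = 0 at hB
    rw [inst_vert] at hv
    have h1 := inst_eq_one P (instK_mem P x) hB
    obtain ⟨w, hw, rfl⟩ := inst_circle P h1
    have hwe : Complex.exp (Complex.arg w * Complex.I) = w := by
      have := Complex.norm_mul_exp_arg_mul_I w
      rwa [hw, Complex.ofReal_one, one_mul] at this
    have hw0 : w ≠ 0 := by rw [← norm_ne_zero_iff, hw]; exact one_ne_zero
    have hρ := inst_rho_pos P hw0
    have h2 : instK P (w : OnePoint ℂ) =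
        (((instRho P w)⁻¹ : ℝ) : ℂ) * Complex.exp (Complex.arg w * Complex.I) := by
      rw [hwe, instK_coe, instFd_le hw.le, instMi, hw, one_div, Complex.real_smul]
    have h3 : (instRho P w)⁻¹ ≤ 1 := inv_le_one_of_one_le₀ (by rw [← hw]; exact inst_norm_le P w)
    obtain ⟨k, h4, h5⟩ := P.sector (j := j) (r := (instRho P w)⁻¹) (φ := Complex.arg w) (t := 1)
      one_pos (by positivity) h3 (by rw [← h2, hB])
    have e1 : P.θ (j + k * N) = P.θ j + k * (2 * Real.pi) := P.θ_add j k
    have e2 : P.θ (j + k * N + 1) = P.θ (j + 1) + k * (2 * Real.pi) := by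
      rw [show j + k * (N : ℤ) + 1 = (j + 1) + k * N by ring, P.θ_add]
    have e3 : Complex.exp (((Complex.arg w - k * (2 * Real.pi) : ℝ) : ℂ) * Complex.I) = w := by
      rw [inst_exp_per, hwe]
    refine ⟨Complex.arg w - k * (2 * Real.pi), ?_, ?_, by rw [e3]⟩
    · refine lt_of_le_of_ne (by linarith) ?_
      intro h
      apply hv
      refine ⟨j, ?_⟩
      rw [← e3, ← h, Poly.pt]
    · refine lt_of_le_of_ne (by linarith) ?_
      intro h
      apply hv
      refine ⟨j + 1, ?_⟩
      rw [← e3, h, Poly.pt]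
  · rintro ⟨φ, h1, h2, rfl⟩
    refine ⟨?_, inst_gap_mpr P h1 h2⟩
    rw [inst_vert]
    rintro ⟨i, hi⟩
    rw [OnePoint.coe_eq_coe] at hi
    exact inst_not_vert P h1 h2 i hi

end Aux

/-- the sphere (outside of the unit disc, and the unit disc) is the double of the polygon -/
theorem exists_dbl : ∃ D : Dbl P (OnePoint ℂ), D.up 0 = OnePoint.infty ∧
    (D.SU = {z : OnePoint ℂ | z = OnePoint.infty ∨ ∃ w : ℂ, 1 ≤ ‖w‖ ∧ z = w}) ∧
    (D.SV = {z : OnePoint ℂ | ∃ w : ℂ, ‖w‖ ≤ 1 ∧ z = w}) ∧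
    (∀ j, D.up (P.pt j) = (P.pt j : OnePoint ℂ)) ∧
    (∀ x, x ∈ D.Vert ↔ ∃ j, x = (P.pt j : OnePoint ℂ)) ∧
    (∀ j x, x ∈ D.Gap j ↔ ∃ φ : ℝ, P.θ j < φ ∧ φ < P.θ (j + 1) ∧
      x = ((Complex.exp (φ * Complex.I) : ℂ) : OnePoint ℂ)) :=
  ⟨instD P, instUp_zero P, rfl, rfl, instUp_pt P, inst_vert P, inst_gap P⟩

/-- the sphere as a double -/
noncomputable def dbl : Dbl P (OnePoint ℂ) := (exists_dbl P).choose

theorem dbl_up_zero : (dbl P).up 0 = OnePoint.infty := (exists_dbl P).choose_spec.1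

theorem dbl_SU : (dbl P).SU = {z : OnePoint ℂ | z = OnePoint.infty ∨ ∃ w : ℂ, 1 ≤ ‖w‖ ∧ z = w} :=
  (exists_dbl P).choose_spec.2.1

theorem dbl_SV : (dbl P).SV = {z : OnePoint ℂ | ∃ w : ℂ, ‖w‖ ≤ 1 ∧ z = w} :=
  (exists_dbl P).choose_spec.2.2.1

theorem dbl_up_pt (j : ℤ) : (dbl P).up (P.pt j) = (P.pt j : OnePoint ℂ) :=
  (exists_dbl P).choose_spec.2.2.2.1 j

theorem dbl_vert {x : OnePoint ℂ} : x ∈ (dbl P).Vert ↔ ∃ j, x = (P.pt j : OnePoint ℂ) :=
  (exists_dbl P).choose_spec.2.2.2.2.1 x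

theorem dbl_gap {j : ℤ} {x : OnePoint ℂ} : x ∈ (dbl P).Gap j ↔
    ∃ φ : ℝ, P.θ j < φ ∧ φ < P.θ (j + 1) ∧ x = ((Complex.exp (φ * Complex.I) : ℂ) : OnePoint ℂ) :=
  (exists_dbl P).choose_spec.2.2.2.2.2 j x

end Pool.Agent.RAYT
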