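import Pool.Agent.RAYT.Pong

/-!
RAYT/Horo: horoballs in the Klein model.

PROOFS.  `convex_Hb`: `z ↦ 1 - Re (z conj E)` is affine, `z ↦ sqrt (1 - ‖z‖²)` is concave on the
ball (`1 - ‖z‖²` is concave and `sqrt` is concave and monotone).  `Horo.tendsto`:
`‖z - E‖² ≤ 2 (1 - Re (z conj E)) < 2 δ`.
`corner`: write `z = pt j (1 - a + i b)`, `a = 1 - Re (z conj (pt j)) ≥ 0`.
`B (z,1) (nrm j) = Re ((z - pt j) conj (e^{i mid j}))` (as `B (pt j, 1) (nrm j) = 0`)
`= Re ((- a + i b) e^{- i hw j}) = - a cos (hw j) + b sin (hw j) ≤ 0`, similarly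
`B (z,1) (nrm (j-1)) = - a cos (hw (j-1)) - b sin (hw (j-1)) ≤ 0`; so `|b| ≤ C a` with
`C = max (cot (hw j)) (cot (hw (j-1)))`.  `1 - ‖z‖² = 2 a - a² - b² ≥ a` if `a (1 + C²) ≤ 1`.
`horo_far`: for a class `l ≢ j, j - 1` the continuous function
`F_l z = - B (z,1) (rf l (pt j, 1)) = (1 - Re (z conj (pt j))) + 2 B(pt j,n_l) B(z,n_l) /
B(n_l,n_l)`
is positive on the compact set `Qc`: both summands are `≥ 0` (`B (pt j,1) (nrm l) < 0` by
`B_pt_neg`),
and if the first vanishes then `z = pt j`, where the second is positive.  `δ` = the minimum of all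
`F_l` (finitely many classes).  For a list `L` let `M` be a list of minimal length with
`word M (pt j,1) = word L (pt j,1)`.  If `M = []` we are in the first case.  Otherwise `M` is
reduced (otherwise it could be shortened, `rf a (rf b v) = v` for `a ≡ b`), its last letter is
`≢ j, j - 1` (`rf` of these fixes `(pt j,1)`).  Induction over the suffixes `M'` of `M` (nonempty):
`e' = word M' (pt j,1)` satisfies `B e' (nrm first) > 0` (`pong_lt`) and
`δ ≤ - B (z,1) e'` for `z ∈ Qc`: for one letter by the choice of `δ`; and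
`- B (z,1) (rf a e') = - B (z,1) e' + 2 B(e',n_a) B(z,n_a) / B(n_a,n_a) ≥ - B (z,1) e'` because
`B e' (nrm a) ≤ 0` (`disj`) and `B (z,1) (nrm a) ≤ 0`.
-/

set_option autoImplicit false

namespace Pool.Agent.RAYT

open Complex Set Topology Filter unitInterval

/-- the horoball (in the Klein model) at the point `E` of the circle -/
def Hb (E : ℂ) (δ : ℝ) : Set ℂ :=
  {z | ‖z‖ < 1 ∧ 1 - (z * (starRingEnd ℂ) E).re < δ * Real.sqrt (1 - ‖z‖ ^ 2)}

/-- `g` enters every horoball at the point `E` of the circle -/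
def Horo (E : ℂ) (g : ℝ → ℂ) : Prop := ∀ δ > 0, ∀ᶠ t in atTop, g t ∈ Hb E δ

theorem convex_Hb (E : ℂ) {δ : ℝ} (hδ : 0 < δ) : Convex ℝ (Hb E δ) := by
  rintro z ⟨hz1, hz2⟩ w ⟨hw1, hw2⟩ a b ha hb hab
  have hn : ∀ u : ℂ, ‖u‖ ^ 2 = u.re ^ 2 + u.im ^ 2 := by
    intro u
    rw [← Complex.normSq_eq_norm_sq, Complex.normSq_apply]; ring
  have hb1 : b = 1 - a := by linarith
  have hre : (a • z + b • w).re = a * z.re + b * w.re := by simp
  have him : (a • z + b • w).im = a * z.im + b * w.im := by simp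
  have hconv : ‖a • z + b • w‖ ^ 2 ≤ a * ‖z‖ ^ 2 + b * ‖w‖ ^ 2 := by
    rw [hn, hn, hn, hre, him]
    have h1 : 0 ≤ a * b * ((z.re - w.re) ^ 2 + (z.im - w.im) ^ 2) := by positivity
    subst hb1
    nlinarith
  have hz3 : 0 < 1 - ‖z‖ ^ 2 := by nlinarith [norm_nonneg z]
  have hw3 : 0 < 1 - ‖w‖ ^ 2 := by nlinarith [norm_nonneg w]
  have hlt : ‖a • z + b • w‖ ^ 2 < 1 := by
    rcases lt_or_eq_of_le ha with h | h
    · nlinarith [mul_pos h hz3, mul_nonneg hb hw3.le]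
    · have hb2 : b = 1 := by linarith
      rw [← h, hb2] at hconv ⊢
      linarith
  refine ⟨?_, ?_⟩
  · nlinarith [norm_nonneg (a • z + b • w)]
  · have hs := Real.sq_sqrt hz3.le
    have ht := Real.sq_sqrt hw3.le
    set s := Real.sqrt (1 - ‖z‖ ^ 2) with hsd
    set t := Real.sqrt (1 - ‖w‖ ^ 2) with htd
    have hst : a * s + b * t ≤ Real.sqrt (1 - ‖a • z + b • w‖ ^ 2) := by
      refine Real.le_sqrt_of_sq_le ?_
      have h1 : 0 ≤ a * b * (s - t) ^ 2 := by positivity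
      have h2 : (a * s + b * t) ^ 2 ≤ a * s ^ 2 + b * t ^ 2 := by
        subst hb1
        nlinarith
      rw [hs, ht] at h2
      linarith
    have h3 : 1 - ((a • z + b • w) * (starRingEnd ℂ) E).re =
        a * (1 - (z * (starRingEnd ℂ) E).re) + b * (1 - (w * (starRingEnd ℂ) E).re) := by
      simp only [mul_re, hre, him, conj_re, conj_im]
      subst hb1
      ring
    rw [h3]
    have h4 : a * (1 - (z * (starRingEnd ℂ) E).re) + b * (1 - (w * (starRingEnd ℂ) E).re) <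
        δ * (a * s + b * t) := by
      rcases lt_or_eq_of_le ha with h | h
      · nlinarith [mul_lt_mul_of_pos_left hz2 h, mul_le_mul_of_nonneg_left hw2.le hb]
      · have hb2 : b = 1 := by linarith
        rw [← h, hb2]
        linarith
    exact h4.trans_le (mul_le_mul_of_nonneg_left hst hδ.le)

private lemma horo_norm_sq_sub {z E : ℂ} (hE : ‖E‖ = 1) :
    ‖z - E‖ ^ 2 = ‖z‖ ^ 2 - 2 * (z * (starRingEnd ℂ) E).re + 1 := by
  have hn : ∀ u : ℂ, ‖u‖ ^ 2 = u.re ^ 2 + u.im ^ 2 := by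
    intro u
    rw [← Complex.normSq_eq_norm_sq, Complex.normSq_apply]; ring
  have h1 : E.re ^ 2 + E.im ^ 2 = 1 := by rw [← hn, hE]; norm_num
  rw [hn, hn, mul_re, conj_re, conj_im, sub_re, sub_im]
  linear_combination h1

theorem Horo.tendsto {E : ℂ} (hE : ‖E‖ = 1) {g : ℝ → ℂ} (h : Horo E g) :
    Tendsto g atTop (𝓝 E) := by
  rw [Metric.tendsto_nhds]
  intro ε hε
  filter_upwards [h (ε ^ 2 / 2) (by positivity)] with t ht
  obtain ⟨h1, h2⟩ := ht
  rw [dist_eq_norm]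
  have h3 := horo_norm_sq_sub (z := g t) hE
  have h4 : Real.sqrt (1 - ‖g t‖ ^ 2) ≤ 1 := by
    refine Real.sqrt_le_iff.2 ⟨zero_le_one, ?_⟩
    nlinarith [sq_nonneg ‖g t‖]
  have h5 : ε ^ 2 / 2 * Real.sqrt (1 - ‖g t‖ ^ 2) ≤ ε ^ 2 / 2 :=
    mul_le_of_le_one_right (by positivity) h4
  have h6 : ‖g t - E‖ ^ 2 < ε ^ 2 := by nlinarith [norm_nonneg (g t)]
  exact lt_of_pow_lt_pow_left₀ 2 hε.le h6

namespace Poly

variable {N : ℕ} (P : Poly N)

/-- the polygon has corners at the vertices -/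
theorem corner (j : ℤ) : ∃ ε > 0, ∀ z ∈ P.Qc, ‖z - P.pt j‖ < ε →
    1 - (z * (starRingEnd ℂ) (P.pt j)).re ≤ 1 - ‖z‖ ^ 2 := by
  have hn : ∀ u : ℂ, ‖u‖ ^ 2 = u.re ^ 2 + u.im ^ 2 := by
    intro u
    rw [← Complex.normSq_eq_norm_sq, Complex.normSq_apply]; ring
  have hs : ∀ i, 0 < Real.sin (P.hw i) := fun i =>
    Real.sin_pos_of_pos_of_lt_pi (P.hw_pos i) (by have := P.hw_lt i; have := Real.pi_pos; linarith)
  set h := P.hw j with hh
  set h' := P.hw (j - 1) with hh'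
  set C := max (Real.cos h / Real.sin h) (Real.cos h' / Real.sin h') with hC
  refine ⟨1 / (1 + C ^ 2), by positivity, fun z hz hzε => ?_⟩
  set w := z * (starRingEnd ℂ) (P.pt j) with hw
  have hptn := P.norm_pt j
  have hpp : (starRingEnd ℂ) (P.pt j) * P.pt j = 1 := by
    rw [mul_comm, Complex.mul_conj, Complex.normSq_eq_norm_sq, hptn]; norm_num
  have hzw : z = w * P.pt j := by rw [hw, mul_assoc, hpp, mul_one]
  have hnorm : ‖z‖ = ‖w‖ := by rw [hw, norm_mul, Complex.norm_conj, hptn, mul_one]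
  have hptre : (P.pt j).re = Real.cos (P.θ j) := by rw [pt, Complex.exp_ofReal_mul_I_re]
  have hptim : (P.pt j).im = Real.sin (P.θ j) := by rw [pt, Complex.exp_ofReal_mul_I_im]
  have hzre : z.re = w.re * Real.cos (P.θ j) - w.im * Real.sin (P.θ j) := by
    conv_lhs => rw [hzw]
    rw [mul_re, hptre, hptim]
  have hzim : z.im = w.re * Real.sin (P.θ j) + w.im * Real.cos (P.θ j) := by
    conv_lhs => rw [hzw]
    rw [mul_im, hptre, hptim]
  have hB : ∀ i, B (z, 1) (P.nrm i) = w.re * Real.cos (P.θ j - P.mid i) -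
      w.im * Real.sin (P.θ j - P.mid i) - Real.cos (P.hw i) := by
    intro i
    rw [Real.cos_sub, Real.sin_sub]
    simp only [B, nrm, Complex.exp_ofReal_mul_I_re, Complex.exp_ofReal_mul_I_im]
    rw [hzre, hzim]
    ring
  have h1 := hz.2 j
  have h2 := hz.2 (j - 1)
  have e1 : P.θ j - P.mid j = -h := by rw [hh, mid, Poly.hw]; ring
  have e2 : P.θ j - P.mid (j - 1) = h' := by
    rw [hh', mid, Poly.hw, sub_add_cancel]; ring
  rw [hB, e1, Real.cos_neg, Real.sin_neg, ← hh] at h1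
  rw [hB, e2, ← hh'] at h2
  set a := 1 - w.re with ha
  have hwre : w.re = 1 - a := by rw [ha]; ring
  have ha0 : 0 ≤ a := by
    have h3 : w.re ≤ ‖w‖ := Complex.re_le_norm w
    have h4 : ‖w‖ ≤ 1 := hnorm ▸ hz.1
    linarith
  have haε : a < 1 / (1 + C ^ 2) := by
    refine lt_of_le_of_lt ?_ hzε
    have h3 : ‖z - P.pt j‖ = ‖1 - w‖ := by
      have : z - P.pt j = -(1 - w) * P.pt j := by
        conv_lhs => rw [hzw]
        ring
      rw [this, norm_mul, hptn, mul_one, norm_neg]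
    rw [h3]
    have h4 : (1 - w).re = a := by simp [ha]
    rw [← h4]
    exact Complex.re_le_norm _
  have hC1 : w.im ≤ C * a := by
    have h3 : w.im * Real.sin h ≤ a * Real.cos h := by
      rw [hwre] at h1
      linarith
    have h4 : w.im ≤ a * Real.cos h / Real.sin h := by
      rw [le_div_iff₀ (hs j)]
      exact h3
    have h5 : a * Real.cos h / Real.sin h = (Real.cos h / Real.sin h) * a := by ring
    rw [h5] at h4
    exact h4.trans (mul_le_mul_of_nonneg_right (le_max_left _ _) ha0)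
  have hC2 : -w.im ≤ C * a := by
    have h3 : -w.im * Real.sin h' ≤ a * Real.cos h' := by
      rw [hwre] at h2
      linarith
    have h4 : -w.im ≤ a * Real.cos h' / Real.sin h' := by
      rw [le_div_iff₀ (hs (j - 1))]
      exact h3
    have h5 : a * Real.cos h' / Real.sin h' = (Real.cos h' / Real.sin h') * a := by ring
    rw [h5] at h4
    exact h4.trans (mul_le_mul_of_nonneg_right (le_max_right _ _) ha0)
  have h6 : w.im ^ 2 ≤ (C * a) ^ 2 := by
    rw [← sq_abs w.im]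
    refine pow_le_pow_left₀ (abs_nonneg _) ?_ 2
    rw [abs_le]
    constructor <;> linarith
  have h7 : a * (1 + C ^ 2) ≤ 1 := by
    rw [lt_div_iff₀ (by positivity)] at haε
    exact haε.le
  rw [hnorm, hn, hwre]
  nlinarith [mul_le_mul_of_nonneg_left h7 ha0]

private lemma horo_B_rf (l : ℤ) (z : ℂ) (v : V3) : - B (z, 1) (P.rf l v) =
    - B (z, 1) v + 2 * B v (P.nrm l) * B (z, 1) (P.nrm l) / B (P.nrm l) (P.nrm l) := by
  rw [rf, refl_apply, B_comm (z, 1), B_sub_left, B_smul_left, B_comm v (z, 1),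
    B_comm (P.nrm l) (z, 1)]
  ring

private lemma horo_compact : IsCompact P.Qc := by
  rw [Metric.isCompact_iff_isClosed_bounded]
  constructor
  · have h1 : P.Qc = {z : ℂ | ‖z‖ ≤ 1} ∩ ⋂ j, {z : ℂ | B (z, 1) (P.nrm j) ≤ 0} := by
      ext z
      simp [Qc]
    rw [h1]
    refine (isClosed_le continuous_norm continuous_const).inter (isClosed_iInter fun j => ?_)
    refine isClosed_le ?_ continuous_const
    exact (continuous_B_left (P.nrm j)).comp (continuous_id.prodMk continuous_const)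
  · refine (Metric.isBounded_closedBall (x := (0 : ℂ)) (r := 1)).subset fun z hz => ?_
    rw [mem_closedBall_zero_iff]
    exact hz.1

private lemma horo_one (j l : ℤ) (h1 : ¬ l ≡ j [ZMOD (N : ℤ)]) (h2 : ¬ l ≡ j - 1 [ZMOD (N : ℤ)]) :
    ∃ δ > 0, ∀ z ∈ P.Qc, δ ≤ - B (z, 1) (P.rf l (P.pt j, 1)) := by
  have hne : (P.Qc).Nonempty := ⟨0, by
    have := P.zero_mem_Qv
    exact ⟨by simp, this.2⟩⟩
  have hcont : Continuous fun z : ℂ => - B (z, 1) (P.rf l (P.pt j, 1)) :=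
    ((continuous_B_left _).comp (continuous_id.prodMk continuous_const)).neg
  obtain ⟨z₀, hz₀, hmin⟩ := P.horo_compact.exists_isMinOn hne hcont.continuousOn
  refine ⟨- B (z₀, 1) (P.rf l (P.pt j, 1)), ?_, fun z hz => hmin hz⟩
  rw [P.horo_B_rf, gt_iff_lt]
  have hb := P.B_pt_neg h1 h2
  have hz := hz₀.2 l
  have hnn := P.B_nrm_nrm_pos l
  have hpt := P.norm_pt j
  have h3 : - B (z₀, 1) (P.pt j, 1) = 1 - (z₀ * (starRingEnd ℂ) (P.pt j)).re := by
    simp only [B, mul_re, conj_re, conj_im]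
    ring
  have h4 := horo_norm_sq_sub (z := z₀) hpt
  have h5 : ‖z₀‖ ^ 2 ≤ 1 := by
    have := hz₀.1
    nlinarith [norm_nonneg z₀]
  have h6 : 0 ≤ - B (z₀, 1) (P.pt j, 1) := by
    rw [h3]
    nlinarith [sq_nonneg ‖z₀ - P.pt j‖]
  have h7 : 0 ≤ 2 * B (P.pt j, 1) (P.nrm l) * B (z₀, 1) (P.nrm l) / B (P.nrm l) (P.nrm l) := by
    refine div_nonneg ?_ hnn.le
    nlinarith [mul_nonneg_of_nonpos_of_nonpos hb.le hz]
  rcases h6.lt_or_eq with h8 | h8
  · linarith
  · have h9 : ‖z₀ - P.pt j‖ ^ 2 = 0 := by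
      refine le_antisymm ?_ (sq_nonneg _)
      rw [h3] at h8
      linarith
    have h10 : z₀ = P.pt j := by
      have := pow_eq_zero_iff (two_ne_zero) |>.1 h9
      exact sub_eq_zero.1 (norm_eq_zero.1 this)
    rw [← h8, zero_add, h10]
    exact div_pos (by nlinarith) hnn

private lemma horo_good {j : ℤ} {M : List ℤ}
    (hg : ∀ b ∈ M.getLast?, ¬ b ≡ j [ZMOD (N : ℤ)] ∧ ¬ b ≡ j - 1 [ZMOD (N : ℤ)]) :
    ∀ b ∈ M.getLast?, B (P.pt j, 1) (P.nrm b) < 0 := fun b hb =>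
  P.B_pt_neg (hg b hb).1 (hg b hb).2

private lemma horo_reduce (j : ℤ) (M : List ℤ) : Red N M →
    P.word M (P.pt j, 1) = (P.pt j, 1) ∨ ∃ M' : List ℤ, Red N M' ∧ M' ≠ [] ∧
      (∀ b ∈ M'.getLast?, ¬ b ≡ j [ZMOD (N : ℤ)] ∧ ¬ b ≡ j - 1 [ZMOD (N : ℤ)]) ∧
      P.word M' (P.pt j, 1) = P.word M (P.pt j, 1) := by
  induction M using List.reverseRecOn with
  | nil => intro _; left; rfl
  | append_singleton M l ih =>
    intro hM
    by_cases hl : ¬ l ≡ j [ZMOD (N : ℤ)] ∧ ¬ l ≡ j - 1 [ZMOD (N : ℤ)]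
    · right
      refine ⟨M ++ [l], hM, by simp, fun b hb => ?_, rfl⟩
      rw [List.getLast?_concat, Option.mem_some_iff] at hb
      rw [← hb]
      exact hl
    · have hfix : P.word [l] (P.pt j, 1) = (P.pt j, 1) := by
        rw [word_cons, word_nil, rf]
        refine refl_fix ?_
        rw [not_and_or, not_not, not_not] at hl
        rcases hl with hl | hl
        · rw [P.nrm_congr hl]
          exact P.B_pt_left j
        · rw [P.nrm_congr hl]
          have := P.B_pt_right (j - 1)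
          rwa [sub_add_cancel] at this
      rw [P.word_append, hfix]
      exact ih (List.IsChain.left_of_append hM)

private lemma horo_induct {j : ℤ} {δ : ℝ}
    (hδ : ∀ l : ℤ, ¬ l ≡ j [ZMOD (N : ℤ)] → ¬ l ≡ j - 1 [ZMOD (N : ℤ)] →
      ∀ z ∈ P.Qc, δ ≤ - B (z, 1) (P.rf l (P.pt j, 1))) (M : List ℤ) : Red N M → M ≠ [] →
      (∀ b ∈ M.getLast?, ¬ b ≡ j [ZMOD (N : ℤ)] ∧ ¬ b ≡ j - 1 [ZMOD (N : ℤ)]) →
      ∀ z ∈ P.Qc, δ ≤ - B (z, 1) (P.word M (P.pt j, 1)) := by
  have hv0 : (0 : ℝ) < ((P.pt j, 1) : V3).2 := one_pos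
  have hv1 : ‖((P.pt j, 1) : V3).1‖ ≤ ((P.pt j, 1) : V3).2 := (P.norm_pt j).le
  induction M with
  | nil => intro _ h; exact absurd rfl h
  | cons a M ih =>
    intro hM _ hg z hz
    cases M with
    | nil =>
      have h1 := hg a (by simp)
      exact hδ a h1.1 h1.2 z hz
    | cons b M =>
      have hM' : Red N (b :: M) := List.IsChain.tail hM
      have hab : ¬ a ≡ b [ZMOD (N : ℤ)] := (List.isChain_cons_cons.1 hM).1
      have hg' : ∀ c ∈ (b :: M).getLast?, ¬ c ≡ j [ZMOD (N : ℤ)] ∧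
          ¬ c ≡ j - 1 [ZMOD (N : ℤ)] := by
        intro c hc
        exact hg c (by rwa [List.getLast?_cons_cons])
      have h1 := ih hM' (by simp) hg' z hz
      have h2 := P.pong_lt hM' hv0 hv1 (P.horo_good hg')
      have h3 := P.cone_word (b :: M) hv0 hv1
      have h4 := P.disj_lt' h3.1 h3.2 h2 hab
      rw [P.word_cons, P.horo_B_rf]
      have h5 : 0 ≤ 2 * B (P.word (b :: M) (P.pt j, 1)) (P.nrm a) * B (z, 1) (P.nrm a) /
          B (P.nrm a) (P.nrm a) := by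
        refine div_nonneg ?_ (P.B_nrm_nrm_pos a).le
        nlinarith [mul_nonneg_of_nonpos_of_nonpos h4.le (hz.2 a)]
      linarith

/-- the horoballs at the translates of the vertex `j`, except the one at the vertex itself, are
far from the polygon -/
theorem horo_far (j : ℤ) : ∃ δ > 0, ∀ L : List ℤ, P.word L (P.pt j, 1) = (P.pt j, 1) ∨
    ∀ z ∈ P.Qc, δ ≤ - B (z, 1) (P.word L (P.pt j, 1)) := by
  classical
  have hN : 0 < N := by
    by_contra hcon
    have h0 : N = 0 := by omega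
    have h1 := P.θ_add j 1
    have h2 := Real.pi_pos
    have h3 : j + 1 * (N : ℤ) = j := by omega
    rw [h3, Int.cast_one, one_mul] at h1
    linarith
  have hex : ∀ l : ℕ, ∃ δ > 0, (¬ (l : ℤ) ≡ j [ZMOD (N : ℤ)] → ¬ (l : ℤ) ≡ j - 1 [ZMOD (N : ℤ)] →
      ∀ z ∈ P.Qc, δ ≤ - B (z, 1) (P.rf l (P.pt j, 1))) := by
    intro l
    by_cases h : ¬ (l : ℤ) ≡ j [ZMOD (N : ℤ)] ∧ ¬ (l : ℤ) ≡ j - 1 [ZMOD (N : ℤ)]
    · obtain ⟨δ, hδ, h1⟩ := P.horo_one j l h.1 h.2
      exact ⟨δ, hδ, fun _ _ => h1⟩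
    · exact ⟨1, one_pos, fun h1 h2 => absurd ⟨h1, h2⟩ h⟩
  choose d hd hd2 using hex
  obtain ⟨m, -, hm⟩ := Finset.exists_min_image (Finset.range N) d ⟨0, Finset.mem_range.2 hN⟩
  refine ⟨d m, hd m, fun L => ?_⟩
  have hδ : ∀ l : ℤ, ¬ l ≡ j [ZMOD (N : ℤ)] → ¬ l ≡ j - 1 [ZMOD (N : ℤ)] →
      ∀ z ∈ P.Qc, d m ≤ - B (z, 1) (P.rf l (P.pt j, 1)) := by
    intro l h1 h2 z hz
    have hN' : (0 : ℤ) < N := by exact_mod_cast hN
    have hnn := Int.emod_nonneg l hN'.ne'
    have hlt := Int.emod_lt_of_pos l hN'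
    have hcast : (((l % N).toNat : ℕ) : ℤ) = l % N := Int.toNat_of_nonneg hnn
    have hmod : (((l % N).toNat : ℕ) : ℤ) ≡ l [ZMOD (N : ℤ)] := by
      rw [hcast]
      exact Int.mod_modEq l N
    have h3 := hd2 (l % N).toNat (fun h => h1 (hmod.symm.trans h)) (fun h => h2 (hmod.symm.trans h))
      z hz
    rw [P.rf_congr hmod] at h3
    exact (hm _ (Finset.mem_range.2 (by omega))).trans h3
  obtain ⟨L', hL', hw, -⟩ := P.exists_red L
  rcases P.horo_reduce j L' hL' with h | ⟨M, hM, hne, hg, hMw⟩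
  · left
    rw [← hw]
    exact h
  · right
    rw [← hw, ← hMw]
    exact P.horo_induct hδ M hM hne hg

end Poly

end Pool.Agent.RAYT
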