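import Pool.Agent.RAYT.Ray
import Pool.Agent.RAYT.Horo

/-!
RAYT/HoroPr: horoballs and the covering map.  A lift of a path which tends to a vertex enters every
horoball at its end point, and small horoballs are mapped by `pr` into small neighbourhoods of the
vertex.

PROOFS.  `exists_nhd`: `up` and `dn` are continuous on `Qc` at `pt j`, `up (pt j) = dn (pt j)`
(`glue`, `B_pt_left`), and `x = up (κ x)` or `x = dn (κ x)`.
`horo_pr`: let `e = word L (pt j,1) = τ • (E,1)`, `τ > 0`, `z ∈ Hb E δ`, `(M, x)` a cell of `z`: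
`word M (κ x,1) = s • (z,1)`, `s > 0`.  With `e' = word (M.reverse ++ L) (pt j,1)`:
`- B (κ x,1) e' = s τ (1 - Re (z conj E)) < s τ δ sqrt (1 - ‖z‖²) = τ δ sqrt (1 - ‖κ x‖²) ≤ τ δ`
(`B_word`, `s² (1 - ‖z‖²) = 1 - ‖κ x‖²`).  For `τ δ ≤ δ₀` (`horo_far`) we get `e' = (pt j, 1)`, so
`1 - Re (κ x conj (pt j)) < τ δ`, and `‖κ x - pt j‖² ≤ 2 τ δ`; `exists_nhd`, `pr_eq`.
`lift_horo`: by `exists_tendsto` `E = act L (pt j)` and for large `t`
`evec j (g t) = e = word L (pt j,1)`, `γ t ∈ Near j`; take a cell `(M, x)` of `g t`, `x = γ t`,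
`word M (pt j,1) = e` (`evec_eq`).  With `s, τ` as before
`s τ (1 - Re (g t conj E)) = 1 - Re (κ x conj (pt j)) =: a` and
`s sqrt (1 - ‖g t‖²) = sqrt (1 - ‖κ x‖²) ≥ sqrt a` by `corner`; so
`1 - Re (g t conj E) ≤ (sqrt a / τ) sqrt (1 - ‖g t‖²)`, `a → 0` (strict inequality: the square
root is positive).
-/

set_option autoImplicit false

namespace Pool.Agent.RAYT

open Complex Set Topology Filter unitInterval

private theorem horoPr_B_one (z w : ℂ) :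
    B (z, 1) (w, 1) = (z * (starRingEnd ℂ) w).re - 1 := by
  simp only [B, mul_re, conj_re, conj_im]
  ring

private theorem horoPr_B_smul (s τ : ℝ) (v w : V3) : B (s • v) (τ • w) = s * τ * B v w := by
  rw [B_smul_left, B_comm v, B_smul_left, B_comm w v]
  ring

private theorem horoPr_norm_sq {z w : ℂ} (hz : ‖z‖ ≤ 1) (hw : ‖w‖ = 1) :
    ‖z - w‖ ^ 2 ≤ 2 * (1 - (z * (starRingEnd ℂ) w).re) := by
  have h1 : ‖z - w‖ ^ 2 = ‖z‖ ^ 2 + ‖w‖ ^ 2 - 2 * (z * (starRingEnd ℂ) w).re := by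
    rw [← Complex.normSq_eq_norm_sq, ← Complex.normSq_eq_norm_sq, ← Complex.normSq_eq_norm_sq,
      Complex.normSq_apply, Complex.normSq_apply, Complex.normSq_apply]
    simp only [sub_re, sub_im, mul_re, conj_re, conj_im]
    ring
  rw [h1, hw]
  nlinarith [norm_nonneg z]

private theorem horoPr_re_le {z w : ℂ} (hz : ‖z‖ ≤ 1) (hw : ‖w‖ = 1) :
    (z * (starRingEnd ℂ) w).re ≤ 1 := by
  calc (z * (starRingEnd ℂ) w).re ≤ ‖z * (starRingEnd ℂ) w‖ := re_le_norm _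
    _ = ‖z‖ := by rw [norm_mul, Complex.norm_conj, hw, mul_one]
    _ ≤ 1 := hz

private theorem horoPr_form {N : ℕ} (P : Poly N) (M : List ℤ) {x : ℂ} (hx : ‖x‖ ≤ 1) :
    ∃ s : ℝ, 0 < s ∧ P.word M (x, 1) = s • ((P.act M x, 1) : V3) := by
  have h := (P.cone_word M (v := (x, 1)) one_pos hx).1
  exact ⟨_, h, eq_smul_proj h.ne'⟩

private theorem horoPr_sq {N : ℕ} (P : Poly N) {M : List ℤ} {x : ℂ} {s : ℝ}
    (h : P.word M (x, 1) = s • ((P.act M x, 1) : V3)) :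
    s ^ 2 * (1 - ‖P.act M x‖ ^ 2) = 1 - ‖x‖ ^ 2 := by
  have h1 := P.B_word M (x, 1) (x, 1)
  rw [h, horoPr_B_smul, B_self, B_self] at h1
  simp only at h1
  nlinarith

private theorem horoPr_sqrt {N : ℕ} (P : Poly N) {M : List ℤ} {x : ℂ} {s : ℝ} (hs : 0 < s)
    (h : P.word M (x, 1) = s • ((P.act M x, 1) : V3)) :
    s * Real.sqrt (1 - ‖P.act M x‖ ^ 2) = Real.sqrt (1 - ‖x‖ ^ 2) := by
  rw [← horoPr_sq P h, Real.sqrt_mul (by positivity), Real.sqrt_sq hs.le]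

private theorem horoPr_pt_mem {N : ℕ} (P : Poly N) (j : ℤ) : P.pt j ∈ P.Qc := by
  refine ⟨(P.norm_pt j).le, fun i => ?_⟩
  by_cases h1 : i ≡ j [ZMOD (N : ℤ)]
  · rw [P.nrm_congr h1, P.B_pt_left]
  · by_cases h2 : i ≡ j - 1 [ZMOD (N : ℤ)]
    · rw [P.nrm_congr h2]
      have := P.B_pt_right (j - 1)
      rw [sub_add_cancel] at this
      exact this.le
    · exact (P.B_pt_neg h1 h2).le

namespace Dbl

variable {N : ℕ} {P : Poly N} {S : Type*} [TopologicalSpace S] (D : Dbl P S)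

/-- points of the polygon near the vertex give points of `S` near the vertex -/
theorem exists_nhd {j : ℤ} {V : Set S} (hV : V ∈ 𝓝 (D.up (P.pt j))) :
    ∃ ε > 0, ∀ x, ‖D.κ x - P.pt j‖ < ε → x ∈ V := by
  have hp := horoPr_pt_mem P j
  have hud : D.up (P.pt j) = D.dn (P.pt j) := D.glue _ hp ⟨j, P.B_pt_left j⟩
  have h1 : ∀ᶠ z in 𝓝[P.Qc] (P.pt j), D.up z ∈ V := (D.up_cont _ hp) hV
  have h2 : ∀ᶠ z in 𝓝[P.Qc] (P.pt j), D.dn z ∈ V := by
    have : V ∈ 𝓝 (D.dn (P.pt j)) := by rw [← hud]; exact hV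
    exact (D.dn_cont _ hp) this
  obtain ⟨ε, hε, h3⟩ := Metric.mem_nhdsWithin_iff.mp (h1.and h2)
  refine ⟨ε, hε, fun x hx => ?_⟩
  have h4 := h3 ⟨mem_ball_iff_norm.mpr hx, D.κ_mem x⟩
  rcases (D.cover.symm ▸ Set.mem_univ x : x ∈ D.SU ∪ D.SV) with h5 | h5
  · have := h4.1
    rwa [D.up_κ x h5] at this
  · have := h4.2
    rwa [D.dn_κ x h5] at this

theorem horo_pr {j : ℤ} {V : Set S} (hV : V ∈ 𝓝 (D.up (P.pt j))) (L : List ℤ) :
    ∃ δ > 0, ∀ z ∈ Hb (P.act L (P.pt j)) δ, D.pr z ∈ V := by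
  obtain ⟨ε, hε, hx⟩ := D.exists_nhd hV
  obtain ⟨δ₀, hδ₀, hfar⟩ := P.horo_far j
  obtain ⟨τ, hτ, hL⟩ := horoPr_form P L (P.norm_pt j).le
  refine ⟨min (δ₀ / τ) (ε ^ 2 / (2 * τ)), by positivity, fun z hz => ?_⟩
  obtain ⟨hz1, hz2⟩ := hz
  obtain ⟨x, M, hM⟩ := D.exists_cell hz1
  rw [D.pr_eq hM]
  apply hx
  have hzM := hM.2.2
  have hκ : ‖D.κ x‖ ≤ 1 := (D.κ_lt hM.1).le
  obtain ⟨s, hs, hs1⟩ := horoPr_form P M hκ
  have hsq := horoPr_sqrt P hs hs1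
  rw [← hzM] at hs1 hsq
  set δ := min (δ₀ / τ) (ε ^ 2 / (2 * τ)) with hδ
  have e1 : - B (D.κ x, 1) (P.word (M.reverse ++ L) (P.pt j, 1)) =
      s * τ * (1 - (z * (starRingEnd ℂ) (P.act L (P.pt j))).re) := by
    rw [← P.B_word M, P.word_append, P.word_reverse', hs1, hL, horoPr_B_smul, horoPr_B_one]
    ring
  have e2 : - B (D.κ x, 1) (P.word (M.reverse ++ L) (P.pt j, 1)) < τ * δ := by
    rw [e1]
    have h1 : s * τ * (1 - (z * (starRingEnd ℂ) (P.act L (P.pt j))).re) <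
        s * τ * (δ * Real.sqrt (1 - ‖z‖ ^ 2)) := by gcongr
    have h2 : s * τ * (δ * Real.sqrt (1 - ‖z‖ ^ 2)) = τ * δ * Real.sqrt (1 - ‖D.κ x‖ ^ 2) := by
      rw [← hsq]; ring
    have h3 : Real.sqrt (1 - ‖D.κ x‖ ^ 2) ≤ 1 := by
      rw [Real.sqrt_le_one]
      nlinarith [norm_nonneg (D.κ x)]
    have hδ0 : 0 < δ := by positivity
    nlinarith [mul_le_mul_of_nonneg_left h3 (mul_pos hτ hδ0).le]
  have e3 : τ * δ ≤ δ₀ := by
    have : δ ≤ δ₀ / τ := min_le_left _ _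
    calc τ * δ ≤ τ * (δ₀ / τ) := by gcongr
      _ = δ₀ := by field_simp
  have e4 : 2 * (τ * δ) ≤ ε ^ 2 := by
    have : δ ≤ ε ^ 2 / (2 * τ) := min_le_right _ _
    calc 2 * (τ * δ) ≤ 2 * (τ * (ε ^ 2 / (2 * τ))) := by gcongr
      _ = ε ^ 2 := by field_simp
  rcases hfar (M.reverse ++ L) with h | h
  · rw [h, horoPr_B_one] at e2
    have h5 := horoPr_norm_sq hκ (P.norm_pt j)
    have h6 : ‖D.κ x - P.pt j‖ ^ 2 < ε ^ 2 := by linarith
    exact lt_of_pow_lt_pow_left₀ 2 hε.le h6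
  · have := h _ (D.κ_mem x)
    linarith

theorem lift_horo {γ : ℝ → S} {g : ℝ → ℂ} (hg : D.IsLift γ g) {j : ℤ}
    (hγ : Tendsto γ atTop (𝓝 (D.up (P.pt j)))) {E : ℂ} (hE : Tendsto g atTop (𝓝 E)) :
    Horo E g := by
  obtain ⟨L, hL1, hL2⟩ := D.exists_tendsto hg hγ
  have hEL : E = P.act L (P.pt j) := tendsto_nhds_unique hE hL2
  subst hEL
  obtain ⟨τ, hτ, hL⟩ := horoPr_form P L (P.norm_pt j).le
  obtain ⟨ε, hε, hcor⟩ := P.corner j
  intro δ hδ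
  have hp := horoPr_pt_mem P j
  have hκ : Tendsto (fun t => D.κ (γ t)) atTop (𝓝 (P.pt j)) := by
    have := (D.κ_cont.tendsto (D.up (P.pt j))).comp hγ
    rwa [D.κ_up _ hp] at this
  have h1 : ∀ᶠ t in atTop, ‖D.κ (γ t) - P.pt j‖ < ε := by
    have := (Metric.tendsto_nhds.mp hκ) ε hε
    simpa only [dist_eq_norm] using this
  have h2 : ∀ᶠ t in atTop, 1 - (D.κ (γ t) * (starRingEnd ℂ) (P.pt j)).re < (τ * δ) ^ 2 := by
    have hc : Tendsto (fun t => 1 - (D.κ (γ t) * (starRingEnd ℂ) (P.pt j)).re) atTop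
        (𝓝 (1 - (P.pt j * (starRingEnd ℂ) (P.pt j)).re)) := by
      have hcont : Continuous fun z : ℂ => 1 - (z * (starRingEnd ℂ) (P.pt j)).re := by
        fun_prop
      exact (hcont.tendsto _).comp hκ
    have h0 : 1 - (P.pt j * (starRingEnd ℂ) (P.pt j)).re = 0 := by
      rw [Complex.mul_conj, Complex.normSq_eq_norm_sq, P.norm_pt]
      simp
    rw [h0] at hc
    exact hc.eventually_lt_const (by positivity)
  have h3 : ∀ᶠ t in atTop, γ t ∉ D.Vert → γ t ∈ D.Near j := hγ.eventually (D.eventually_near j)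
  filter_upwards [h1, h2, h3, hL1] with t t1 t2 t3 t4
  have hn := hg.2.1 t
  refine ⟨hn, ?_⟩
  obtain ⟨x, M, hM⟩ := D.exists_cell hn
  have hxγ : x = γ t := by rw [← hg.2.2 t, D.pr_eq hM]
  subst hxγ
  have hev : P.word M (P.pt j, 1) = P.word L (P.pt j, 1) := by
    rw [← D.evec_eq hM (t3 hM.1), t4]
  have hκl : ‖D.κ (γ t)‖ < 1 := D.κ_lt hM.1
  obtain ⟨s, hs, hs1⟩ := horoPr_form P M hκl.le
  have hsq := horoPr_sqrt P hs hs1
  rw [← hM.2.2] at hs1 hsq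
  have e1 : s * τ * (1 - (g t * (starRingEnd ℂ) (P.act L (P.pt j))).re) =
      1 - (D.κ (γ t) * (starRingEnd ℂ) (P.pt j)).re := by
    have : B (P.word M (D.κ (γ t), 1)) (P.word L (P.pt j, 1)) = B (D.κ (γ t), 1) (P.pt j, 1) := by
      rw [← hev, P.B_word]
    rw [hs1, hL, horoPr_B_smul, horoPr_B_one, horoPr_B_one] at this
    linarith
  have hc := hcor _ (D.κ_mem (γ t)) t1
  set a := 1 - (D.κ (γ t) * (starRingEnd ℂ) (P.pt j)).re with ha
  set b := 1 - ‖D.κ (γ t)‖ ^ 2 with hb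
  have ha0 : 0 ≤ a := by
    have := horoPr_re_le hκl.le (P.norm_pt j)
    linarith
  have hb0 : 0 < b := by
    have := norm_nonneg (D.κ (γ t))
    nlinarith
  have h5 : a < τ * δ * Real.sqrt b := by
    have h6 : a ^ 2 < (τ * δ * Real.sqrt b) ^ 2 := by
      rw [mul_pow, Real.sq_sqrt hb0.le]
      nlinarith [mul_lt_mul_of_pos_right t2 hb0, mul_le_mul_of_nonneg_left hc ha0]
    exact lt_of_pow_lt_pow_left₀ 2 (by positivity) h6
  rw [← hsq, ← e1] at h5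
  have h7 : s * τ * (1 - (g t * (starRingEnd ℂ) (P.act L (P.pt j))).re) <
      s * τ * (δ * Real.sqrt (1 - ‖g t‖ ^ 2)) := by
    calc _ < _ := h5
      _ = _ := by ring
  exact lt_of_mul_lt_mul_left h7 (by positivity)

end Dbl

end Pool.Agent.RAYT
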