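import Pool.Agent.RAYT.Chord
import Pool.Agent.RAYT.HoroPr

/-!
RAYT/Transport: homeomorphisms of the sphere preserve equality and linkedness of end points of rays.

PROOFS.  `eq_up_of_vert`: `κ x = pt j`; `x = up (κ x)` or `x = dn (κ x) = up (κ x)` (`glue`,
`B_pt_left`).  `IsRayP.map`: clear.
`exists_lift_homeo`: `exists_lift_map` for `φ` gives `Φ`, for `φ.symm` gives `Ψ`, and
`Ψ ∘ Φ = id` on the ball by `lift_unique_on` (both lift `pr`, both fix `0`); so `Φ` is injective.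
`horo_map`: by `Ends.eventually_near` (for `D', j'`) and continuity of `φ` there is a neighbourhood
`V` of `up (pt j)` with `φ x ∈ D'.Near j'` for `x ∈ V`, `x ∉ Vert`; `horo_pr` gives `δ` with
`pr (Hb E₀ δ) ⊆ V`, `E₀ = act L (pt j)`.  `Hb E₀ δ` is convex, hence preconnected; so
`evec' j' (Φ z)` is constant on it (`evec_const`), equal to `word L' (pt j',1)` for a cell `L'` of
one `Φ z` (the set is nonempty because of `h`).  `pr (g t) → up (pt j)` (`horo_pr` for all `V`), so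
`Φ ∘ g` is a lift of the path `φ ∘ pr ∘ g → up' (pt j')`, and `tendsto_act` gives
`Φ (g t) → act L' (pt j')`; the same for `g'`.
`endPt_transport`: let `g` be the lift of `y ∘ tau` with `g 0 = 0`, `g'` the one of `z ∘ tau`;
`Horo (endPt y) g`, `Horo (endPt z) g'` by `lift_horo`, `endPt y = act L (pt i)` (`endPt_form`);
`Φ ∘ g` is the lift of `φ ∘ y ∘ tau`, so it tends to `endPt' (φ ∘ y)`; `horo_map`.
`crossed_transport`: write `A, B, C, D` and `A', B', C', D'` for the end points.  The four points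
`A', ..` are pairwise different: otherwise `endPt_transport` for `φ.symm` shows that two of
`A, B, C, D` are equal, impossible since they are linked.  Suppose `A' B'` and `C' D'` are not
crossed; then by `chords_cross` the chords `G = chord A' B'`, `H = chord C' D'` are disjoint.  Let
`Ψ` be the lift of `φ.symm` (`exists_lift_homeo`); then `Ψ ∘ G` and `Ψ ∘ H` are disjoint.
`Ψ (G x) → B` for `x → ∞` by `horo_map` (`Horo B' G` by `horo_chord`; the other path is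
`Φ`-image of the lift of `b`: the lift `g'` of `φ ∘ b ∘ tau`, `Horo B' g'`, `Ψ ∘ g'` is the lift of
`b ∘ tau`, so it tends to `B`); `Ψ (G x) → A` for `x → - ∞` by the same argument for
`chord B' A' = G ∘ neg`; similarly `H`.  `crossing_lines` (for `G, H` or `G` and `H` reversed)
gives an intersection, contradiction.
-/

set_option autoImplicit false

namespace Pool.Agent.RAYT

open Complex Set Topology Filter unitInterval

namespace Dbl

variable {N : ℕ} {P : Poly N} {S : Type*} [TopologicalSpace S] (D : Dbl P S)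
variable {N' : ℕ} {P' : Poly N'} {S' : Type*} [TopologicalSpace S'] (D' : Dbl P' S')

private theorem transport_pt_mem (P : Poly N) (j : ℤ) : P.pt j ∈ P.Qc := by
  refine ⟨(P.norm_pt j).le, fun i => ?_⟩
  by_cases h1 : i ≡ j [ZMOD (N : ℤ)]
  · rw [P.nrm_congr h1, P.B_pt_left]
  · by_cases h2 : i ≡ j - 1 [ZMOD (N : ℤ)]
    · have := P.B_pt_right (j - 1)
      rw [sub_add_cancel] at this
      rw [P.nrm_congr h2, this]
    · exact (P.B_pt_neg h1 h2).le

theorem eq_up_of_vert {x : S} (hx : x ∈ D.Vert) : ∃ j, x = D.up (P.pt j) := by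
  obtain ⟨j, hj⟩ := hx
  refine ⟨j, ?_⟩
  have hc : x ∈ D.SU ∪ D.SV := by rw [D.cover]; exact Set.mem_univ x
  rcases hc with h | h
  · rw [← hj, D.up_κ x h]
  · rw [D.glue (P.pt j) (transport_pt_mem P j) ⟨j, P.B_pt_left j⟩, ← hj, D.dn_κ x h]

private theorem transport_up_vert (j : ℤ) : D.up (P.pt j) ∈ D.Vert :=
  ⟨j, D.κ_up _ (transport_pt_mem P j)⟩

variable {D} {D'} in
theorem IsRayP.map {φ : S ≃ₜ S'} (h0 : φ (D.up 0) = D'.up 0)
    (hV : ∀ x, x ∈ D.Vert ↔ φ x ∈ D'.Vert) {j : ℤ} {γ : I → S} (h : D.IsRayP j γ) :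
    ∃ j', D'.IsRayP j' fun t => φ (γ t) := by
  have h1 : φ (γ 1) ∈ D'.Vert := by
    rw [← hV, h.one]
    exact D.transport_up_vert j
  obtain ⟨j', hj'⟩ := D'.eq_up_of_vert h1
  refine ⟨j', φ.continuous.comp h.continuous, ?_, ?_, hj'⟩
  · show φ (γ 0) = _
    rw [h.zero, h0]
  · intro t ht hc
    exact h.interior t ht ((hV _).2 hc)

/-- the lift of a homeomorphism -/
theorem exists_lift_homeo {φ : S ≃ₜ S'} (h0 : φ (D.up 0) = D'.up 0)
    (hV : ∀ x, x ∈ D.Vert ↔ φ x ∈ D'.Vert) : ∃ Φ : ℂ → ℂ,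
    ContinuousOn Φ (Metric.ball (0 : ℂ) 1) ∧ Φ 0 = 0 ∧
      (∀ z, ‖z‖ < 1 → ‖Φ z‖ < 1 ∧ D'.pr (Φ z) = φ (D.pr z)) ∧
      InjOn Φ (Metric.ball (0 : ℂ) 1) := by
  have hV1 : ∀ x, x ∉ D.Vert → φ x ∉ D'.Vert := fun x hx hc => hx ((hV x).2 hc)
  have hV2 : ∀ x, x ∉ D'.Vert → φ.symm x ∉ D.Vert := fun x hx hc => by
    apply hx
    have := (hV _).1 hc
    rwa [φ.apply_symm_apply] at this
  obtain ⟨Φ, hΦc, hΦ0, hΦ⟩ := D.exists_lift_map D' φ.continuous hV1 (z₀ := 0) (by simp)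
    (by rw [D'.pr_zero, h0])
  obtain ⟨Ψ, hΨc, hΨ0, hΨ⟩ := D'.exists_lift_map D φ.symm.continuous hV2 (z₀ := 0) (by simp)
    (by rw [D.pr_zero, ← h0, φ.symm_apply_apply])
  refine ⟨Φ, hΦc, hΦ0, hΦ, ?_⟩
  have hmaps : MapsTo Φ (Metric.ball (0 : ℂ) 1) (Metric.ball (0 : ℂ) 1) := fun z hz => by
    rw [mem_ball_zero_iff] at hz ⊢
    exact (hΦ z hz).1
  have hid : ∀ z ∈ Metric.ball (0 : ℂ) 1, Ψ (Φ z) = z := by
    refine D.lift_unique_on (g := fun z => Ψ (Φ z)) (g' := fun z => z)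
      (convex_ball (0 : ℂ) 1).isPreconnected (hΨc.comp hΦc hmaps) continuousOn_id ?_ ?_ ?_
      (a₀ := 0) (by simp) ?_
    · intro z hz
      rw [mem_ball_zero_iff] at hz
      exact (hΨ _ (hΦ z hz).1).1
    · intro z hz
      rwa [mem_ball_zero_iff] at hz
    · intro z hz
      rw [mem_ball_zero_iff] at hz
      rw [(hΨ _ (hΦ z hz).1).2, (hΦ z hz).2, φ.symm_apply_apply]
    · show Ψ (Φ 0) = 0
      rw [hΦ0, hΨ0]
  intro z hz z' hz' h
  rw [← hid z hz, ← hid z' hz', h]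

/-- all paths which enter the horoballs at `act L (pt j)` are mapped to paths with the same
limit -/
theorem horo_map {φ : S → S'} (hφ : Continuous φ) (hV : ∀ x, x ∉ D.Vert → φ x ∉ D'.Vert)
    {Φ : ℂ → ℂ} (hc : ContinuousOn Φ (Metric.ball (0 : ℂ) 1))
    (hΦ : ∀ z, ‖z‖ < 1 → ‖Φ z‖ < 1 ∧ D'.pr (Φ z) = φ (D.pr z)) {j j' : ℤ}
    (hj : φ (D.up (P.pt j)) = D'.up (P'.pt j')) {L : List ℤ} {g g' : ℝ → ℂ} (hg : Continuous g)
    (hg' : Continuous g') (hg1 : ∀ t, ‖g t‖ < 1) (hg1' : ∀ t, ‖g' t‖ < 1)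
    (h : Horo (P.act L (P.pt j)) g) (h' : Horo (P.act L (P.pt j)) g') {E : ℂ}
    (hE : Tendsto (fun t => Φ (g t)) atTop (𝓝 E)) :
    Tendsto (fun t => Φ (g' t)) atTop (𝓝 E) := by
  have hnear : {x : S | φ x ∉ D'.Vert → φ x ∈ D'.Near j'} ∈ 𝓝 (D.up (P.pt j)) := by
    have h1 := D'.eventually_near j'
    rw [← hj] at h1
    exact hφ.continuousAt.eventually h1
  obtain ⟨δ, hδ, hpr⟩ := D.horo_pr hnear L
  have hHb : ∀ z ∈ Hb (P.act L (P.pt j)) δ, ‖Φ z‖ < 1 ∧ D'.pr (Φ z) ∈ D'.Near j' := by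
    intro z hz
    have hz1 : ‖z‖ < 1 := hz.1
    refine ⟨(hΦ z hz1).1, ?_⟩
    rw [(hΦ z hz1).2]
    exact hpr z hz (hV _ (D.pr_not_vert hz1))
  have hsub : Hb (P.act L (P.pt j)) δ ⊆ Metric.ball (0 : ℂ) 1 := fun z hz => by
    rw [mem_ball_zero_iff]
    exact hz.1
  have hconst := D'.evec_const (convex_Hb (P.act L (P.pt j)) hδ).isPreconnected (hc.mono hsub) hHb
  obtain ⟨t₀, ht₀⟩ := (h δ hδ).exists
  obtain ⟨x, L', hL'⟩ := D'.exists_cell (hHb _ ht₀).1
  have hx : x ∈ D'.Near j' := by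
    rw [← D'.pr_eq hL']
    exact (hHb _ ht₀).2
  have hev : ∀ z ∈ Hb (P.act L (P.pt j)) δ,
      D'.evec j' (Φ z) = P'.word L' (P'.pt j', 1) := fun z hz => by
    rw [hconst z hz (g t₀) ht₀, D'.evec_eq hL' hx]
  have key : ∀ k : ℝ → ℂ, Continuous k → (∀ t, ‖k t‖ < 1) → Horo (P.act L (P.pt j)) k →
      Tendsto (fun t => Φ (k t)) atTop (𝓝 (P'.act L' (P'.pt j'))) := by
    intro k hk hk1 hkh
    have hlift : D'.IsLift (fun t => φ (D.pr (k t))) (fun t => Φ (k t)) := by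
      refine ⟨hc.comp_continuous hk (fun t => ?_), fun t => (hΦ _ (hk1 t)).1,
        fun t => (hΦ _ (hk1 t)).2⟩
      rw [mem_ball_zero_iff]
      exact hk1 t
    have hlim : Tendsto (fun t => D.pr (k t)) atTop (𝓝 (D.up (P.pt j))) := by
      intro V hV'
      obtain ⟨δ', hδ', hpr'⟩ := D.horo_pr hV' L
      exact (hkh δ' hδ').mono (fun t ht => hpr' _ ht)
    have hlim' : Tendsto (fun t => φ (D.pr (k t))) atTop (𝓝 (D'.up (P'.pt j'))) := by
      rw [← hj]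
      exact (hφ.tendsto _).comp hlim
    exact D'.tendsto_act hlift hlim' ((hkh δ hδ).mono (fun t ht => hev _ ht))
  rw [tendsto_nhds_unique hE (key g hg hg1 h)]
  exact key g' hg' hg1' h'

private theorem transport_horo {j : ℤ} {γ : I → S} (h : D.IsRayP j γ) {g : ℝ → ℂ}
    (hg : D.IsLift (fun x => γ (tau x)) g) (h0 : g 0 = 0) : Horo (D.endPt γ) g := by
  refine D.lift_horo hg (j := j) ?_ (h.tendsto D hg h0)
  rw [← h.one]
  exact (h.continuous.tendsto 1).comp tendsto_tau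

private theorem transport_lift {φ : S → S'} {Φ : ℂ → ℂ}
    (hc : ContinuousOn Φ (Metric.ball (0 : ℂ) 1))
    (hΦ : ∀ z, ‖z‖ < 1 → ‖Φ z‖ < 1 ∧ D'.pr (Φ z) = φ (D.pr z)) {γ : ℝ → S} {g : ℝ → ℂ}
    (hg : D.IsLift γ g) : D'.IsLift (fun x => φ (γ x)) (fun x => Φ (g x)) := by
  refine ⟨hc.comp_continuous hg.1 (fun t => ?_), fun t => (hΦ _ (hg.2.1 t)).1, fun t => ?_⟩
  · rw [mem_ball_zero_iff]
    exact hg.2.1 t
  · rw [(hΦ _ (hg.2.1 t)).2, hg.2.2 t]

/-- rays with the same end point are mapped to rays with the same end point -/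
theorem endPt_transport {φ : S ≃ₜ S'} (h0 : φ (D.up 0) = D'.up 0)
    (hV : ∀ x, x ∈ D.Vert ↔ φ x ∈ D'.Vert) {i j : ℤ} {y z : I → S} (hy : D.IsRayP i y)
    (hz : D.IsRayP j z) (h : D.endPt y = D.endPt z) :
    D'.endPt (fun t => φ (y t)) = D'.endPt (fun t => φ (z t)) := by
  obtain ⟨g, hg, hg0⟩ := hy.exists_lift
  obtain ⟨g', hg', hg0'⟩ := hz.exists_lift
  obtain ⟨i', hy'⟩ := hy.map h0 hV
  obtain ⟨j', hz'⟩ := hz.map h0 hV
  obtain ⟨L, hL⟩ := hy.endPt_form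
  obtain ⟨Φ, hΦc, hΦ0, hΦ, -⟩ := D.exists_lift_homeo D' h0 hV
  have hV1 : ∀ x, x ∉ D.Vert → φ x ∉ D'.Vert := fun x hx hc => hx ((hV x).2 hc)
  have hh := D.transport_horo hy hg hg0
  have hh' := D.transport_horo hz hg' hg0'
  rw [← h, hL] at hh'
  rw [hL] at hh
  have e1 := hy'.tendsto D' (transport_lift D D' hΦc hΦ hg) (by show Φ (g 0) = 0; rw [hg0, hΦ0])
  have e2 := hz'.tendsto D' (transport_lift D D' hΦc hΦ hg') (by show Φ (g' 0) = 0; rw [hg0', hΦ0])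
  have e3 := D.horo_map D' φ.continuous hV1 hΦc hΦ (j := i) (j' := i')
    (by rw [← hy.one]; exact hy'.one) hg.1 hg'.1 hg.2.1 hg'.2.1 hh hh' e1
  exact tendsto_nhds_unique e3 e2

/-- the chords `a b` and `c d` cross -/
def _root_.Pool.Agent.RAYT.Crossed (a b c d : ℂ) : Prop := Linked a c b d ∨ Linked a d b c

private theorem transport_ori_ne {a b c : ℂ} (h : 0 < ori a b c) : a ≠ b ∧ b ≠ c ∧ a ≠ c := by
  refine ⟨?_, ?_, ?_⟩ <;> rintro rfl <;> simp only [ori, cross, sub_self, zero_re, zero_im, sub_re,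
    sub_im] at h <;> nlinarith

private theorem transport_ne {a b c d : ℂ} (h : Crossed a b c d) :
    a ≠ b ∧ a ≠ c ∧ a ≠ d ∧ b ≠ c ∧ b ≠ d ∧ c ≠ d := by
  rcases h with ⟨h1, h2, h3, h4⟩ | ⟨h1, h2, h3, h4⟩
  · have a1 := transport_ori_ne h1
    have a2 := transport_ori_ne h2
    have a3 := transport_ori_ne h3
    exact ⟨a1.2.2, a1.1, a3.2.1.symm, a1.2.1.symm, a2.2.1, a2.2.2⟩
  · have a1 := transport_ori_ne h1
    have a2 := transport_ori_ne h2
    have a3 := transport_ori_ne h3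
    exact ⟨a1.2.2, a3.2.1.symm, a1.1, a2.2.1, a1.2.1.symm, a2.2.2.symm⟩

/-- TRANSPORT: homeomorphisms preserve linkedness of pairs of end points -/
theorem crossed_transport {φ : S ≃ₜ S'} (h0 : φ (D.up 0) = D'.up 0)
    (hV : ∀ x, x ∈ D.Vert ↔ φ x ∈ D'.Vert) {ja jb jc jd : ℤ} {a b c d : I → S}
    (ha : D.IsRayP ja a) (hb : D.IsRayP jb b) (hc : D.IsRayP jc c) (hd : D.IsRayP jd d)
    (h : Crossed (D.endPt a) (D.endPt b) (D.endPt c) (D.endPt d)) :
    Crossed (D'.endPt fun t => φ (a t)) (D'.endPt fun t => φ (b t))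
      (D'.endPt fun t => φ (c t)) (D'.endPt fun t => φ (d t)) := by
  obtain ⟨ja', ha'⟩ := ha.map h0 hV
  obtain ⟨jb', hb'⟩ := hb.map h0 hV
  obtain ⟨jc', hc'⟩ := hc.map h0 hV
  obtain ⟨jd', hd'⟩ := hd.map h0 hV
  have h0s : φ.symm (D'.up 0) = D.up 0 := by rw [← h0, φ.symm_apply_apply]
  have hVs : ∀ x, x ∈ D'.Vert ↔ φ.symm x ∈ D.Vert := fun x => by
    rw [hV, φ.apply_symm_apply]
  -- different end points
  have hback : ∀ {i j : ℤ} {y z : I → S}, D.IsRayP i y → D.IsRayP j z →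
      D.endPt y ≠ D.endPt z →
      D'.endPt (fun t => φ (y t)) ≠ D'.endPt (fun t => φ (z t)) := by
    intro i j y z hy hz hne heq
    obtain ⟨i', hy'⟩ := hy.map h0 hV
    obtain ⟨j', hz'⟩ := hz.map h0 hV
    have := D'.endPt_transport D h0s hVs hy' hz' heq
    simp only [φ.symm_apply_apply] at this
    exact hne this
  obtain ⟨dAB, dAC, dAD, dBC, dBD, dCD⟩ := transport_ne h
  have nAB := hback ha hb dAB
  have nAC := hback ha hc dAC
  have nAD := hback ha hd dAD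
  have nBC := hback hb hc dBC
  have nBD := hback hb hd dBD
  have nCD := hback hc hd dCD
  by_contra hn
  obtain ⟨Ψ, hΨc, hΨ0, hΨ, hinj⟩ := D'.exists_lift_homeo D h0s hVs
  have hball : ∀ {A B : ℂ}, ‖A‖ = 1 → ‖B‖ = 1 → A ≠ B → ∀ x, chord A B x ∈
      Metric.ball (0 : ℂ) 1 := fun h1 h2 h3 x => by
    rw [mem_ball_zero_iff]
    exact norm_chord_lt h1 h2 h3 x
  -- the limits
  have hlim : ∀ {i : ℤ} {y : I → S}, D.IsRayP i y → ∀ {A : ℂ}, ‖A‖ = 1 →
      A ≠ D'.endPt (fun t => φ (y t)) →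
      Tendsto (fun x => Ψ (chord A (D'.endPt (fun t => φ (y t))) x)) atTop (𝓝 (D.endPt y)) := by
    intro i y hy A hA hne
    obtain ⟨i', hy'⟩ := hy.map h0 hV
    obtain ⟨g, hg, hg0⟩ := hy'.exists_lift
    obtain ⟨L, hL⟩ := hy'.endPt_form
    have hh := D'.transport_horo hy' hg hg0
    have hh' := horo_chord hA hy'.norm_endPt hne
    have hl := transport_lift D' D hΨc hΨ hg
    simp only [φ.symm_apply_apply] at hl
    have e1 := hy.tendsto D hl (by show Ψ (g 0) = 0; rw [hg0, hΨ0])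
    have hVs1 : ∀ x, x ∉ D'.Vert → φ.symm x ∉ D.Vert := fun x hx hc => hx ((hVs x).2 hc)
    have hj : φ.symm (D'.up (P'.pt i')) = D.up (P.pt i) := by
      rw [← hy'.one, φ.symm_apply_apply, hy.one]
    rw [hL] at hh
    have hh2 : Horo (P'.act L (P'.pt i')) (chord A (D'.endPt (fun t => φ (y t)))) := by
      rw [← hL]; exact hh'
    exact D'.horo_map D φ.symm.continuous hVs1 hΨc hΨ hj hg.1 (continuous_chord _ _)
      hg.2.1 (norm_chord_lt hA hy'.norm_endPt hne) hh hh2 e1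
  have hlimBot : ∀ {i j : ℤ} {y z : I → S}, D.IsRayP i y → D.IsRayP j z →
      D'.endPt (fun t => φ (y t)) ≠ D'.endPt (fun t => φ (z t)) →
      Tendsto (fun x => Ψ (chord (D'.endPt (fun t => φ (y t)))
        (D'.endPt (fun t => φ (z t))) x)) atBot (𝓝 (D.endPt y)) := by
    intro i j y z hy hz hne
    obtain ⟨j', hz'⟩ := hz.map h0 hV
    have h1 := (hlim hy hz'.norm_endPt hne.symm).comp tendsto_neg_atBot_atTop
    refine h1.congr (fun x => ?_)
    show Ψ (chord _ _ (-x)) = _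
    rw [chord_neg]
  have hcont : ∀ {A B : ℂ}, ‖A‖ = 1 → ‖B‖ = 1 → A ≠ B →
      Continuous (fun x => Ψ (chord A B x)) := fun h1 h2 h3 =>
    hΨc.comp_continuous (continuous_chord _ _) (hball h1 h2 h3)
  have hnorm : ∀ {A B : ℂ}, ‖A‖ = 1 → ‖B‖ = 1 → A ≠ B → ∀ x, ‖Ψ (chord A B x)‖ < 1 :=
    fun h1 h2 h3 x => (hΨ _ (norm_chord_lt h1 h2 h3 x)).1
  have nA := ha'.norm_endPt
  have nB := hb'.norm_endPt
  have nC := hc'.norm_endPt
  have nD := hd'.norm_endPt
  have htop : ∀ {i j : ℤ} {y z : I → S}, D.IsRayP i y → D.IsRayP j z →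
      D'.endPt (fun t => φ (y t)) ≠ D'.endPt (fun t => φ (z t)) →
      Tendsto (fun x => Ψ (chord (D'.endPt (fun t => φ (y t)))
        (D'.endPt (fun t => φ (z t))) x)) atTop (𝓝 (D.endPt z)) := by
    intro i j y z hy hz hne
    obtain ⟨i', hy'⟩ := hy.map h0 hV
    exact hlim hz hy'.norm_endPt hne
  rcases h with h | h
  · obtain ⟨s, t, hst⟩ := crossing_lines (hcont nA nB nAB) (hcont nC nD nCD) (hnorm nA nB nAB)
      (hnorm nC nD nCD) (hlimBot ha hb nAB) (htop ha hb nAB) (hlimBot hc hd nCD)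
      (htop hc hd nCD) ha.norm_endPt hb.norm_endPt hc.norm_endPt hd.norm_endPt h
    exact hn (chords_cross nA nB nC nD nAB nCD nAC nAD nBC nBD
      (hinj (hball nA nB nAB s) (hball nC nD nCD t) hst))
  · obtain ⟨s, t, hst⟩ := crossing_lines (hcont nA nB nAB) (hcont nD nC nCD.symm)
      (hnorm nA nB nAB) (hnorm nD nC nCD.symm) (hlimBot ha hb nAB) (htop ha hb nAB)
      (hlimBot hd hc nCD.symm) (htop hd hc nCD.symm) ha.norm_endPt hb.norm_endPt
      hd.norm_endPt hc.norm_endPt h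
    exact hn ((chords_cross nA nB nD nC nAB nCD.symm nAD nAC nBD nBC
      (hinj (hball nA nB nAB s) (hball nD nC nCD.symm t) hst)).symm)

end Dbl

end Pool.Agent.RAYT
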