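import Pool.Agent.RAYT.Ray

/-!
RAYT/Unlink: the lifts of a pair of disjoint rays are unlinked.

PROOF.  Let `λ x = z (tau x)` for `x ≥ 0`, `λ x = y (tau x)` for `x ≤ 0` (`tau` is even), a
continuous path without vertices, injective (`tau_inj`, `hyi`, `hzi`, `hd`; `tau x = 0` iff
`x = 0`).  Let `g` be its lift with `g 0 = 0`; for `x ≥ 0` it agrees with the lift of `z ∘ tau` and
for `x ≤ 0` with the one of `y ∘ tau` (`lift_unique_on`), so `g → endPt z` for `x → ∞` and
`g → endPt y` for `x → - ∞`.  `G = act L ∘ g`, `H = act L' ∘ g` are continuous with values in the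
open disc, with limits `act L (endPt y)`, etc. (`continuousOn_act` at points of the closed
ball).  If the four points are linked then `crossing_lines` gives `act L (g s) = act L' (g t)`
(second case: `H (- t)` instead of `H t`).  So `g s = act (L.reverse ++ L') (g t)`, an even
word, `pr (g s) = pr (g t)` (`pr_act`), `λ s = λ t`, `s = t`, and `word_eq_of_act_eq` gives
`word (L.reverse ++ L') = 1`, so `word L' = word L`, contradiction to `hne`.
-/

set_option autoImplicit false

namespace Pool.Agent.RAYT

open Complex Set Topology Filter unitInterval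

namespace Dbl

variable {N : ℕ} {P : Poly N} {S : Type*} [TopologicalSpace S] (D : Dbl P S)

private theorem unlink_tau_neg (x : ℝ) : tau (-x) = tau x := by
  apply Subtype.ext
  simp [tau]

/-- convergence of a half lift -/
private theorem unlink_end {j : ℤ} {γ : I → S} (h : D.IsRayP j γ) {g : ℝ → ℂ}
    (hg : ContinuousOn g (Ici 0)) (hb : ∀ x, 0 ≤ x → ‖g x‖ < 1)
    (hp : ∀ x, 0 ≤ x → D.pr (g x) = γ (tau x)) (h0 : g 0 = 0) :
    Tendsto g atTop (𝓝 (D.endPt γ)) := by
  obtain ⟨f, hf, hf0⟩ := IsRayP.exists_lift D h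
  have key := D.lift_unique_on (s := Ici (0 : ℝ)) isPreconnected_Ici hf.1.continuousOn hg
    (fun a _ => hf.2.1 a) (fun a ha => hb a ha)
    (fun a ha => by rw [hp a ha]; exact hf.2.2 a) (a₀ := 0) (mem_Ici.mpr le_rfl)
    (by rw [hf0, h0])
  refine (IsRayP.tendsto D h hf hf0).congr' ?_
  filter_upwards [eventually_ge_atTop (0 : ℝ)] with x hx
  exact key x hx

/-- the image of a convergent line under a word -/
private theorem unlink_act (P : Poly N) (L : List ℤ) {l : Filter ℝ} {g : ℝ → ℂ} {E : ℂ}
    (hb : ∀ x, ‖g x‖ < 1) (hE : ‖E‖ = 1) (h : Tendsto g l (𝓝 E)) :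
    Tendsto (fun x => P.act L (g x)) l (𝓝 (P.act L E)) := by
  have h1 : ContinuousWithinAt (P.act L) (Metric.closedBall (0 : ℂ) 1) E :=
    P.continuousOn_act L E (mem_closedBall_zero_iff.mpr hE.le)
  exact h1.tendsto.comp (tendsto_nhdsWithin_iff.mpr
    ⟨h, Eventually.of_forall fun x => mem_closedBall_zero_iff.mpr (hb x).le⟩)

/-- two lifts of the bi-infinite path `y⁻¹ z`; `y, z` disjoint simple rays -/
theorem unlinked {i j : ℤ} {y z : I → S} (hy : D.IsRayP i y) (hz : D.IsRayP j z)
    (hyi : Function.Injective y) (hzi : Function.Injective z)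
    (hd : ∀ s t, s ≠ 0 → s ≠ 1 → t ≠ 0 → t ≠ 1 → y s ≠ z t)
    {L L' : List ℤ} (hpar : Even (L.length + L'.length))
    (hne : ¬ ∀ v, P.word L v = P.word L' v) :
    ¬ Linked (P.act L (D.endPt y)) (P.act L' (D.endPt y)) (P.act L (D.endPt z))
        (P.act L' (D.endPt z)) ∧
    ¬ Linked (P.act L (D.endPt y)) (P.act L' (D.endPt z)) (P.act L (D.endPt z))
        (P.act L' (D.endPt y)) := by
  classical
  have ht0 : ∀ x : ℝ, x ≠ 0 → tau x ≠ 0 := by
    intro x hx h
    rw [← tau_zero] at h
    rcases le_total 0 x with hx0 | hx0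
    · exact hx (tau_inj hx0 le_rfl h)
    · rw [← unlink_tau_neg] at h
      have := tau_inj (by linarith) le_rfl h
      exact hx (by linarith)
  -- the bi-infinite path
  set lam : ℝ → S := fun x => if 0 ≤ x then z (tau x) else y (tau x) with hlam
  have hlp : ∀ x, 0 ≤ x → lam x = z (tau x) := fun x hx => if_pos hx
  have hln : ∀ x, x ≤ 0 → lam x = y (tau x) := by
    intro x hx
    rcases hx.lt_or_eq with h | h
    · exact if_neg (not_le.mpr h)
    · rw [h, hlp 0 le_rfl, tau_zero, hz.zero, hy.zero]
  have hcont : Continuous lam := by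
    refine Continuous.if_le (hz.continuous.comp continuous_tau)
      (hy.continuous.comp continuous_tau) continuous_const continuous_id ?_
    intro x hx
    have hx' : (0 : ℝ) = x := hx
    subst hx'
    change z (tau 0) = y (tau 0)
    rw [tau_zero, hz.zero, hy.zero]
  have hV : ∀ x, lam x ∉ D.Vert := by
    intro x
    rcases le_total 0 x with h | h
    · rw [hlp x h]; exact hz.interior _ (tau_ne_one x)
    · rw [hln x h]; exact hy.interior _ (tau_ne_one x)
  have hinj : ∀ s t, lam s = lam t → s = t := by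
    have hpn : ∀ s t, 0 < s → t < 0 → lam s ≠ lam t := by
      intro s t hs ht h
      rw [hlp s hs.le, hln t ht.le] at h
      exact hd (tau t) (tau s) (ht0 t ht.ne) (tau_ne_one t) (ht0 s hs.ne') (tau_ne_one s) h.symm
    intro s t h
    rcases le_or_gt 0 s with hs | hs
    · rcases le_or_gt 0 t with ht | ht
      · rw [hlp s hs, hlp t ht] at h
        exact tau_inj hs ht (hzi h)
      · rcases hs.lt_or_eq with hs | hs
        · exact absurd h (hpn s t hs ht)
        · rw [hln s hs.symm.le, hln t ht.le] at h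
          have h1 := hyi h
          rw [← unlink_tau_neg s, ← unlink_tau_neg t] at h1
          have := tau_inj (by linarith) (by linarith) h1
          linarith
    · rcases le_or_gt t 0 with ht | ht
      · rw [hln s hs.le, hln t ht] at h
        have h1 := hyi h
        rw [← unlink_tau_neg s, ← unlink_tau_neg t] at h1
        have := tau_inj (by linarith) (by linarith) h1
        linarith
      · exact absurd h.symm (hpn t s ht hs)
  obtain ⟨g, hg, hg0⟩ := D.exists_lift hcont hV 0 (z₀ := 0) (by simp)
    (by rw [D.pr_zero, hlp 0 le_rfl, tau_zero, hz.zero])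
  have hgz : Tendsto g atTop (𝓝 (D.endPt z)) :=
    D.unlink_end hz hg.1.continuousOn (fun x _ => hg.2.1 x)
      (fun x hx => by rw [hg.2.2 x, hlp x hx]) hg0
  have hgy' : Tendsto (fun x => g (-x)) atTop (𝓝 (D.endPt y)) :=
    D.unlink_end hy (hg.1.comp continuous_neg).continuousOn (fun x _ => hg.2.1 _)
      (fun x hx => by rw [hg.2.2 (-x), hln (-x) (by linarith), unlink_tau_neg])
      (by rw [neg_zero, hg0])
  have hgy : Tendsto g atBot (𝓝 (D.endPt y)) := by
    have := hgy'.comp tendsto_neg_atBot_atTop
    refine this.congr fun x => ?_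
    simp
  have hgz' : Tendsto (fun x => g (-x)) atBot (𝓝 (D.endPt z)) :=
    hgz.comp tendsto_neg_atBot_atTop
  have ny := IsRayP.norm_endPt D hy
  have nz := IsRayP.norm_endPt D hz
  have hac : ∀ M : List ℤ, Continuous fun x => P.act M (g x) := fun M =>
    (P.continuousOn_act M).comp_continuous hg.1 fun x =>
      mem_closedBall_zero_iff.mpr (hg.2.1 x).le
  have hab : ∀ (M : List ℤ) (x : ℝ), ‖P.act M (g x)‖ < 1 := fun M x =>
    P.norm_act_lt M (hg.2.1 x)
  -- two lifts do not meet
  have main : ∀ s t, P.act L (g s) ≠ P.act L' (g t) := by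
    intro s t h
    have hM : Even (L.reverse ++ L').length := by
      rw [List.length_append, List.length_reverse]; exact hpar
    have h1 : g s = P.act (L.reverse ++ L') (g t) := by
      rw [P.act_append _ _ (hg.2.1 t).le, ← h, P.act_reverse _ (hg.2.1 s).le]
    have h2 : D.pr (g s) = D.pr (g t) := by
      rw [h1, D.pr_act hM (hg.2.1 t)]
    rw [hg.2.2, hg.2.2] at h2
    have h3 := hinj s t h2
    rw [h3] at h1
    have h4 := word_eq_of_act_eq hM (hg.2.1 t) h1.symm
    apply hne
    intro v
    have h5 := h4 v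
    rw [P.word_append] at h5
    have h6 := congrArg (P.word L) h5
    rw [P.word_reverse'] at h6
    exact h6.symm
  constructor
  · intro hl
    obtain ⟨s, t, h⟩ := crossing_lines (hac L) (hac L') (hab L) (hab L')
      (unlink_act P L hg.2.1 ny hgy) (unlink_act P L hg.2.1 nz hgz)
      (unlink_act P L' hg.2.1 ny hgy) (unlink_act P L' hg.2.1 nz hgz)
      (P.norm_act_eq L ny) (P.norm_act_eq L nz) (P.norm_act_eq L' ny) (P.norm_act_eq L' nz) hl
    exact main s t h
  · intro hl
    obtain ⟨s, t, h⟩ := crossing_lines (H := fun x => P.act L' (g (-x))) (hac L)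
      ((hac L').comp continuous_neg) (hab L) (fun x => hab L' (-x))
      (unlink_act P L hg.2.1 ny hgy) (unlink_act P L hg.2.1 nz hgz)
      (unlink_act P L' (fun x => hg.2.1 (-x)) nz hgz')
      (unlink_act P L' (fun x => hg.2.1 (-x)) ny hgy')
      (P.norm_act_eq L ny) (P.norm_act_eq L nz) (P.norm_act_eq L' nz) (P.norm_act_eq L' ny) hl
    exact main s (-t) h

end Dbl

end Pool.Agent.RAYT
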