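import Pool.Agent.RAYT.Strip
import Pool.Agent.RAYT.Unlink
import Pool.Agent.RAYT.Transport
import Pool.Agent.RAYT.Inst
import Pool.Agent.RAYT.Circ
import Pool.Agent.RAY.Tower

/-!
RAYT/Bridge: from the rays, isotopies and itineraries of `Pool.Agent.RAY` to those of this folder.

PROOFS.  `isRayP_of_isRay`: `dbl_up_zero`, `dbl_vert`, `dbl_up_pt`; a point `γ t`, `t ≠ 1`, is `∞`
or
a point of `ℂ` outside of `C`, hence no vertex.
`endPt_isotopic`: `s ↦ H (s, 1)` is a continuous path in the totally disconnected set `C` (its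
values
are points of `C` by `IsRay.one`; `OnePoint.some` is an open embedding), so it is constant; then all
`H (s, ·)` are `IsRayP j` and `endPt_homotopy`.
`itinP_of_itin`: `dbl_SU`, `dbl_SV` are `RAY.sideU`, `RAY.sideV` by definition; every `t` lies in
some `[τ i, τ (i+1)]`, so `η t ∉ D` for `t ≠ 1`, hence no vertex.
-/

set_option autoImplicit false

namespace Pool.Agent.RAYT

open Complex Set Topology Filter unitInterval

variable {N : ℕ} (P : Poly N)

theorem isRayP_of_isRay {C : Set ℂ} (hP : ∀ j, P.pt j ∈ C) {γ : I → OnePoint ℂ}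
    (h : RAY.IsRay C γ) {j : ℤ} (h1 : γ 1 = (P.pt j : OnePoint ℂ)) : (dbl P).IsRayP j γ where
  continuous := h.continuous
  zero := by rw [h.zero, dbl_up_zero]
  interior t ht hv := by
    obtain ⟨i, hi⟩ := (dbl_vert P).1 hv
    by_cases h0 : t = 0
    · subst h0
      rw [h.zero] at hi
      exact OnePoint.infty_ne_coe _ hi
    · obtain ⟨z, hz, hzt⟩ := h.interior t h0 ht
      rw [hzt] at hi
      exact hz (OnePoint.coe_injective hi ▸ hP i)
  one := by rw [h1, dbl_up_pt]

/-- isotopic rays (relative to `C`, which contains the vertices) have the same end point -/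
theorem endPt_isotopic {C : Set ℂ} (hP : ∀ j, P.pt j ∈ C) (hC : IsTotallyDisconnected C)
    {γ γ' : I → OnePoint ℂ} (h : RAY.Isotopic C γ γ') {j : ℤ} (h1 : γ 1 = (P.pt j : OnePoint ℂ)) :
    γ' 1 = (P.pt j : OnePoint ℂ) ∧ (dbl P).endPt γ = (dbl P).endPt γ' := by
  obtain ⟨H, hc, hr, h0, h1'⟩ := h
  have hT : IsTotallyDisconnected (((↑) : ℂ → OnePoint ℂ) '' C) :=
    (OnePoint.isOpenEmbedding_coe.isEmbedding.isTotallyDisconnected_image).2 hC
  have hcs : Continuous fun s : I => H (s, 1) := hc.comp (continuous_id.prodMk continuous_const)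
  have hpre : IsPreconnected (Set.range fun s : I => H (s, 1)) := isPreconnected_range hcs
  have hsub : (Set.range fun s : I => H (s, 1)) ⊆ ((↑) : ℂ → OnePoint ℂ) '' C := by
    rintro _ ⟨s, rfl⟩
    obtain ⟨c, hc', hcc⟩ := (hr s).one
    exact ⟨c, hc', hcc.symm⟩
  have hs := hT _ hsub hpre
  have hconst : ∀ s, H (s, 1) = (P.pt j : OnePoint ℂ) := fun s => by
    rw [← h1, ← h0 1]
    exact hs ⟨s, rfl⟩ ⟨0, rfl⟩
  refine ⟨by rw [← h1' 1]; exact hconst 1, ?_⟩
  have := (dbl P).endPt_homotopy hc (fun s => isRayP_of_isRay P hP (hr s) (hconst s))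
  have e0 : (fun t => H (0, t)) = γ := funext h0
  have e1 : (fun t => H (1, t)) = γ' := funext h1'
  rwa [e0, e1] at this

theorem itinP_of_itin {D : Set (OnePoint ℂ)} (hP : ∀ j, (P.pt j : OnePoint ℂ) ∈ D) {q : ℕ}
    {gap : ℤ → ℤ} (hg : ∀ i, RAY.gt q i ⊆ (dbl P).Gap (gap i)) {w : List ℤ} {η : I → OnePoint ℂ}
    (h : RAY.Itin D q w η) {j : ℤ} (h1 : η 1 = (P.pt j : OnePoint ℂ)) :
    (dbl P).ItinP j (w.map gap) η := by
  obtain ⟨τ, hm, h0, hl, hgp, hs⟩ := h.pieces
  refine ⟨⟨h.continuous, by rw [h.zero, dbl_up_zero], ?_, by rw [h1, dbl_up_pt]⟩, ?_⟩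
  · intro t ht hv
    obtain ⟨i, hi⟩ := (dbl_vert P).1 hv
    have hex : ∃ k, t ≤ τ (k + 1) := ⟨w.length, by rw [hl]; exact unitInterval.le_one t⟩
    classical
    have hk := Nat.find_spec hex
    have hkl : Nat.find hex ≤ w.length :=
      Nat.find_min' hex (by rw [hl]; exact unitInterval.le_one t)
    have hk0 : τ (Nat.find hex) ≤ t := by
      rcases Nat.eq_zero_or_pos (Nat.find hex) with hz | hpos
      · rw [hz, h0]; exact unitInterval.nonneg t
      · have := Nat.find_min hex (m := Nat.find hex - 1) (by omega)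
        rw [Nat.sub_add_cancel hpos] at this
        exact (not_le.1 this).le
    exact (hs _ hkl t hk0 hk).1 ht (hi ▸ hP i)
  · refine ⟨τ, hm, h0, by simpa using hl, ?_, ?_⟩
    · intro i hi
      have hi' : i < w.length := by simpa using hi
      refine ⟨(hgp i hi').1, ?_⟩
      have := hg _ (hgp i hi').2
      simpa using this
    · intro i hi t h2 h3
      have hi' : i ≤ w.length := by simpa using hi
      have := (hs i hi' t h2 h3).2
      unfold Dbl.sideP
      unfold RAY.side at this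
      rw [dbl_SU, dbl_SV]
      exact this

end Pool.Agent.RAYT
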