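import Pool.Agent.RAYT.Cross

/-!
RAYT/Lines: the crossing lemma for two lines in the open disc which converge to linked points of
the circle.

PROOFS.  `compactify`: `a x = G (h x)` for `0 < x < 1`, `h x = (2 x - 1) / (x (1 - x))` (an
increasing homeomorphism of `(0,1)` onto `ℝ`), `a x = A` for `x ≤ 0`, `a x = A'` for `x ≥ 1`;
continuity at `0` and `1` from the limits.
`crossing_lines`: compactify `G` to `a` and `H` to `b`, and apply `crossing` (Cross.lean) to `a`
and `b`: they meet, `a x = b y`.  Norms: the points `A, A', C, C'` have norm one and are different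
(`0 < ori` implies that the three points are different: `ori a a b = 0` etc.), the points of `G, H`
have norm less than one; so `a x = G s`, `b y = H t`.
-/

set_option autoImplicit false

namespace Pool.Agent.RAYT

open Complex Set Topology Filter

/-- the four points of the circle are different and in counterclockwise order -/
def Linked (a b c d : ℂ) : Prop := 0 < ori a b c ∧ 0 < ori b c d ∧ 0 < ori c d a ∧ 0 < ori d a b

theorem compactify {G : ℝ → ℂ} (hG : Continuous G) {A A' : ℂ} (hA : Tendsto G atBot (𝓝 A))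
    (hA' : Tendsto G atTop (𝓝 A')) : ∃ a : ℝ → ℂ, Continuous a ∧ a 0 = A ∧ a 1 = A' ∧
      ∀ x, a x = A ∨ a x = A' ∨ ∃ t, a x = G t := by
  classical
  let h : ℝ → ℝ := fun x => (1 - x)⁻¹ + -x⁻¹
  let a : ℝ → ℂ := fun x => if x ≤ 0 then A else if 1 ≤ x then A' else G (h x)
  have a1 : ∀ x, x ≤ 0 → a x = A := fun x hx => if_pos hx
  have a2 : ∀ x, 1 ≤ x → a x = A' := fun x hx => by
    have h0 : ¬ x ≤ 0 := by linarith
    change (if x ≤ 0 then A else if 1 ≤ x then A' else G (h x)) = A'
    rw [if_neg h0, if_pos hx]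
  have a3 : ∀ x, 0 < x → x < 1 → a x = G (h x) := fun x hx hx' => by
    change (if x ≤ 0 then A else if 1 ≤ x then A' else G (h x)) = G (h x)
    rw [if_neg (not_le.mpr hx), if_neg (not_le.mpr hx')]
  have hh : ∀ x, 0 < x → x < 1 → ContinuousAt h x := fun x hx hx' => by
    have h1 : (1 : ℝ) - x ≠ 0 := by linarith
    exact ((continuousAt_const.sub continuousAt_id).inv₀ h1).add
      ((continuousAt_id.inv₀ hx.ne').neg)
  have h0 : Tendsto h (𝓝[>] 0) atBot := by
    refine Tendsto.add_atBot (C := (1 - (0 : ℝ))⁻¹) ?_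
      (tendsto_neg_atTop_atBot.comp tendsto_inv_nhdsGT_zero)
    have h1 : ContinuousAt (fun x : ℝ => (1 - x)⁻¹) 0 :=
      (continuousAt_const.sub continuousAt_id).inv₀ (by norm_num)
    exact h1.tendsto.mono_left nhdsWithin_le_nhds
  have h1 : Tendsto h (𝓝[<] 1) atTop := by
    refine Tendsto.atTop_add (C := -(1 : ℝ)⁻¹) ?_ ?_
    · refine tendsto_inv_nhdsGT_zero.comp ?_
      rw [tendsto_nhdsWithin_iff]
      refine ⟨?_, ?_⟩
      · have h2 : ContinuousAt (fun x : ℝ => 1 - x) 1 := continuousAt_const.sub continuousAt_id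
        have h3 := h2.tendsto.mono_left (nhdsWithin_le_nhds (s := Iio 1))
        simpa using h3
      · filter_upwards [self_mem_nhdsWithin] with x hx
        have h2 : x < 1 := hx
        exact sub_pos.mpr h2
    · have h2 : ContinuousAt (fun x : ℝ => -x⁻¹) 1 :=
        (continuousAt_id.inv₀ (one_ne_zero)).neg
      exact h2.tendsto.mono_left nhdsWithin_le_nhds
  refine ⟨a, ?_, a1 0 le_rfl, a2 1 le_rfl, fun x => ?_⟩
  · rw [continuous_iff_continuousAt]
    intro x
    rcases lt_trichotomy x 0 with hx | hx | hx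
    · refine (continuousAt_const (y := A)).congr ?_
      filter_upwards [Iio_mem_nhds hx] with y hy
      exact (a1 y (le_of_lt hy)).symm
    · rw [hx]
      change Tendsto a (𝓝 0) (𝓝 (a 0))
      rw [a1 0 le_rfl, ← nhdsLE_sup_nhdsGT (0 : ℝ)]
      refine Tendsto.sup ?_ ?_
      · refine tendsto_const_nhds.congr' ?_
        filter_upwards [self_mem_nhdsWithin] with y hy
        exact (a1 y hy).symm
      · refine (hA.comp h0).congr' ?_
        filter_upwards [self_mem_nhdsWithin, nhdsWithin_le_nhds (Iio_mem_nhds one_pos)]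
          with y hy hy'
        exact (a3 y hy hy').symm
    · rcases lt_trichotomy x 1 with hx' | hx' | hx'
      · refine ((hG.continuousAt (x := h x)).comp (hh x hx hx')).congr ?_
        filter_upwards [Ioi_mem_nhds hx, Iio_mem_nhds hx'] with y hy hy'
        exact (a3 y hy hy').symm
      · rw [hx']
        change Tendsto a (𝓝 1) (𝓝 (a 1))
        rw [a2 1 le_rfl, ← nhdsLT_sup_nhdsGE (1 : ℝ)]
        refine Tendsto.sup ?_ ?_
        · refine (hA'.comp h1).congr' ?_
          filter_upwards [self_mem_nhdsWithin, nhdsWithin_le_nhds (Ioi_mem_nhds zero_lt_one)]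
            with y hy hy'
          exact (a3 y hy' hy).symm
        · refine tendsto_const_nhds.congr' ?_
          filter_upwards [self_mem_nhdsWithin] with y hy
          exact (a2 y hy).symm
      · refine (continuousAt_const (y := A')).congr ?_
        filter_upwards [Ioi_mem_nhds hx'] with y hy
        exact (a2 y (le_of_lt hy)).symm
  · rcases le_or_gt x 0 with hx | hx
    · exact Or.inl (a1 x hx)
    · rcases le_or_gt 1 x with hx' | hx'
      · exact Or.inr (Or.inl (a2 x hx'))
      · exact Or.inr (Or.inr ⟨_, a3 x hx hx'⟩)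

private theorem ori_self_left (a b : ℂ) : ori a a b = 0 := by
  simp [ori, cross]

private theorem ori_self_right (a b : ℂ) : ori a b b = 0 := by
  simp only [ori, cross]
  ring

private theorem norm_le_of_lim {G : ℝ → ℂ} {A A' : ℂ} (hG1 : ∀ t, ‖G t‖ < 1) (nA : ‖A‖ = 1)
    (nA' : ‖A'‖ = 1) {a : ℝ → ℂ} (h : ∀ x, a x = A ∨ a x = A' ∨ ∃ t, a x = G t) (x : ℝ) :
    ‖a x‖ ≤ 1 := by
  rcases h x with h | h | ⟨t, h⟩
  · rw [h, nA]
  · rw [h, nA']
  · rw [h]
    exact (hG1 t).le

theorem crossing_lines {G H : ℝ → ℂ} (hG : Continuous G) (hH : Continuous H)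
    (hG1 : ∀ t, ‖G t‖ < 1) (hH1 : ∀ t, ‖H t‖ < 1) {A A' C C' : ℂ}
    (hA : Tendsto G atBot (𝓝 A)) (hA' : Tendsto G atTop (𝓝 A'))
    (hC : Tendsto H atBot (𝓝 C)) (hC' : Tendsto H atTop (𝓝 C'))
    (nA : ‖A‖ = 1) (nA' : ‖A'‖ = 1) (nC : ‖C‖ = 1) (nC' : ‖C'‖ = 1)
    (hl : Linked A C A' C') : ∃ s t, G s = H t := by
  obtain ⟨a, ha, a0, a1, hax⟩ := compactify hG hA hA'
  obtain ⟨b, hb, b0, b1, hbx⟩ := compactify hH hC hC'
  obtain ⟨l1, l2, l3, l4⟩ := hl
  obtain ⟨s, t, hst⟩ := crossing ha hb (norm_le_of_lim hG1 nA nA' hax)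
    (norm_le_of_lim hH1 nC nC' hbx) (by rw [a0, nA]) (by rw [a1, nA']) (by rw [b0, nC])
    (by rw [b1, nC']) (by rw [a0, b0, a1]; exact l1) (by rw [a1, b0, b1]; exact l2)
    (by rw [a0, b1, a1]; exact l3) (by rw [a0, b0, b1]; exact l4)
  have hAC : A ≠ C := by
    rintro rfl
    rw [ori_self_left] at l1
    exact lt_irrefl 0 l1
  have hAC' : A ≠ C' := by
    rintro rfl
    rw [ori_self_left] at l4
    exact lt_irrefl 0 l4
  have hA'C : A' ≠ C := by
    rintro rfl
    rw [ori_self_left] at l2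
    exact lt_irrefl 0 l2
  have hA'C' : A' ≠ C' := by
    rintro rfl
    rw [ori_self_right] at l2
    exact lt_irrefl 0 l2
  have hn : ∀ z w : ℂ, ‖z‖ = 1 → ‖w‖ < 1 → z ≠ w := by
    rintro z w h1 h2 rfl
    exact absurd h1 h2.ne
  rcases hax s with h1 | h1 | ⟨x, h1⟩ <;> rcases hbx t with h2 | h2 | ⟨y, h2⟩ <;>
    rw [h1, h2] at hst
  · exact absurd hst hAC
  · exact absurd hst hAC'
  · exact absurd hst (hn _ _ nA (hH1 y))
  · exact absurd hst hA'C
  · exact absurd hst hA'C'
  · exact absurd hst (hn _ _ nA' (hH1 y))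
  · exact absurd hst.symm (hn _ _ nC (hG1 x))
  · exact absurd hst.symm (hn _ _ nC' (hG1 x))
  · exact ⟨x, y, hst⟩

end Pool.Agent.RAYT
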