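import Pool.Agent.RAYT.Horo
import Pool.Agent.RAYT.Lines

/-!
RAYT/Chord: chords of the disc.

PROOFS.  `norm_chord_lt`: strict convexity of the disc.  `horo_chord`: put
`u = (1 - x/(1+|x|))/2 → 0+`; `1 - Re (z conj A') = u (1 - Re (A conj A')) = u k`,
`1 - ‖z‖² = 2 u (1 - u) k` (`‖A‖ = ‖A'‖ = 1`), `k > 0`; so the quotient of the first by the square
root of the second tends to `0` as `x → ∞`.
`chords_cross`: let `m` be the common point, `m = σ C + (1 - σ) D`, `0 < σ < 1`.  `ori A B ·` is
affine, vanishes at `m`, and does not vanish at `C, D` (three different points of the circle are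
not collinear: a chord has no other points of norm one); so `ori A B C` and `ori A B D` have
opposite signs; similarly `ori C D A` and `ori C D B`.  If `ori A C B > 0`, `ori A B D > 0`, then,
from the identity `ori A C B + ori A B D = ori A C D + ori C B D`, both `ori A C D` and
`ori C B D` are positive (they have the same sign): `Linked A C B D`.  The other case is
symmetric.
-/

set_option autoImplicit false

namespace Pool.Agent.RAYT

open Complex Set Topology Filter unitInterval

/-- the open chord from `A` to `A'` -/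
noncomputable def chord (A A' : ℂ) (x : ℝ) : ℂ :=
  ((1 - x / (1 + |x|)) / 2 : ℝ) • A + ((1 + x / (1 + |x|)) / 2 : ℝ) • A'

private theorem chord_one_add_pos (x : ℝ) : 0 < 1 + |x| := by positivity

theorem continuous_chord (A A' : ℂ) : Continuous (chord A A') := by
  have h : Continuous fun x : ℝ => x / (1 + |x|) :=
    continuous_id.div (continuous_const.add continuous_abs) fun x => (chord_one_add_pos x).ne'
  unfold chord
  fun_prop

theorem chord_neg (A A' : ℂ) (x : ℝ) : chord A A' (-x) = chord A' A x := by
  unfold chord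
  rw [abs_neg, neg_div, sub_neg_eq_add, ← sub_eq_add_neg, add_comm]

/-- the two weights of a chord -/
private theorem chord_weights (x : ℝ) : ∃ p q : ℝ, 0 < p ∧ 0 < q ∧ p + q = 1 ∧
    p = (1 - x / (1 + |x|)) / 2 ∧ q = (1 + x / (1 + |x|)) / 2 := by
  refine ⟨_, _, ?_, ?_, ?_, rfl, rfl⟩
  · have h : x / (1 + |x|) < 1 := by
      rw [div_lt_one (chord_one_add_pos x)]; linarith [le_abs_self x]
    linarith
  · have h : -1 < x / (1 + |x|) := by
      rw [lt_div_iff₀ (chord_one_add_pos x)]; linarith [neg_abs_le x]
    linarith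
  · ring

private theorem chord_unit {A : ℂ} (h : ‖A‖ = 1) : A.re ^ 2 + A.im ^ 2 = 1 := by
  have := Complex.sq_norm A
  rw [h, Complex.normSq_apply] at this
  nlinarith

private theorem chord_k_pos {A A' : ℂ} (h1 : ‖A‖ = 1) (h1' : ‖A'‖ = 1) (h : A ≠ A') :
    0 < 1 - (A.re * A'.re + A.im * A'.im) := by
  have e1 := chord_unit h1
  have e2 := chord_unit h1'
  by_contra hcon
  push Not at hcon
  have e3 : A.re - A'.re = 0 := by
    nlinarith [sq_nonneg (A.re - A'.re), sq_nonneg (A.im - A'.im)]
  have e4 : A.im - A'.im = 0 := by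
    nlinarith [sq_nonneg (A.re - A'.re), sq_nonneg (A.im - A'.im)]
  exact h (Complex.ext (by linarith) (by linarith))

private theorem chord_norm_sq {A A' : ℂ} (h1 : ‖A‖ = 1) (h1' : ‖A'‖ = 1) {p q : ℝ}
    (hpq : p + q = 1) :
    ‖p • A + q • A'‖ ^ 2 = 1 - 2 * p * q * (1 - (A.re * A'.re + A.im * A'.im)) := by
  have e1 := chord_unit h1
  have e2 := chord_unit h1'
  rw [Complex.sq_norm, Complex.normSq_apply]
  simp only [add_re, add_im, real_smul, re_ofReal_mul, im_ofReal_mul]
  have e3 : q = 1 - p := by linarith
  subst e3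
  linear_combination p ^ 2 * e1 + (1 - p) ^ 2 * e2

theorem norm_chord_lt {A A' : ℂ} (h1 : ‖A‖ = 1) (h1' : ‖A'‖ = 1) (h : A ≠ A') (x : ℝ) :
    ‖chord A A' x‖ < 1 := by
  obtain ⟨p, q, hp, hq, hpq, ep, eq⟩ := chord_weights x
  have e : chord A A' x = p • A + q • A' := by rw [chord, ← ep, ← eq]
  have hk := chord_k_pos h1 h1' h
  have h2 := chord_norm_sq h1 h1' hpq
  rw [← e] at h2
  have h3 : 0 < 2 * p * q * (1 - (A.re * A'.re + A.im * A'.im)) := by positivity
  by_contra hcon
  push Not at hcon
  nlinarith

theorem horo_chord {A A' : ℂ} (h1 : ‖A‖ = 1) (h1' : ‖A'‖ = 1) (h : A ≠ A') :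
    Horo A' (chord A A') := by
  intro δ hδ
  have hk := chord_k_pos h1 h1' h
  set k := 1 - (A.re * A'.re + A.im * A'.im) with hkd
  filter_upwards [eventually_gt_atTop (k / (4 * δ ^ 2)), eventually_gt_atTop 0] with x hx hx0
  refine ⟨norm_chord_lt h1 h1' h x, ?_⟩
  obtain ⟨p, q, hp, hq, hpq, ep, eq⟩ := chord_weights x
  have e : chord A A' x = p • A + q • A' := by rw [chord, ← ep, ← eq]
  have h2 := chord_norm_sq h1 h1' hpq
  rw [← hkd] at h2
  have e2 := chord_unit h1'
  have h3 : 1 - (chord A A' x * (starRingEnd ℂ) A').re = p * k := by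
    rw [e]
    simp only [mul_re, conj_re, conj_im, add_re, add_im, real_smul, im_ofReal_mul, ofReal_re,
      ofReal_im]
    have e3 : q = 1 - p := by linarith
    rw [hkd, e3]
    linear_combination (p - 1) * e2
  have hxa : |x| = x := abs_of_pos hx0
  have hp1 : p * (2 * (1 + x)) = 1 := by
    rw [ep, hxa]; field_simp; ring
  have h4 : p * k < 2 * δ ^ 2 * q := by
    have h5 : k < 4 * δ ^ 2 * x := by
      rw [div_lt_iff₀ (by positivity)] at hx; linarith
    have h6 : q * (2 * (1 + x)) = 1 + 2 * x := by
      have : q = 1 - p := by linarith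
      rw [this]; linarith
    have h7 : p * k * (2 * (1 + x)) < 2 * δ ^ 2 * q * (2 * (1 + x)) := by
      calc p * k * (2 * (1 + x)) = k * (p * (2 * (1 + x))) := by ring
        _ = k := by rw [hp1, mul_one]
        _ < 2 * δ ^ 2 * (1 + 2 * x) := by nlinarith [sq_nonneg δ, pow_pos hδ 2]
        _ = 2 * δ ^ 2 * q * (2 * (1 + x)) := by rw [← h6]; ring
    exact lt_of_mul_lt_mul_right h7 (by positivity)
  rw [h3, e, h2]
  have h8 : p * k / δ < Real.sqrt (1 - (1 - 2 * p * q * k)) := by
    apply Real.lt_sqrt_of_sq_lt
    rw [div_pow, div_lt_iff₀ (by positivity)]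
    have h9 : (p * k) * (p * k) < (p * k) * (2 * δ ^ 2 * q) :=
      mul_lt_mul_of_pos_left h4 (by positivity)
    nlinarith
  rw [div_lt_iff₀ hδ] at h8
  linarith

private theorem chord_ori_ne {a b c : ℂ} (ha : ‖a‖ = 1) (hb : ‖b‖ = 1) (hc : ‖c‖ = 1)
    (hab : a ≠ b) (hac : a ≠ c) (hbc : b ≠ c) : ori a b c ≠ 0 := by
  intro h0
  have ea := chord_unit ha
  have eb := chord_unit hb
  have ec := chord_unit hc
  have h1 : (b.re - a.re) * (c.im - a.im) - (b.im - a.im) * (c.re - a.re) = 0 := by
    simpa only [ori, cross, sub_re, sub_im] using h0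
  have hd : 0 < (b.re - a.re) ^ 2 + (b.im - a.im) ^ 2 := by
    by_contra hcon
    push Not at hcon
    have e3 : b.re - a.re = 0 := by nlinarith [sq_nonneg (b.re - a.re), sq_nonneg (b.im - a.im)]
    have e4 : b.im - a.im = 0 := by nlinarith [sq_nonneg (b.re - a.re), sq_nonneg (b.im - a.im)]
    exact hab (Complex.ext (by linarith) (by linarith))
  set d := (b.re - a.re) ^ 2 + (b.im - a.im) ^ 2 with hdd
  set t := ((c.re - a.re) * (b.re - a.re) + (c.im - a.im) * (b.im - a.im)) / d with ht
  have htd : t * d = (c.re - a.re) * (b.re - a.re) + (c.im - a.im) * (b.im - a.im) := by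
    rw [ht, div_mul_cancel₀ _ hd.ne']
  have hre : c.re - a.re = t * (b.re - a.re) := by
    have : d * (c.re - a.re) = d * (t * (b.re - a.re)) := by
      calc d * (c.re - a.re) = (t * d) * (b.re - a.re) := by
            rw [htd, hdd]; linear_combination (-(b.im - a.im)) * h1
        _ = _ := by ring
    exact mul_left_cancel₀ hd.ne' this
  have him : c.im - a.im = t * (b.im - a.im) := by
    have : d * (c.im - a.im) = d * (t * (b.im - a.im)) := by
      calc d * (c.im - a.im) = (t * d) * (b.im - a.im) := by
            rw [htd, hdd]; linear_combination (b.re - a.re) * h1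
        _ = _ := by ring
    exact mul_left_cancel₀ hd.ne' this
  have h2 : t * (t - 1) * d = 0 := by
    have e1 : c.re = a.re + t * (b.re - a.re) := by linarith
    have e2 : c.im = a.im + t * (b.im - a.im) := by linarith
    rw [e1, e2] at ec
    rw [hdd]
    linear_combination ec - (1 - t) * ea - t * eb
  rcases mul_eq_zero.mp h2 with h3 | h3
  · rcases mul_eq_zero.mp h3 with h4 | h4
    · rw [h4] at hre him
      exact hac (Complex.ext (by linarith) (by linarith))
    · have h5 : t = 1 := by linarith
      rw [h5] at hre him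
      exact hbc (Complex.ext (by linarith) (by linarith))
  · exact hd.ne' h3

/-- chords with different end points which meet are crossed -/
theorem chords_cross {A B C D : ℂ} (hA : ‖A‖ = 1) (hB : ‖B‖ = 1) (hC : ‖C‖ = 1) (hD : ‖D‖ = 1)
    (hAB : A ≠ B) (hCD : C ≠ D) (hAC : A ≠ C) (hAD : A ≠ D) (hBC : B ≠ C) (hBD : B ≠ D) {s t : ℝ}
    (h : chord A B s = chord C D t) : Linked A C B D ∨ Linked A D B C := by
  obtain ⟨p, q, hp, hq, hpq, ep, eq⟩ := chord_weights s
  obtain ⟨p', q', hp', hq', hpq', ep', eq'⟩ := chord_weights t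
  have e : p • A + q • B = p' • C + q' • D := by
    rw [chord, chord, ← ep, ← eq, ← ep', ← eq'] at h; exact h
  have er : p * A.re + q * B.re = p' * C.re + q' * D.re := by
    have := congrArg Complex.re e
    simpa only [add_re, real_smul, re_ofReal_mul] using this
  have ei : p * A.im + q * B.im = p' * C.im + q' * D.im := by
    have := congrArg Complex.im e
    simpa only [add_im, real_smul, im_ofReal_mul] using this
  have eq1 : q = 1 - p := by linarith
  have eq1' : q' = 1 - p' := by linarith
  have h1 : p' * ori A B C + q' * ori A B D = 0 := by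
    simp only [ori, cross, sub_re, sub_im]
    rw [eq1, eq1'] at er ei
    rw [eq1']
    linear_combination (-(B.re - A.re)) * ei + (B.im - A.im) * er
  have h2 : p * ori C D A + q * ori C D B = 0 := by
    simp only [ori, cross, sub_re, sub_im]
    rw [eq1, eq1'] at er ei
    rw [eq1]
    linear_combination (D.re - C.re) * ei - (D.im - C.im) * er
  have h3 : ori A B C + ori C D A = ori A B D + ori C D B := by
    simp only [ori, cross, sub_re, sub_im]; ring
  have hX := chord_ori_ne hA hB hC hAB hAC hBC
  have c1 : ori A C B = - ori A B C := by simp only [ori, cross, sub_re, sub_im]; ring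
  have c2 : ori C B D = - ori C D B := by simp only [ori, cross, sub_re, sub_im]; ring
  have c3 : ori B D A = ori A B D := by simp only [ori, cross, sub_re, sub_im]; ring
  have c4 : ori D A C = ori C D A := by simp only [ori, cross, sub_re, sub_im]; ring
  have c5 : ori A D B = - ori A B D := by simp only [ori, cross, sub_re, sub_im]; ring
  have c6 : ori D B C = ori C D B := by simp only [ori, cross, sub_re, sub_im]; ring
  have c7 : ori B C A = ori A B C := by simp only [ori, cross, sub_re, sub_im]; ring
  have c8 : ori C A D = - ori C D A := by simp only [ori, cross, sub_re, sub_im]; ring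
  rcases lt_or_gt_of_ne hX with hX | hX
  · have hY : 0 < ori A B D := by
      by_contra hcon
      push Not at hcon
      nlinarith [mul_pos hp' (neg_pos.mpr hX), mul_nonneg hq'.le (neg_nonneg.mpr hcon)]
    have hW : ori C D B < 0 := by
      by_contra hcon
      push Not at hcon
      have hZ : 0 < ori C D A := by linarith
      nlinarith [mul_pos hp hZ, mul_nonneg hq.le hcon]
    have hZ : 0 < ori C D A := by
      by_contra hcon
      push Not at hcon
      nlinarith [mul_nonneg hp.le (neg_nonneg.mpr hcon), mul_pos hq (neg_pos.mpr hW)]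
    left
    refine ⟨?_, ?_, ?_, ?_⟩ <;> linarith
  · have hY : ori A B D < 0 := by
      by_contra hcon
      push Not at hcon
      nlinarith [mul_pos hp' hX, mul_nonneg hq'.le hcon]
    have hW : 0 < ori C D B := by
      by_contra hcon
      push Not at hcon
      have hZ : ori C D A < 0 := by linarith
      nlinarith [mul_pos hp (neg_pos.mpr hZ), mul_nonneg hq.le (neg_nonneg.mpr hcon)]
    have hZ : ori C D A < 0 := by
      by_contra hcon
      push Not at hcon
      nlinarith [mul_nonneg hp.le hcon, mul_pos hq hW]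
    right
    refine ⟨?_, ?_, ?_, ?_⟩ <;> linarith

end Pool.Agent.RAYT
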