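import Pool.Agent.RAYT.Sec

/-!
RAYT/Cov: `pr` is a covering map; lifts of maps.

PROOFS.  `isCoveringMap_prS`: for `x` not a vertex take `O, s` from `exists_section` at some `z`
with `pr z = x`; `O` is evenly covered: `prS ⁻¹ O` is the disjoint union of the open sets
`act M '' (s '' O)`, `M` in the deck group (even words modulo equality of `word`), on each of which
`prS` is a homeomorphism onto `O` with inverse `act M ∘ s` (`pr_act`, `eq_act_of_pr_eq`,
`word_eq_of_act_eq`).  See `Mathlib/Topology/Covering/Basic.lean` and `Quotient.lean`: there are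
criteria for a group acting with `IsQuotientMap`, fibres = orbits and disjoint neighbourhoods
(`exists_disjoint`); the group is the subgroup `{f | ∃ L, Even L.length ∧ ∀ v, f v = word L v}` of
`V3 ≃ₗ[ℝ] V3` acting on the open ball by `z ↦ proj (f (z,1))`.  `prS` is a quotient map because it
is continuous, surjective and open (`exists_section`).
`exists_lift`: `IsCoveringMap.existsUnique_continuousMap_lifts` (or the similar name), for
`A → {x // x ∉ Vert}`.  `lift_unique`: `IsCoveringMap.eq_of_comp_eq` ; `lift_unique_on`: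
`IsCoveringMap.eqOn_of_comp_eqOn`.  `exists_lift_map`: apply `exists_lift` with `A` the open ball
(a convex set, `Convex.contractibleSpace`, or homeomorphic to `ℂ`) and the map `φ ∘ pr`; extend by
`0` outside the ball.
-/

set_option autoImplicit false

namespace Pool.Agent.RAYT

open Complex Set Topology Filter

namespace Dbl

variable {N : ℕ} {P : Poly N} {S : Type*} [TopologicalSpace S] (D : Dbl P S)

/-- `pr` as a map of subtypes -/
noncomputable def prS (z : Metric.ball (0 : ℂ) 1) : {x : S // x ∉ D.Vert} :=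
  ⟨D.pr z, D.pr_not_vert (mem_ball_zero_iff.mp z.2)⟩

/-- even words as permutations of the open disc -/
private noncomputable def actPerm (P : Poly N) (L : List ℤ) :
    Equiv.Perm (Metric.ball (0 : ℂ) 1) where
  toFun z := ⟨P.act L z, mem_ball_zero_iff.mpr (P.norm_act_lt L (mem_ball_zero_iff.mp z.2))⟩
  invFun z := ⟨P.act L.reverse z,
    mem_ball_zero_iff.mpr (P.norm_act_lt _ (mem_ball_zero_iff.mp z.2))⟩
  left_inv z := Subtype.ext (P.act_reverse L (mem_ball_zero_iff.mp z.2).le)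
  right_inv z := Subtype.ext (P.act_reverse' L (mem_ball_zero_iff.mp z.2).le)

/-- the deck group -/
private def deck (P : Poly N) : Subgroup (Equiv.Perm (Metric.ball (0 : ℂ) 1)) where
  carrier := {f | ∃ L : List ℤ, Even L.length ∧ ∀ z, (f z : ℂ) = P.act L z}
  mul_mem' := by
    rintro f g ⟨L, hL, h⟩ ⟨M, hM, h'⟩
    refine ⟨L ++ M, by rw [List.length_append]; exact hL.add hM, fun z => ?_⟩
    rw [Equiv.Perm.mul_apply, h, h', P.act_append L M (mem_ball_zero_iff.mp z.2).le]
  one_mem' := ⟨[], by simp, fun z => (P.act_nil _).symm⟩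
  inv_mem' := by
    rintro f ⟨L, hL, h⟩
    refine ⟨L.reverse, by rw [List.length_reverse]; exact hL, fun z => ?_⟩
    obtain ⟨w, rfl⟩ := f.surjective z
    rw [h, P.act_reverse L (mem_ball_zero_iff.mp w.2).le]
    exact congrArg Subtype.val (f.symm_apply_apply w)

private theorem prS_continuous : Continuous D.prS :=
  Continuous.subtype_mk (D.continuousOn_pr.domRestrict) _

private theorem prS_surjective : Function.Surjective D.prS := by
  rintro ⟨x, hx⟩
  have key : ∃ L z, D.Cell L x z := by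
    rcases (Set.mem_univ x : x ∈ univ) with -
    have hc : x ∈ D.SU ∪ D.SV := by rw [D.cover]; trivial
    rcases hc with hc | hc
    · exact ⟨[], _, hx, Or.inl ⟨by simp, hc⟩, rfl⟩
    · exact ⟨[0], _, hx, Or.inr ⟨by simp, hc⟩, rfl⟩
  obtain ⟨L, z, h⟩ := key
  exact ⟨⟨z, mem_ball_zero_iff.mpr h.norm_lt⟩, Subtype.ext (D.pr_eq h)⟩

private theorem prS_isOpenMap : IsOpenMap D.prS := by
  intro U hU
  rw [isOpen_iff_mem_nhds]
  rintro _ ⟨z, hzU, rfl⟩
  obtain ⟨U', hU', rfl⟩ := isOpen_induced_iff.mp hU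
  obtain ⟨O, hO, hzO, s, hs, hsz, hsO, hsec⟩ := D.exists_section (mem_ball_zero_iff.mp z.2)
  have hW : IsOpen (O ∩ s ⁻¹' U') := hs.isOpen_inter_preimage hO hU'
  have hmem : ((↑) : {x : S // x ∉ D.Vert} → S) ⁻¹' (O ∩ s ⁻¹' U') ∈ 𝓝 (D.prS z) := by
    refine (hW.preimage continuous_subtype_val).mem_nhds ⟨hzO, ?_⟩
    change s (D.pr z) ∈ U'
    rw [hsz]; exact hzU
  refine Filter.mem_of_superset hmem ?_
  rintro ⟨x, hx⟩ ⟨hxO, hxU⟩
  exact ⟨⟨s x, mem_ball_zero_iff.mpr (hsec x hxO).1⟩, hxU, Subtype.ext (hsec x hxO).2⟩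

theorem isCoveringMap_prS : IsCoveringMap D.prS := by
  have hq : IsQuotientCoveringMap D.prS (deck P) := by
    refine
      { toIsQuotientMap := D.prS_isOpenMap.isQuotientMap D.prS_continuous D.prS_surjective
        continuous_const_smul := ?_
        apply_eq_iff_mem_orbit := ?_
        disjoint := ?_ }
    · rintro ⟨f, L, hL, hf⟩
      have : (fun z : Metric.ball (0 : ℂ) 1 => ((f z : Metric.ball (0 : ℂ) 1) : ℂ)) =
          fun z : Metric.ball (0 : ℂ) 1 => P.act L (z : ℂ) := funext hf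
      refine continuous_induced_rng.mpr ?_
      change Continuous (fun z : Metric.ball (0 : ℂ) 1 => ((f z : Metric.ball (0 : ℂ) 1) : ℂ))
      rw [this]
      exact ((P.continuousOn_act L).mono Metric.ball_subset_closedBall).domRestrict
    · intro e₁ e₂
      have h1 := mem_ball_zero_iff.mp e₁.2
      have h2 := mem_ball_zero_iff.mp e₂.2
      constructor
      · intro h
        obtain ⟨L, hL, hz⟩ := D.eq_act_of_pr_eq h2 h1 (congrArg Subtype.val h).symm
        exact ⟨⟨actPerm P L, L, hL, fun z => rfl⟩, Subtype.ext hz.symm⟩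
      · rintro ⟨⟨f, L, hL, hf⟩, rfl⟩
        apply Subtype.ext
        change D.pr (f e₂) = D.pr e₂
        rw [hf, D.pr_act hL h2]
    · intro e
      have hdis : ∃ W ∈ 𝓝 (e : ℂ), W ⊆ Metric.ball (0 : ℂ) 1 ∧
          ∀ L : List ℤ, Even L.length → ∀ w ∈ W, P.act L w ∈ W → ∀ v, P.word L v = v := by
        first
          | exact exists_disjoint D (mem_ball_zero_iff.mp e.2)
          | exact exists_disjoint (mem_ball_zero_iff.mp e.2)
      obtain ⟨W, hW, hWb, hd⟩ := hdis
      refine ⟨(↑) ⁻¹' W, continuous_subtype_val.continuousAt.preimage_mem_nhds hW, ?_⟩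
      rintro ⟨f, L, hL, hf⟩ ⟨_, ⟨w, hw, rfl⟩, hw'⟩
      have h1 : P.act L w ∈ W := by
        have : ((f w : Metric.ball (0 : ℂ) 1) : ℂ) ∈ W := hw'
        rwa [hf] at this
      have h2 := hd L hL w hw h1
      apply Subtype.ext
      apply Equiv.ext
      intro z
      apply Subtype.ext
      change ((f z : Metric.ball (0 : ℂ) 1) : ℂ) = z
      rw [hf, P.act_congr (L' := []) (fun v => by rw [h2]; rfl), P.act_nil]
  exact hq.isCoveringMap

/-- existence of lifts of maps defined on `ℝ` or `ℝ × ℝ` (or any simply connected, locally path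
connected space) -/
theorem exists_lift {A : Type*} [TopologicalSpace A] [SimplyConnectedSpace A]
    [LocallyPathConnectedSpace A] {γ : A → S} (hγ : Continuous γ) (hV : ∀ a, γ a ∉ D.Vert)
    (a₀ : A) {z₀ : ℂ} (hz : ‖z₀‖ < 1) (h0 : D.pr z₀ = γ a₀) :
    ∃ g : A → ℂ, D.IsLift γ g ∧ g a₀ = z₀ := by
  obtain ⟨F, ⟨hF1, hF2⟩, -⟩ := D.isCoveringMap_prS.existsUnique_continuousMap_lifts
    ⟨fun a => (⟨γ a, hV a⟩ : {x : S // x ∉ D.Vert}), Continuous.subtype_mk hγ _⟩ a₀
    ⟨z₀, mem_ball_zero_iff.mpr hz⟩ (Subtype.ext h0)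
  refine ⟨fun a => F a, ⟨continuous_subtype_val.comp F.continuous, fun t =>
    mem_ball_zero_iff.mp (F t).2, fun t => ?_⟩, congrArg Subtype.val hF1⟩
  exact congrArg Subtype.val (congrFun hF2 t)

theorem lift_unique {A : Type*} [TopologicalSpace A] [PreconnectedSpace A] {γ : A → S}
    {g g' : A → ℂ} (hg : D.IsLift γ g) (hg' : D.IsLift γ g') (a₀ : A) (h0 : g a₀ = g' a₀) :
    g = g' := by
  have h := D.isCoveringMap_prS.eq_of_comp_eq
    (g₁ := fun a => (⟨g a, mem_ball_zero_iff.mpr (hg.2.1 a)⟩ : Metric.ball (0 : ℂ) 1))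
    (g₂ := fun a => (⟨g' a, mem_ball_zero_iff.mpr (hg'.2.1 a)⟩ : Metric.ball (0 : ℂ) 1))
    (Continuous.subtype_mk hg.1 _) (Continuous.subtype_mk hg'.1 _)
    (funext fun a => Subtype.ext ((hg.2.2 a).trans (hg'.2.2 a).symm)) a₀ (Subtype.ext h0)
  exact funext fun a => congrArg Subtype.val (congrFun h a)

/-- uniqueness on a preconnected set -/
theorem lift_unique_on {A : Type*} [TopologicalSpace A] {s : Set A} (hs : IsPreconnected s)
    {g g' : A → ℂ} (hg : ContinuousOn g s) (hg' : ContinuousOn g' s)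
    (hb : ∀ a ∈ s, ‖g a‖ < 1) (hb' : ∀ a ∈ s, ‖g' a‖ < 1)
    (h : ∀ a ∈ s, D.pr (g a) = D.pr (g' a)) {a₀ : A} (ha₀ : a₀ ∈ s) (h0 : g a₀ = g' a₀) :
    ∀ a ∈ s, g a = g' a := by
  have : PreconnectedSpace s := Subtype.preconnectedSpace hs
  have h := D.isCoveringMap_prS.eq_of_comp_eq
    (g₁ := fun a : s => (⟨g a, mem_ball_zero_iff.mpr (hb a a.2)⟩ : Metric.ball (0 : ℂ) 1))
    (g₂ := fun a : s => (⟨g' a, mem_ball_zero_iff.mpr (hb' a a.2)⟩ : Metric.ball (0 : ℂ) 1))
    (Continuous.subtype_mk hg.domRestrict _) (Continuous.subtype_mk hg'.domRestrict _)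
    (funext fun a => Subtype.ext (h a a.2)) ⟨a₀, ha₀⟩ (Subtype.ext h0)
  exact fun a ha => congrArg Subtype.val (congrFun h ⟨a, ha⟩)

variable {N' : ℕ} {P' : Poly N'} {S' : Type*} [TopologicalSpace S'] (D' : Dbl P' S')

/-- the lift of a continuous map between the bases -/
theorem exists_lift_map {φ : S → S'} (hφ : Continuous φ) (hV : ∀ x, x ∉ D.Vert → φ x ∉ D'.Vert)
    {z₀ : ℂ} (hz : ‖z₀‖ < 1) (h0 : D'.pr z₀ = φ (D.up 0)) :
    ∃ Φ : ℂ → ℂ, ContinuousOn Φ (Metric.ball (0 : ℂ) 1) ∧ Φ 0 = z₀ ∧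
      ∀ z, ‖z‖ < 1 → ‖Φ z‖ < 1 ∧ D'.pr (Φ z) = φ (D.pr z) := by
  classical
  have : ContractibleSpace (Metric.ball (0 : ℂ) 1) := Metric.contractibleSpace_ball one_pos
  have : LocallyPathConnectedSpace (Metric.ball (0 : ℂ) 1) :=
    Metric.isOpen_ball.locallyPathConnectedSpace
  have hc : Continuous (fun a : Metric.ball (0 : ℂ) 1 => φ (D.pr a)) :=
    hφ.comp D.continuousOn_pr.domRestrict
  obtain ⟨g, ⟨hg1, hg2, hg3⟩, hg4⟩ := D'.exists_lift hc
    (fun a => hV _ (D.pr_not_vert (mem_ball_zero_iff.mp a.2)))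
    ⟨0, Metric.mem_ball_self one_pos⟩ hz (by rw [h0, D.pr_zero])
  have hext : ∀ (z : ℂ) (h : z ∈ Metric.ball (0 : ℂ) 1),
      (fun z : ℂ => if h : z ∈ Metric.ball (0 : ℂ) 1 then g ⟨z, h⟩ else 0) z = g ⟨z, h⟩ :=
    fun z h => dif_pos h
  refine ⟨fun z => if h : z ∈ Metric.ball (0 : ℂ) 1 then g ⟨z, h⟩ else 0, ?_, ?_, ?_⟩
  · rw [continuousOn_iff_continuous_domRestrict]
    refine hg1.congr fun z => ?_
    exact (hext z z.2).symm
  · rw [← hg4]
    exact hext 0 (Metric.mem_ball_self one_pos)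
  · intro z hz1
    have h := hext z (mem_ball_zero_iff.mpr hz1)
    simp only at h ⊢
    rw [h]
    exact ⟨hg2 _, hg3 _⟩

end Dbl

end Pool.Agent.RAYT
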