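import Mathlib

/-!
RAYT/Cross (MP_5d2250_gt, ends theory): two paths in the closed unit disc with linked end points
on the unit circle meet.
-/

set_option autoImplicit false

namespace Pool.Agent.RAYT

open Complex Set Topology

/-- the cross product of two plane vectors -/
noncomputable def cross (z w : ℂ) : ℝ := z.re * w.im - z.im * w.re

/-- twice the signed area of the triangle `a b c` -/
noncomputable def ori (a b c : ℂ) : ℝ := cross (b - a) (c - a)

theorem ori_rot (a b c : ℂ) : ori b c a = ori a b c := by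
  simp only [ori, cross, sub_re, sub_im]; ring

theorem ori_swap (a b c : ℂ) : ori b a c = - ori a b c := by
  simp only [ori, cross, sub_re, sub_im]; ring

/-- the inner product `Re (conj c * z)` is positive for `z = c - w`, `|c| = 1`, `|w| <= 1`,
`w <> c` -/
theorem inner_pos {c w : ℂ} (hc : ‖c‖ = 1) (hw : ‖w‖ ≤ 1) (h : c ≠ w) :
    0 < ((starRingEnd ℂ) c * (c - w)).re := by
  have h1 : ((starRingEnd ℂ) c * (c - w)).re =
      (c.re ^ 2 + c.im ^ 2) - (c.re * w.re + c.im * w.im) := by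
    simp only [mul_re, conj_re, conj_im, sub_re, sub_im]; ring
  have hc2 : c.re ^ 2 + c.im ^ 2 = 1 := by
    have := Complex.sq_norm c
    rw [hc, Complex.normSq_apply] at this
    nlinarith
  have hw2 : w.re ^ 2 + w.im ^ 2 ≤ 1 := by
    have := Complex.sq_norm w
    rw [Complex.normSq_apply] at this
    nlinarith [norm_nonneg w]
  rw [h1, hc2]
  have h3 : 0 < (c.re - w.re) ^ 2 + (c.im - w.im) ^ 2 := by
    by_contra hcon
    push Not at hcon
    have e1 : c.re - w.re = 0 := by nlinarith [sq_nonneg (c.re - w.re), sq_nonneg (c.im - w.im)]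
    have e2 : c.im - w.im = 0 := by nlinarith [sq_nonneg (c.re - w.re), sq_nonneg (c.im - w.im)]
    exact h (Complex.ext (by linarith) (by linarith))
  nlinarith

/-- change of the argument along a path in a half plane -/
theorem edge {Θ : ℝ → ℝ} (hΘ : Continuous Θ) {F : ℝ → ℂ} (hF : Continuous F) {c : ℂ}
    (hc : ∀ t, 0 < ((starRingEnd ℂ) c * F t).re)
    (hl : ∀ t, F t = ‖F t‖ * Complex.exp (Θ t * Complex.I))
    (hcr : cross (F 0) (F 1) < 0) : Θ 1 < Θ 0 := by
  -- the principal argument relative to `c`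
  set ψ : ℝ → ℝ := fun t => Complex.arg ((starRingEnd ℂ) c * F t) with hψ
  have hψc : Continuous ψ := by
    rw [continuous_iff_continuousAt]
    intro t
    have h1 : (starRingEnd ℂ) c * F t ∈ Complex.slitPlane := Or.inl (hc t)
    exact ContinuousAt.comp (f := fun t => (starRingEnd ℂ) c * F t) (x := t)
      (Complex.continuousAt_arg h1) (by fun_prop)
  have hne : ∀ t, F t ≠ 0 := by
    intro t h; have := hc t; rw [h] at this; simp at this
  have hc0 : c ≠ 0 := by
    rintro rfl; have := hc 0; simp at this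
  have key : ∀ t, Circle.exp (Θ t - ψ t) = Circle.exp (Complex.arg c) := by
    intro t
    apply Circle.ext
    rw [Circle.coe_exp, Circle.coe_exp]
    have e1 : ((starRingEnd ℂ) c * F t) =
        ‖(starRingEnd ℂ) c * F t‖ * Complex.exp (ψ t * Complex.I) :=
      (Complex.norm_mul_exp_arg_mul_I _).symm
    have e2 : c = ‖c‖ * Complex.exp (Complex.arg c * Complex.I) :=
      (Complex.norm_mul_exp_arg_mul_I _).symm
    have e3 : (starRingEnd ℂ) c * c = (‖c‖ ^ 2 : ℝ) := by
      rw [mul_comm, Complex.mul_conj, Complex.normSq_eq_norm_sq]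
    have hcn : (‖c‖ : ℂ) ≠ 0 := by
      simpa using hc0
    have hFn : (‖F t‖ : ℂ) ≠ 0 := by
      simpa using hne t
    have e4 : ‖(starRingEnd ℂ) c * F t‖ = ‖c‖ * ‖F t‖ := by
      rw [norm_mul, Complex.norm_conj]
    rw [e4] at e1
    have e5 := hl t
    push_cast at e1
    -- exp(Θ) * conj c = ‖c‖ exp ψ
    have e6 : (starRingEnd ℂ) c * Complex.exp (Θ t * Complex.I) =
        ‖c‖ * Complex.exp (ψ t * Complex.I) := by
      have : (‖F t‖ : ℂ) * ((starRingEnd ℂ) c * Complex.exp (Θ t * Complex.I)) =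
          ‖F t‖ * (‖c‖ * Complex.exp (ψ t * Complex.I)) := by
        calc (‖F t‖ : ℂ) * ((starRingEnd ℂ) c * Complex.exp (Θ t * Complex.I))
            = (starRingEnd ℂ) c * (‖F t‖ * Complex.exp (Θ t * Complex.I)) := by ring
          _ = (starRingEnd ℂ) c * F t := by rw [← e5]
          _ = _ := by rw [e1]; ring
      exact mul_left_cancel₀ hFn this
    have e7 : c * ((starRingEnd ℂ) c * Complex.exp (Θ t * Complex.I)) =
        (‖c‖ : ℂ) ^ 2 * Complex.exp (Θ t * Complex.I) := by
      have e3' : c * (starRingEnd ℂ) c = (‖c‖ : ℂ) ^ 2 := by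
        rw [mul_comm, e3]; push_cast; ring
      rw [← mul_assoc, e3']
    rw [e6] at e7
    have e8 : (‖c‖ : ℂ) ^ 2 * (Complex.exp (Complex.arg c * Complex.I) *
        Complex.exp (ψ t * Complex.I)) = (‖c‖ : ℂ) ^ 2 * Complex.exp (Θ t * Complex.I) := by
      rw [← e7]
      nth_rewrite 3 [e2]
      ring
    have e9 := mul_left_cancel₀ (pow_ne_zero 2 hcn) e8
    have e10 : Complex.exp (((Θ t - ψ t : ℝ) : ℂ) * Complex.I) =
        Complex.exp (Θ t * Complex.I) / Complex.exp (ψ t * Complex.I) := by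
      rw [← Complex.exp_sub]; congr 1; push_cast; ring
    rw [e10, ← e9, mul_div_assoc, div_self (Complex.exp_ne_zero _), mul_one]
  have hconst : ∀ s t, Θ s - ψ s = Θ t - ψ t :=
    Circle.isCoveringMap_exp.const_of_comp (g := fun t => Θ t - ψ t) (hΘ.sub hψc)
      (fun a a' => by rw [key a, key a'])
  have hψb : ∀ t, |ψ t| < Real.pi / 2 := by
    intro t
    rw [Complex.abs_arg_lt_pi_div_two_iff]
    exact Or.inl (hc t)
  have hd : Θ 1 - Θ 0 = ψ 1 - ψ 0 := by have := hconst 0 1; linarith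
  by_contra hcon
  push Not at hcon
  have hb0 := abs_lt.mp (hψb 0)
  have hb1 := abs_lt.mp (hψb 1)
  have h0 : 0 ≤ Θ 1 - Θ 0 := by linarith
  have h1 : Θ 1 - Θ 0 ≤ Real.pi := by rw [hd]; linarith
  have hs : 0 ≤ Real.sin (Θ 1 - Θ 0) := Real.sin_nonneg_of_nonneg_of_le_pi h0 h1
  have hcs : cross (F 0) (F 1) = ‖F 0‖ * ‖F 1‖ * Real.sin (Θ 1 - Θ 0) := by
    have re0 : (F 0).re = ‖F 0‖ * Real.cos (Θ 0) := by
      conv_lhs => rw [hl 0]
      rw [Complex.re_ofReal_mul, Complex.exp_ofReal_mul_I_re]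
    have im0 : (F 0).im = ‖F 0‖ * Real.sin (Θ 0) := by
      conv_lhs => rw [hl 0]
      rw [Complex.im_ofReal_mul, Complex.exp_ofReal_mul_I_im]
    have re1 : (F 1).re = ‖F 1‖ * Real.cos (Θ 1) := by
      conv_lhs => rw [hl 1]
      rw [Complex.re_ofReal_mul, Complex.exp_ofReal_mul_I_re]
    have im1 : (F 1).im = ‖F 1‖ * Real.sin (Θ 1) := by
      conv_lhs => rw [hl 1]
      rw [Complex.im_ofReal_mul, Complex.exp_ofReal_mul_I_im]
    rw [cross, re0, im0, re1, im1, Real.sin_sub]; ring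
  rw [hcs] at hcr
  have := mul_nonneg (mul_nonneg (norm_nonneg (F 0)) (norm_nonneg (F 1))) hs
  linarith

/-- **Crossing lemma.**  Two paths in the closed unit disc whose end points lie on the circle and
are linked have a common point. -/
theorem crossing {a b : ℝ → ℂ} (ha : Continuous a) (hb : Continuous b)
    (ha1 : ∀ t, ‖a t‖ ≤ 1) (hb1 : ∀ t, ‖b t‖ ≤ 1)
    (ha0 : ‖a 0‖ = 1) (ha01 : ‖a 1‖ = 1) (hb0 : ‖b 0‖ = 1) (hb01 : ‖b 1‖ = 1)
    (h1 : 0 < ori (a 0) (b 0) (a 1)) (h2 : 0 < ori (b 0) (a 1) (b 1))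
    (h3 : 0 < ori (a 1) (b 1) (a 0)) (h4 : 0 < ori (b 1) (a 0) (b 0)) :
    ∃ s t, a s = b t := by
  by_contra hcon
  push Not at hcon
  have hne : ∀ p : ℝ × ℝ, a p.1 - b p.2 ≠ 0 := fun p => sub_ne_zero.mpr (hcon _ _)
  -- the direction map and its lift
  let u : C(ℝ × ℝ, Circle) :=
    ⟨fun p => ⟨(a p.1 - b p.2) / ‖a p.1 - b p.2‖, by
        rw [Submonoid.unitSphere, Submonoid.mem_mk, Subsemigroup.mem_mk, mem_sphere_zero_iff_norm]
        rw [norm_div, Complex.norm_real, norm_norm, div_self (norm_ne_zero_iff.mpr (hne p))]⟩,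
      by
        refine Continuous.subtype_mk ?_ _
        refine Continuous.div (by fun_prop) (by fun_prop) fun p => ?_
        simpa using hne p⟩
  obtain ⟨e₀, he₀⟩ : ∃ x : ℝ, Circle.exp x = u (0, 0) :=
    ⟨Complex.arg (u (0, 0)), by rw [Circle.exp_arg]⟩
  obtain ⟨Φ, ⟨-, hΦ⟩, -⟩ :=
    Circle.isCoveringMap_exp.existsUnique_continuousMap_lifts u (0, 0) e₀ he₀
  have hl : ∀ s t, a s - b t = ‖a s - b t‖ * Complex.exp (Φ (s, t) * Complex.I) := by
    intro s t
    have h5 : Circle.exp (Φ (s, t)) = u (s, t) := congrFun hΦ (s, t)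
    have h6 : Complex.exp (Φ (s, t) * Complex.I) = (a s - b t) / ‖a s - b t‖ := by
      rw [← Circle.coe_exp, h5]
      rfl
    rw [h6, mul_div_cancel₀]
    simpa using hne (s, t)
  have c1 : Φ (1, 0) < Φ (0, 0) := by
    refine edge (Θ := fun s => Φ (s, 0)) (F := fun s => a s - b 0) (c := -b 0) (by fun_prop)
      (by fun_prop) (fun t => ?_) (fun t => hl t 0) ?_
    · have := inner_pos hb0 (ha1 t) (fun h => hcon t 0 h.symm)
      have e : (starRingEnd ℂ) (-b 0) * (a t - b 0) = (starRingEnd ℂ) (b 0) * (b 0 - a t) := by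
        rw [map_neg]; ring
      rw [e]; exact this
    · have e : cross (a 0 - b 0) (a 1 - b 0) = - ori (a 0) (b 0) (a 1) := by
        rw [← ori_swap]; rfl
      rw [e]; linarith
  have c2 : Φ (1, 1) < Φ (1, 0) := by
    refine edge (Θ := fun s => Φ (1, s)) (F := fun s => a 1 - b s) (c := a 1) (by fun_prop)
      (by fun_prop) (fun t => ?_) (fun t => hl 1 t) ?_
    · exact inner_pos ha01 (hb1 t) (hcon 1 t)
    · have e : cross (a 1 - b 0) (a 1 - b 1) = - ori (b 0) (a 1) (b 1) := by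
        simp only [ori, cross, sub_re, sub_im]; ring
      rw [e]; linarith
  have c3 : Φ (0, 1) < Φ (1, 1) := by
    have := edge (Θ := fun s => Φ (1 - s, 1)) (F := fun s => a (1 - s) - b 1) (c := -b 1)
      (by fun_prop) (by fun_prop) (fun t => ?_) (fun t => hl (1 - t) 1) ?_
    · simpa using this
    · have := inner_pos hb01 (ha1 (1 - t)) (fun h => hcon (1 - t) 1 h.symm)
      have e : (starRingEnd ℂ) (-b 1) * (a (1 - t) - b 1) =
          (starRingEnd ℂ) (b 1) * (b 1 - a (1 - t)) := by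
        rw [map_neg]; ring
      rw [e]; exact this
    · have e : cross (a (1 - 0) - b 1) (a (1 - 1) - b 1) = - ori (a 1) (b 1) (a 0) := by
        rw [sub_zero, sub_self]
        simp only [ori, cross, sub_re, sub_im]; ring
      rw [e]; linarith
  have c4 : Φ (0, 0) < Φ (0, 1) := by
    have := edge (Θ := fun s => Φ (0, 1 - s)) (F := fun s => a 0 - b (1 - s)) (c := a 0)
      (by fun_prop) (by fun_prop) (fun t => ?_) (fun t => hl 0 (1 - t)) ?_
    · simpa using this
    · exact inner_pos ha0 (hb1 (1 - t)) (hcon 0 (1 - t))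
    · have e : cross (a 0 - b (1 - 0)) (a 0 - b (1 - 1)) = - ori (b 1) (a 0) (b 0) := by
        rw [sub_zero, sub_self]
        simp only [ori, cross, sub_re, sub_im]; ring
      rw [e]; linarith
  linarith

end Pool.Agent.RAYT
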