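import Mathlib
import Pool.Agent.RAYT.Cross

/-!
RAYT/Defs (MP_5d2250_gt, topological core): Lorentz 3-space, the ideal polygon `P` (vertices on the
unit circle), reflections, the double `S` of the polygon, the covering map from the open disc.
-/

set_option autoImplicit false

namespace Pool.Agent.RAYT

open Complex Set Topology Filter

/-- vectors of Lorentz 3-space, written `(z, t)` -/
abbrev V3 := ℂ × ℝ

/-- the Lorentz form `Re (z conj w) - t s` -/
noncomputable def B (v w : V3) : ℝ := v.1.re * w.1.re + v.1.im * w.1.im - v.2 * w.2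

/-- the determinant of three vectors -/
noncomputable def tri (u v w : V3) : ℝ :=
  u.1.re * (v.1.im * w.2 - v.2 * w.1.im) - u.1.im * (v.1.re * w.2 - v.2 * w.1.re)
    + u.2 * (v.1.re * w.1.im - v.1.im * w.1.re)

/-- the point of the plane (Klein model) given by a vector -/
noncomputable def proj (v : V3) : ℂ := ((v.2)⁻¹ : ℝ) • v.1

/-- the reflection in the vector `n` (the identity if `B n n = 0`) -/
noncomputable def reflFun (n v : V3) : V3 := v - (2 * B v n / B n n) • n

theorem B_add_left (u v w : V3) : B (u + v) w = B u w + B v w := by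
  simp only [B, Prod.fst_add, Prod.snd_add, add_re, add_im]; ring

theorem B_sub_left (u v w : V3) : B (u - v) w = B u w - B v w := by
  simp only [B, Prod.fst_sub, Prod.snd_sub, sub_re, sub_im]; ring

theorem B_smul_left (c : ℝ) (v w : V3) : B (c • v) w = c * B v w := by
  simp only [B, Prod.smul_fst, Prod.smul_snd, real_smul, re_ofReal_mul, im_ofReal_mul,
    smul_eq_mul]; ring

theorem B_comm (v w : V3) : B v w = B w v := by
  simp only [B]; ring

theorem reflFun_invol (n : V3) : Function.Involutive (reflFun n) := by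
  intro v
  by_cases hn : B n n = 0
  · simp [reflFun, hn]
  · have h1 : B (reflFun n v) n = - B v n := by
      rw [reflFun, B_sub_left, B_smul_left]; field_simp; ring
    rw [reflFun, h1, reflFun]
    ext1
    · simp only [Prod.fst_sub, Prod.smul_fst, real_smul]; push_cast; ring
    · simp only [Prod.snd_sub, Prod.smul_snd, smul_eq_mul]; ring

/-- the reflection in the vector `n` as a linear automorphism -/
noncomputable def refl (n : V3) : V3 ≃ₗ[ℝ] V3 :=
  LinearEquiv.ofInvolutive
    { toFun := reflFun n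
      map_add' := by
        intro u v
        simp only [reflFun, B_add_left]
        ext1
        · simp only [Prod.fst_sub, Prod.fst_add, Prod.smul_fst, real_smul]; push_cast; ring
        · simp only [Prod.snd_sub, Prod.snd_add, Prod.smul_snd, smul_eq_mul]; ring
      map_smul' := by
        intro c v
        simp only [reflFun, B_smul_left, RingHom.id_apply]
        ext1
        · simp only [Prod.fst_sub, Prod.smul_fst, real_smul]; push_cast; ring
        · simp only [Prod.snd_sub, Prod.smul_snd, smul_eq_mul]; ring } (reflFun_invol n)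

@[simp] theorem refl_apply (n v : V3) : refl n v = v - (2 * B v n / B n n) • n := rfl

/-- An ideal polygon: `θ` enumerates (with period `N`, up to `2 π`) the angles of the vertices,
in increasing order; the gaps are shorter than `π`. -/
structure Poly (N : ℕ) where
  θ : ℤ → ℝ
  mono : StrictMono θ
  per : ∀ j : ℤ, θ (j + N) = θ j + 2 * Real.pi
  small : ∀ j : ℤ, θ (j + 1) - θ j < Real.pi

namespace Poly

variable {N : ℕ} (P : Poly N)

/-- the middle of the gap `j` (between the vertices `j` and `j+1`) -/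
noncomputable def mid (j : ℤ) : ℝ := (P.θ j + P.θ (j + 1)) / 2

/-- half the length of the gap `j` -/
noncomputable def hw (j : ℤ) : ℝ := (P.θ (j + 1) - P.θ j) / 2

/-- the normal vector of the chord of the gap `j` -/
noncomputable def nrm (j : ℤ) : V3 := (Complex.exp (P.mid j * Complex.I), Real.cos (P.hw j))

/-- the vertex `j` -/
noncomputable def pt (j : ℤ) : ℂ := Complex.exp (P.θ j * Complex.I)

/-- the reflection in the chord of the gap `j` -/
noncomputable def rf (j : ℤ) : V3 ≃ₗ[ℝ] V3 := refl (P.nrm j)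

/-- the product of the reflections of a list of gaps -/
noncomputable def word (L : List ℤ) : V3 ≃ₗ[ℝ] V3 := (L.map P.rf).prod

/-- the cone over the polygon without its vertices -/
def Qv : Set V3 := {v | ‖v.1‖ < v.2 ∧ ∀ j, B v (P.nrm j) ≤ 0}

/-- the closed polygon -/
def Qc : Set ℂ := {z | ‖z‖ ≤ 1 ∧ ∀ j, B (z, 1) (P.nrm j) ≤ 0}

/-- the projective action of a word -/
noncomputable def act (L : List ℤ) (z : ℂ) : ℂ := proj (P.word L (z, 1))

end Poly

/-- reduced lists of gaps -/
def Red (N : ℕ) (L : List ℤ) : Prop := L.IsChain (fun a b => ¬ a ≡ b [ZMOD (N : ℤ)])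

/-- `S` is the double of the closed polygon: two closed copies `SU`, `SV` glued along the
boundary; `κ` is the fold map. -/
structure Dbl {N : ℕ} (P : Poly N) (S : Type*) [TopologicalSpace S] where
  κ : S → ℂ
  up : ℂ → S
  dn : ℂ → S
  SU : Set S
  SV : Set S
  κ_cont : Continuous κ
  closedU : IsClosed SU
  closedV : IsClosed SV
  cover : SU ∪ SV = Set.univ
  κ_mem : ∀ x, κ x ∈ P.Qc
  up_cont : ContinuousOn up P.Qc
  dn_cont : ContinuousOn dn P.Qc
  up_mem : ∀ z ∈ P.Qc, up z ∈ SU
  dn_mem : ∀ z ∈ P.Qc, dn z ∈ SV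
  κ_up : ∀ z ∈ P.Qc, κ (up z) = z
  κ_dn : ∀ z ∈ P.Qc, κ (dn z) = z
  up_κ : ∀ x ∈ SU, up (κ x) = x
  dn_κ : ∀ x ∈ SV, dn (κ x) = x
  glue : ∀ z ∈ P.Qc, (∃ j, B (z, 1) (P.nrm j) = 0) → up z = dn z
  inter : ∀ x ∈ SU, x ∈ SV → ∃ j, B (κ x, 1) (P.nrm j) = 0

namespace Dbl

variable {N : ℕ} {P : Poly N} {S : Type*} [TopologicalSpace S] (D : Dbl P S)

/-- the vertices -/
def Vert : Set S := {x | ∃ j, D.κ x = P.pt j}

/-- `x` lies on the (open) gap `j` -/
def Gap (j : ℤ) : Set S := {x | x ∉ D.Vert ∧ B (D.κ x, 1) (P.nrm j) = 0}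

/-- the point `x` (not a vertex) and the list `L` (even on the side `SU`, odd on `SV`) give the
point `z` of the cover -/
def Cell (L : List ℤ) (x : S) (z : ℂ) : Prop :=
  x ∉ D.Vert ∧ ((Even L.length ∧ x ∈ D.SU) ∨ (Odd L.length ∧ x ∈ D.SV)) ∧
    z = P.act L (D.κ x)

open Classical in
/-- the covering map -/
noncomputable def pr (z : ℂ) : S := if h : ∃ x L, D.Cell L x z then h.choose else D.up 0

/-- `g` is a lift of `γ` -/
def IsLift {A : Type*} [TopologicalSpace A] (γ : A → S) (g : A → ℂ) : Prop :=
  Continuous g ∧ (∀ t, ‖g t‖ < 1) ∧ ∀ t, D.pr (g t) = γ t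

end Dbl

end Pool.Agent.RAYT
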