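import Pool.Agent.RAYT.Cov
import Pool.Agent.RAYT.Lines

/-!
RAYT/Ends: a lift of a path which tends to a vertex converges to a point of the circle.

PROOFS.  `eventually_near`: `B_pt_neg`, continuity of `κ`, `κ (up (pt j)) = pt j`; only finitely
many classes mod `N`.  `evec_eq`: for two cells `L, L'` of `z` `Cell.unique` gives
`word L' = word L` or `word L' = word L ∘ rf i` with `x ∈ Gap i`; as `x ∈ Near j`, `i ≡ j` or
`i ≡ j - 1`, and `rf i` fixes `(pt j, 1)` (`B_pt_left`, `B_pt_right`, `refl_fix`).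
`evec_const`: `evec j (g a)` is locally constant on `s`: near `z = g a` all points have cells `L'`
with `word L' = word L` or `word L ∘ rf i`, `x ∈ Gap i` (`eventually_cell`), and `evec_eq` on both
sides.  Use `IsPreconnected.constant_of_mapsTo` / `IsPreconnected.induction₂`.
`tendsto_act`.  `e = word L (pt j, 1) = τ • (E, 1)`, `E = act L (pt j)`, `τ > 0`.  For large `t`
there is a cell `(M, x)` of `g t` with `x = γ t ∈ Near j`, `word M (pt j,1) = e`, and `M` reduced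
(`exists_red`, same parity and same `word`).  Let `u = word M (κ x, 1)`, `s = u.2 ≥ 1`
(`le_word_snd`), `u = s • (g t, 1)`.  Then `τ s (1 - Re (g t conj E)) = - B u e
= - B (κ x, 1) (pt j, 1) = 1 - Re (κ x conj (pt j))`, which tends to `0` (`κ (γ t) → pt j`).  So
`0 ≤ 1 - Re (g t conj E) ≤ (1 - Re (κ x conj (pt j))) / τ → 0`, and
`‖g t - E‖² ≤ 2 (1 - Re (g t conj E))` as `‖g t‖ ≤ 1 = ‖E‖`.
`exists_tendsto`: for `t ≥ T` the point `γ t` is in `Near j` (`pr_not_vert`), `evec` is constant on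
`[T, ∞)` (`evec_const`), equal to `word L (pt j,1)` for a cell `L` of `g T`.
-/

set_option autoImplicit false

namespace Pool.Agent.RAYT

open Complex Set Topology Filter unitInterval

namespace Dbl

variable {N : ℕ} {P : Poly N} {S : Type*} [TopologicalSpace S] (D : Dbl P S)

/-- the points near the vertex `j`: no vertex and on no side except perhaps the two sides at `j` -/
def Near (j : ℤ) : Set S := {x | x ∉ D.Vert ∧ ∀ i, ¬ i ≡ j [ZMOD (N : ℤ)] →
  ¬ i ≡ j - 1 [ZMOD (N : ℤ)] → B (D.κ x, 1) (P.nrm i) < 0}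

include P in
private theorem ends_N_pos : 0 < N := by
  rcases Nat.eq_zero_or_pos N with h | h
  · exfalso
    subst h
    have h1 := P.per 0
    simp only [Nat.cast_zero, add_zero] at h1
    linarith [Real.pi_pos]
  · exact h

/-- the vertices are in the closed polygon -/
private theorem ends_pt_mem (P : Poly N) (j : ℤ) : P.pt j ∈ P.Qc := by
  refine ⟨(P.norm_pt j).le, fun i => ?_⟩
  by_cases h1 : i ≡ j [ZMOD (N : ℤ)]
  · rw [P.nrm_congr h1, P.B_pt_left]
  · by_cases h2 : i ≡ j - 1 [ZMOD (N : ℤ)]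
    · have h3 := P.B_pt_right (j - 1)
      rw [sub_add_cancel] at h3
      rw [P.nrm_congr h2, h3]
    · exact (P.B_pt_neg h1 h2).le

theorem eventually_near (j : ℤ) : ∀ᶠ x in 𝓝 (D.up (P.pt j)), x ∉ D.Vert → x ∈ D.Near j := by
  have hN : (0 : ℤ) < N := by exact_mod_cast ends_N_pos (P := P)
  have hκ : D.κ (D.up (P.pt j)) = P.pt j := D.κ_up _ (ends_pt_mem P j)
  have key : ∀ i : ℤ, ∀ᶠ x in 𝓝 (D.up (P.pt j)), ¬ i ≡ j [ZMOD (N : ℤ)] →
      ¬ i ≡ j - 1 [ZMOD (N : ℤ)] → B (D.κ x, 1) (P.nrm i) < 0 := by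
    intro i
    by_cases h1 : i ≡ j [ZMOD (N : ℤ)]
    · exact Eventually.of_forall fun x h => absurd h1 h
    by_cases h2 : i ≡ j - 1 [ZMOD (N : ℤ)]
    · exact Eventually.of_forall fun x _ h => absurd h2 h
    have hc : Continuous fun x : S => B (D.κ x, 1) (P.nrm i) :=
      (continuous_B_left _).comp (D.κ_cont.prodMk continuous_const)
    have h3 : B (D.κ (D.up (P.pt j)), 1) (P.nrm i) < 0 := by
      rw [hκ]; exact P.B_pt_neg h1 h2
    filter_upwards [hc.continuousAt.eventually_lt continuousAt_const h3] with x hx _ _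
    exact hx
  have key2 : ∀ᶠ x in 𝓝 (D.up (P.pt j)), ∀ i ∈ Finset.range N, ¬ (i : ℤ) ≡ j [ZMOD (N : ℤ)] →
      ¬ (i : ℤ) ≡ j - 1 [ZMOD (N : ℤ)] → B (D.κ x, 1) (P.nrm i) < 0 :=
    (Finset.eventually_all _).mpr fun i _ => key i
  filter_upwards [key2] with x hx hV
  refine ⟨hV, fun i h1 h2 => ?_⟩
  have h3 := Int.emod_nonneg i hN.ne'
  have h4 := Int.emod_lt_of_pos i hN
  have h5 : i ≡ ((i % N).toNat : ℤ) [ZMOD (N : ℤ)] := by
    rw [Int.toNat_of_nonneg h3]; exact (Int.mod_modEq i N).symm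
  rw [P.nrm_congr h5]
  exact hx _ (Finset.mem_range.mpr (by omega)) (fun h => h1 (h5.trans h))
    (fun h => h2 (h5.trans h))

open Classical in
/-- the null vector over the vertex `j` seen from the cell of `z` -/
noncomputable def evec (j : ℤ) (z : ℂ) : V3 :=
  if h : ∃ L x, D.Cell L x z then P.word h.choose (P.pt j, 1) else 0

/-- the gap of a point near the vertex `j` fixes the vertex -/
private theorem ends_rf_fix {i j : ℤ} {x : S} (hx : x ∈ D.Near j) (hi : x ∈ D.Gap i) :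
    P.rf i (P.pt j, 1) = (P.pt j, 1) := by
  by_cases h1 : i ≡ j [ZMOD (N : ℤ)]
  · rw [P.rf_congr h1]
    exact refl_fix (P.B_pt_left j)
  · by_cases h2 : i ≡ j - 1 [ZMOD (N : ℤ)]
    · have h3 := P.B_pt_right (j - 1)
      rw [sub_add_cancel] at h3
      rw [P.rf_congr h2]
      exact refl_fix h3
    · have h3 := hx.2 i h1 h2
      rw [hi.2] at h3
      exact absurd h3 (lt_irrefl _)

theorem evec_eq {j : ℤ} {L : List ℤ} {x : S} {z : ℂ} (h : D.Cell L x z) (hx : x ∈ D.Near j) :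
    D.evec j z = P.word L (P.pt j, 1) := by
  have hex : ∃ L x, D.Cell L x z := ⟨L, x, h⟩
  unfold evec
  rw [dif_pos hex]
  obtain ⟨x', h'⟩ := hex.choose_spec
  rcases (Cell.unique D h h').2 with h1 | ⟨i, hi, h1⟩
  · exact h1 _
  · rw [h1, D.ends_rf_fix hx hi]

theorem evec_const {A : Type*} [TopologicalSpace A] {s : Set A} (hs : IsPreconnected s) {g : A → ℂ}
    (hg : ContinuousOn g s) {j : ℤ} (h : ∀ a ∈ s, ‖g a‖ < 1 ∧ D.pr (g a) ∈ D.Near j) :
    ∀ a ∈ s, ∀ a' ∈ s, D.evec j (g a) = D.evec j (g a') := by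
  intro a ha a' ha'
  refine hs.induction₂ (fun a a' => D.evec j (g a) = D.evec j (g a')) ?_
    (fun x y z _ _ _ h1 h2 => h1.trans h2) (fun x y _ _ h1 => h1.symm) ha ha'
  intro a ha
  obtain ⟨x, L, hc⟩ := D.exists_cell (h a ha).1
  have hx : x ∈ D.Near j := by rw [← D.pr_eq hc]; exact (h a ha).2
  have h1 := (hg a ha).eventually (D.eventually_cell hc)
  filter_upwards [h1, self_mem_nhdsWithin] with b hb hbs
  obtain ⟨L', x', hc', hb'⟩ := hb
  have hx' : x' ∈ D.Near j := by rw [← D.pr_eq hc']; exact (h b hbs).2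
  rw [D.evec_eq hc hx, D.evec_eq hc' hx']
  rcases hb' with h2 | ⟨i, hi, h2⟩
  · exact (h2 _).symm
  · rw [h2, D.ends_rf_fix hx hi]

private theorem ends_B_one (a b : ℂ) :
    B ((a, 1) : V3) (b, 1) = a.re * b.re + a.im * b.im - 1 := by
  simp [B]

/-- the estimate for one cell -/
private theorem ends_bound {M : List ℤ} {x : S} {z : ℂ} (h : D.Cell M x z) {j : ℤ} {e : V3}
    (he : P.word M (P.pt j, 1) = e) :
    ‖z - proj e‖ ^ 2 * e.2 ≤ 2 * (- B (D.κ x, 1) (P.pt j, 1)) := by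
  obtain ⟨L, hL, hw, -⟩ := P.exists_red M
  have hk := D.κ_mem x
  have h1 : (1 : ℝ) ≤ (P.word L (D.κ x, 1)).2 :=
    P.le_word_snd hL (v := (D.κ x, 1)) one_pos hk.1 hk.2
  have he' : P.word L (P.pt j, 1) = e := by rw [hw]; exact he
  have hcone := P.cone_word L (v := (P.pt j, 1)) one_pos (P.norm_pt j).le
  rw [he'] at hcone
  have hu := eq_smul_proj (v := P.word L (D.κ x, 1)) (by linarith)
  have hz : proj (P.word L (D.κ x, 1)) = z := by
    rw [hw, h.2.2]; rfl
  rw [hz] at hu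
  set s := (P.word L (D.κ x, 1)).2 with hs
  have hE := eq_smul_proj (v := e) hcone.1.ne'
  set τ := e.2 with hτ
  set E := proj e with hEdef
  have hB : B (P.word L (D.κ x, 1)) (P.word L (P.pt j, 1)) = B (D.κ x, 1) (P.pt j, 1) :=
    P.B_word L _ _
  rw [he', hu, hE, B_smul_left, B_comm, B_smul_left, B_comm, ends_B_one] at hB
  have hEn : ‖E‖ = 1 := by
    have h2 : E = P.act L (P.pt j) := by rw [hEdef, ← he']; rfl
    rw [h2]; exact P.norm_act_eq L (P.norm_pt j)
  have hzn : ‖z‖ < 1 := h.norm_lt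
  have n1 : ‖z - E‖ ^ 2 = ‖z‖ ^ 2 + ‖E‖ ^ 2 - 2 * (z.re * E.re + z.im * E.im) := by
    rw [← Complex.normSq_eq_norm_sq, ← Complex.normSq_eq_norm_sq, ← Complex.normSq_eq_norm_sq,
      Complex.normSq_apply, Complex.normSq_apply, Complex.normSq_apply, sub_re, sub_im]
    ring
  have n2 : ‖z - E‖ ^ 2 ≤ 2 * (1 - (z.re * E.re + z.im * E.im)) := by
    rw [n1, hEn]
    nlinarith [norm_nonneg z]
  have n3 : 0 ≤ 1 - (z.re * E.re + z.im * E.im) := by
    nlinarith [sq_nonneg ‖z - E‖]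
  have n4 : - B (D.κ x, 1) (P.pt j, 1) = s * (τ * (1 - (z.re * E.re + z.im * E.im))) := by
    rw [← hB]; ring
  rw [n4]
  have hτ0 : 0 < τ := hcone.1
  have n5 : 0 ≤ τ * (1 - (z.re * E.re + z.im * E.im)) := mul_nonneg hτ0.le n3
  nlinarith [mul_le_mul_of_nonneg_right h1 n5, mul_le_mul_of_nonneg_right n2 hτ0.le]

/-- CONVERGENCE -/
theorem tendsto_act {γ : ℝ → S} {g : ℝ → ℂ} (hg : D.IsLift γ g) {j : ℤ}
    (hγ : Tendsto γ atTop (𝓝 (D.up (P.pt j)))) {L : List ℤ}
    (hL : ∀ᶠ t in atTop, D.evec j (g t) = P.word L (P.pt j, 1)) :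
    Tendsto g atTop (𝓝 (P.act L (P.pt j))) := by
  have hcone := P.cone_word L (v := (P.pt j, 1)) one_pos (P.norm_pt j).le
  set e := P.word L (P.pt j, 1) with he
  have hE : P.act L (P.pt j) = proj e := rfl
  have hτ : 0 < e.2 := hcone.1
  have hκ : D.κ (D.up (P.pt j)) = P.pt j := D.κ_up _ (ends_pt_mem P j)
  have hc : Continuous fun x : S => 2 * (- B (D.κ x, 1) (P.pt j, 1)) / e.2 := by
    have : Continuous fun x : S => B (D.κ x, 1) (P.pt j, 1) :=
      (continuous_B_left _).comp (D.κ_cont.prodMk continuous_const)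
    exact (continuous_const.mul this.neg).div_const _
  have h0 : 2 * (- B (D.κ (D.up (P.pt j)), 1) (P.pt j, 1)) / e.2 = 0 := by
    have h1 : B ((P.pt j, 1) : V3) (P.pt j, 1) = 0 := by
      rw [B_self, P.norm_pt]; norm_num
    rw [hκ, h1]; simp
  have hlim : Tendsto (fun t => 2 * (- B (D.κ (γ t), 1) (P.pt j, 1)) / e.2) atTop (𝓝 0) := by
    have := (hc.tendsto (D.up (P.pt j))).comp hγ
    rw [h0] at this
    exact this
  have hsq : Tendsto (fun t => Real.sqrt (2 * (- B (D.κ (γ t), 1) (P.pt j, 1)) / e.2)) atTop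
      (𝓝 0) := by
    have := (Real.continuous_sqrt.tendsto 0).comp hlim
    rw [Real.sqrt_zero] at this
    exact this
  rw [tendsto_iff_norm_sub_tendsto_zero]
  refine squeeze_zero' (Eventually.of_forall fun t => norm_nonneg _) ?_ hsq
  filter_upwards [hL, hγ.eventually (D.eventually_near j)] with t h1 h2
  obtain ⟨x, M, hM⟩ := D.exists_cell (hg.2.1 t)
  have hx : x = γ t := by rw [← D.pr_eq hM, hg.2.2 t]
  subst hx
  have h3 := D.evec_eq hM (h2 hM.1)
  have h4 := D.ends_bound hM (e := e) (by rw [← h3, h1])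
  rw [hE]
  apply Real.le_sqrt_of_sq_le
  rw [le_div_iff₀ hτ]
  exact h4

theorem exists_tendsto {γ : ℝ → S} {g : ℝ → ℂ} (hg : D.IsLift γ g) {j : ℤ}
    (hγ : Tendsto γ atTop (𝓝 (D.up (P.pt j)))) :
    ∃ L : List ℤ, (∀ᶠ t in atTop, D.evec j (g t) = P.word L (P.pt j, 1)) ∧
      Tendsto g atTop (𝓝 (P.act L (P.pt j))) := by
  obtain ⟨T, hT⟩ := eventually_atTop.mp (hγ.eventually (D.eventually_near j))
  have hnear : ∀ t ∈ Ici T, ‖g t‖ < 1 ∧ D.pr (g t) ∈ D.Near j := by
    intro t ht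
    refine ⟨hg.2.1 t, ?_⟩
    have h1 := D.pr_not_vert (hg.2.1 t)
    rw [hg.2.2 t] at h1 ⊢
    exact hT t ht h1
  obtain ⟨x, L, hL⟩ := D.exists_cell (hg.2.1 T)
  have hx : x ∈ D.Near j := by rw [← D.pr_eq hL]; exact (hnear T self_mem_Ici).2
  have h2 : ∀ᶠ t in atTop, D.evec j (g t) = P.word L (P.pt j, 1) := by
    filter_upwards [eventually_ge_atTop T] with t ht
    rw [← D.evec_eq hL hx]
    exact (D.evec_const isPreconnected_Ici hg.1.continuousOn hnear T self_mem_Ici t ht).symm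
  exact ⟨L, h2, D.tendsto_act hg hγ h2⟩

end Dbl

end Pool.Agent.RAYT
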