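import Pool.Agent.RAYT.Ray

/-!
RAYT/Itin: the lift of a path which stays in one side; the end point of a ray with a given
itinerary.

PROOFS.  `stay`: on the preconnected set `[t₀, t₁]` both `g` and `t ↦ act L (κ (γ t))` are
continuous (`continuousOn_act`), with values in the open disc (`κ_lt`, `norm_act_lt`; `γ t` is not
a vertex by `pr_not_vert`), and have the same `pr` (`(L, γ t)` is a cell of `act L (κ (γ t))`,
`pr_eq`), and they agree at `t₀`: `lift_unique_on`.
`endPt_itin`: let `g` be the lift of `γ ∘ tau`, `g 0 = 0`.  Induction on `i ≤ w.length`: for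
`tau x` between `ρ i` and `ρ (i+1)`, `x ≥ 0`, we have `g x = act (w.take i) (κ (γ (tau x)))`
(`stay`; at the change of sides `act_concat_side`, since `γ (ρ (i+1))` lies in the gap `w[i]`;
note that `κ` of the base point is `0 = g 0`).  For `i = w.length`: for all large `x`
`g x = act w (κ (γ (tau x)))`, which tends to `act w (pt j)` (`continuousOn_act` on the closed
ball).  `IsRayP.tendsto`, uniqueness of limits.  (`ρ (i+1) ≠ 1` for `i < w.length`, so
`ρ (i+1) = tau x` for some `x ≥ 0`, `exists_tau`; `tau_mono`.)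
-/

set_option autoImplicit false

namespace Pool.Agent.RAYT

open Complex Set Topology Filter unitInterval

namespace Dbl

variable {N : ℕ} {P : Poly N} {S : Type*} [TopologicalSpace S] (D : Dbl P S)

/-- as long as the path stays in the closed side of the parity of `L`, the cell does not change -/
theorem stay {γ : ℝ → S} {g : ℝ → ℂ} (hg : D.IsLift γ g) {L : List ℤ} {t₀ t₁ : ℝ} (ht : t₀ ≤ t₁)
    (h : (Even L.length ∧ ∀ t ∈ Icc t₀ t₁, γ t ∈ D.SU) ∨
      (Odd L.length ∧ ∀ t ∈ Icc t₀ t₁, γ t ∈ D.SV))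
    (h0 : g t₀ = P.act L (D.κ (γ t₀))) : ∀ t ∈ Icc t₀ t₁, g t = P.act L (D.κ (γ t)) := by
  obtain ⟨hgc, hgn, hgp⟩ := hg
  have hv : ∀ t, γ t ∉ D.Vert := fun t => by
    rw [← hgp t]; exact D.pr_not_vert (hgn t)
  have hγc : Continuous γ := by
    have h1 : Continuous fun t => D.pr (g t) :=
      D.continuousOn_pr.comp_continuous hgc fun t => mem_ball_zero_iff.mpr (hgn t)
    have h2 : (fun t => D.pr (g t)) = γ := funext hgp
    rw [← h2]; exact h1
  have hκb : ∀ t, D.κ (γ t) ∈ Metric.closedBall (0 : ℂ) 1 := fun t =>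
    mem_closedBall_zero_iff.mpr (D.κ_mem (γ t)).1
  have hfc : Continuous fun t => P.act L (D.κ (γ t)) :=
    (P.continuousOn_act L).comp_continuous (D.κ_cont.comp hγc) hκb
  have hfn : ∀ t, ‖P.act L (D.κ (γ t))‖ < 1 := fun t => P.norm_act_lt L (D.κ_lt (hv t))
  have hcell : ∀ t ∈ Icc t₀ t₁, D.Cell L (γ t) (P.act L (D.κ (γ t))) := by
    intro t htt
    refine ⟨hv t, ?_, rfl⟩
    rcases h with h | h
    · exact Or.inl ⟨h.1, h.2 t htt⟩
    · exact Or.inr ⟨h.1, h.2 t htt⟩
  exact D.lift_unique_on isPreconnected_Icc hgc.continuousOn hfc.continuousOn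
    (fun t _ => hgn t) (fun t _ => hfn t)
    (fun t htt => by rw [hgp t, D.pr_eq (hcell t htt)]) (left_mem_Icc.mpr ht) h0

/-- the sides, alternately, beginning with `SU` -/
def sideP (n : ℕ) : Set S := if Even n then D.SU else D.SV

/-- the ray `γ` to the vertex `j` passes through the gaps of the list `w` -/
structure ItinP (j : ℤ) (w : List ℤ) (γ : I → S) : Prop where
  ray : D.IsRayP j γ
  pieces : ∃ ρ : ℕ → I, Monotone ρ ∧ ρ 0 = 0 ∧ ρ (w.length + 1) = 1 ∧
    (∀ i (hi : i < w.length), ρ (i + 1) ≠ 1 ∧ γ (ρ (i + 1)) ∈ D.Gap (w[i])) ∧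
    ∀ i ≤ w.length, ∀ t, ρ i ≤ t → t ≤ ρ (i + 1) → γ t ∈ D.sideP i

private theorem itin_pt_mem {N : ℕ} (P : Poly N) (j : ℤ) : P.pt j ∈ P.Qc := by
  refine ⟨(P.norm_pt j).le, fun i => ?_⟩
  by_cases h1 : i ≡ j [ZMOD (N : ℤ)]
  · rw [P.nrm_congr h1, P.B_pt_left]
  · by_cases h2 : i ≡ j - 1 [ZMOD (N : ℤ)]
    · have h3 := P.B_pt_right (j - 1)
      rw [sub_add_cancel] at h3
      rw [P.nrm_congr h2, h3]
    · exact (P.B_pt_neg h1 h2).le

private theorem itin_step {j : ℤ} {w : List ℤ} {γ : I → S} {ρ : ℕ → I} {g : ℝ → ℂ}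
    (hρm : Monotone ρ) (hρ0 : ρ 0 = 0) (hg : D.IsLift (fun x => γ (tau x)) g) (hg0 : g 0 = 0)
    (hγ : D.IsRayP j γ)
    (hgap : ∀ i (hi : i < w.length), ρ (i + 1) ≠ 1 ∧ γ (ρ (i + 1)) ∈ D.Gap (w[i]))
    (hside : ∀ i ≤ w.length, ∀ t, ρ i ≤ t → t ≤ ρ (i + 1) → γ t ∈ D.sideP i) :
    ∀ i ≤ w.length, ∀ x : ℝ, 0 ≤ x → ρ i ≤ tau x → tau x ≤ ρ (i + 1) →
      g x = P.act (w.take i) (D.κ (γ (tau x))) := by
  intro i
  induction i with
  | zero =>
    intro hi x hx h1 h2
    rw [List.take_zero]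
    refine D.stay hg hx (Or.inl ⟨by simp, ?_⟩) ?_ x (right_mem_Icc.mpr hx)
    · intro t ht
      have h3 := hside 0 hi (tau t) (by rw [hρ0]; exact (tau t).2.1)
        ((tau_mono ht.1 ht.2).trans h2)
      simpa [sideP] using h3
    · rw [hg0, P.act_nil, tau_zero, hγ.zero, D.κ_base]
  | succ i ih =>
    intro hi x hx h1 h2
    have hi' : i < w.length := hi
    obtain ⟨h3, h4⟩ := hgap i hi'
    obtain ⟨y, hy, hty⟩ := exists_tau h3
    have h5 : g y = P.act (w.take i) (D.κ (γ (tau y))) :=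
      ih hi'.le y hy (by rw [hty]; exact hρm (Nat.le_succ i)) hty.le
    have h6 : P.act (w.take (i + 1)) (D.κ (γ (tau y))) = P.act (w.take i) (D.κ (γ (tau y))) := by
      rw [← List.take_append_getElem hi']
      exact P.act_concat_side _ (by rw [hty]; exact h4.2)
    have hyx : y ≤ x := by
      by_contra hcon
      push Not at hcon
      have h7 : tau x ≤ tau y := tau_mono hx hcon.le
      have h8 : tau x = tau y := le_antisymm h7 (by rw [hty]; exact h1)
      exact hcon.ne (tau_inj hx hy h8)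
    have hlen : (w.take (i + 1)).length = i + 1 := by
      rw [List.length_take]; exact min_eq_left hi
    have hsd : ∀ t ∈ Icc y x, γ (tau t) ∈ D.sideP (i + 1) := by
      intro t ht
      refine hside (i + 1) hi (tau t) ?_ ((tau_mono (hy.trans ht.1) ht.2).trans h2)
      rw [← hty]; exact tau_mono hy ht.1
    refine D.stay hg hyx ?_ (by rw [h5, h6]) x (right_mem_Icc.mpr hyx)
    rw [hlen]
    by_cases hev : Even (i + 1)
    · left
      refine ⟨hev, fun t ht => ?_⟩
      have := hsd t ht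
      rwa [sideP, if_pos hev] at this
    · right
      refine ⟨Nat.not_even_iff_odd.mp hev, fun t ht => ?_⟩
      have := hsd t ht
      rwa [sideP, if_neg hev] at this

/-- the end point of a ray with itinerary `w` -/
theorem endPt_itin {j : ℤ} {w : List ℤ} {γ : I → S} (h : D.ItinP j w γ) :
    D.endPt γ = P.act w (P.pt j) := by
  obtain ⟨hray, ρ, hρm, hρ0, hρ1, hgap, hside⟩ := h
  obtain ⟨g, hg, hg0⟩ := hray.exists_lift
  have hstep := D.itin_step hρm hρ0 hg hg0 hray hgap hside w.length le_rfl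
  have hne : ρ w.length ≠ 1 := by
    rcases Nat.eq_zero_or_pos w.length with h0 | h0
    · rw [h0, hρ0]; exact zero_ne_one
    · have h1 := (hgap (w.length - 1) (by omega)).1
      rwa [Nat.sub_add_cancel h0] at h1
  obtain ⟨y, hy, hty⟩ := exists_tau hne
  have hev : ∀ᶠ x in atTop, P.act w (D.κ (γ (tau x))) = g x := by
    filter_upwards [eventually_ge_atTop y] with x hx
    have h1 := hstep x (hy.trans hx) (by rw [← hty]; exact tau_mono hy hx)
      (by rw [hρ1]; exact (tau x).2.2)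
    rw [List.take_length] at h1
    exact h1.symm
  have hlim : Tendsto (fun x => P.act w (D.κ (γ (tau x)))) atTop (𝓝 (P.act w (P.pt j))) := by
    have h1 : ContinuousWithinAt (P.act w) (Metric.closedBall (0 : ℂ) 1) (P.pt j) :=
      P.continuousOn_act w _ (mem_closedBall_zero_iff.mpr (P.norm_pt j).le)
    have h2 : Tendsto (fun x => D.κ (γ (tau x))) atTop (𝓝 (P.pt j)) := by
      have h3 : D.κ (γ 1) = P.pt j := by rw [hray.one, D.κ_up _ (itin_pt_mem P j)]
      rw [← h3]
      exact ((D.κ_cont.comp hray.continuous).tendsto 1).comp tendsto_tau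
    refine h1.tendsto.comp (tendsto_nhdsWithin_iff.mpr ⟨h2, Eventually.of_forall fun x => ?_⟩)
    exact mem_closedBall_zero_iff.mpr (D.κ_mem _).1
  exact tendsto_nhds_unique (hray.tendsto D hg hg0) (hlim.congr' hev)

end Dbl

end Pool.Agent.RAYT
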