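import Pool.Agent.RAYT.Defs

/-!
RAYT/Lor: elementary algebra of the Lorentz form, reflections, orientation.
-/

set_option autoImplicit false

namespace Pool.Agent.RAYT

open Complex Set Topology Filter

theorem B_self (v : V3) : B v v = ‖v.1‖ ^ 2 - v.2 ^ 2 := by
  rw [← Complex.normSq_eq_norm_sq, Complex.normSq_apply, B]; ring

theorem B_refl (n v w : V3) : B (refl n v) (refl n w) = B v w := by
  by_cases hn : B n n = 0
  · simp [hn]
  · have h : ∀ u v' : V3, B u (v' - (2 * B v' n / B n n) • n) =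
        B u v' - (2 * B v' n / B n n) * B u n := by
      intro u v'
      rw [B_comm, B_sub_left, B_smul_left, B_comm v' u, B_comm n u]
    rw [refl_apply, refl_apply, h, B_sub_left, B_smul_left, B_sub_left, B_smul_left, B_comm n w]
    field_simp
    ring

theorem B_refl_left {n : V3} (hn : B n n ≠ 0) (v : V3) : B (refl n v) n = - B v n := by
  rw [refl_apply, B_sub_left, B_smul_left]; field_simp; ring

theorem refl_refl (n v : V3) : refl n (refl n v) = v := reflFun_invol n v

theorem refl_fix {n v : V3} (h : B v n = 0) : refl n v = v := by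
  simp [h]

theorem tri_refl {n : V3} (hn : B n n ≠ 0) (u v w : V3) :
    tri (refl n u) (refl n v) (refl n w) = - tri u v w := by
  have h : B n n * (tri (refl n u) (refl n v) (refl n w) + tri u v w) = 0 := by
    simp only [refl_apply, tri, Prod.fst_sub, Prod.snd_sub, Prod.smul_fst, Prod.smul_snd,
      sub_re, sub_im, real_smul, re_ofReal_mul, im_ofReal_mul, smul_eq_mul]
    field_simp
    simp only [B]
    ring
  have := (mul_eq_zero.mp h).resolve_left hn
  linarith

theorem proj_smul {c : ℝ} (hc : c ≠ 0) (v : V3) : proj (c • v) = proj v := by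
  simp only [proj, Prod.smul_fst, Prod.smul_snd, smul_eq_mul, smul_smul]
  congr 1
  rw [mul_inv]
  field_simp

theorem proj_one (z : ℂ) : proj (z, 1) = z := by simp [proj]

/-- a vector is a multiple of its plane point -/
theorem eq_smul_proj {v : V3} (h : v.2 ≠ 0) : v = v.2 • ((proj v, 1) : V3) := by
  ext1
  · simp only [proj, Prod.smul_fst, smul_smul]
    rw [mul_inv_cancel₀ h, one_smul]
  · simp

theorem norm_proj {v : V3} (h : 0 < v.2) : ‖proj v‖ = ‖v.1‖ / v.2 := by
  rw [proj, norm_smul, norm_inv, Real.norm_of_nonneg h.le]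
  field_simp

theorem tri_smul (a b c : ℝ) (u v w : V3) : tri (a • u) (b • v) (c • w) = a * b * c * tri u v w :=
by
  simp only [tri, Prod.smul_fst, Prod.smul_snd, real_smul, re_ofReal_mul, im_ofReal_mul,
    smul_eq_mul]
  ring

theorem tri_one (a b c : ℂ) : tri (a, 1) (b, 1) (c, 1) = ori a b c := by
  simp only [tri, ori, cross, sub_re, sub_im]; ring

theorem tri_eq_ori {u v w : V3} (hu : u.2 ≠ 0) (hv : v.2 ≠ 0) (hw : w.2 ≠ 0) :
    tri u v w = u.2 * v.2 * w.2 * ori (proj u) (proj v) (proj w) := by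
  conv_lhs => rw [eq_smul_proj hu, eq_smul_proj hv, eq_smul_proj hw]
  rw [tri_smul, tri_one]

/-- reflections in spacelike vectors preserve the (closed) forward cone -/
theorem cone_refl_lt {n v : V3} (hn : 0 < B n n) (h1 : ‖v.1‖ < v.2) :
    ‖(refl n v).1‖ < (refl n v).2 := by
  have h2 : B v v < 0 := by
    rw [B_self]; nlinarith [norm_nonneg v.1]
  have h3 : B (refl n v) (refl n v) < 0 := by rw [B_refl]; exact h2
  have h4 : ‖(refl n v).1‖ ^ 2 < (refl n v).2 ^ 2 := by
    rw [B_self] at h3; linarith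
  have h5 : B (refl n v) v < 0 := by
    have : B (refl n v) v = B v v - 2 * (B v n) ^ 2 / B n n := by
      rw [refl_apply, B_sub_left, B_smul_left, B_comm n v]; ring
    rw [this]
    have : 0 ≤ 2 * (B v n) ^ 2 / B n n := by positivity
    linarith
  set w := refl n v with hw
  by_contra hcon
  push Not at hcon
  -- then `w.2 ≤ -‖w.1‖`
  have h6 : w.2 ≤ -‖w.1‖ := by
    by_contra h7
    push Not at h7
    nlinarith [norm_nonneg w.1]
  have h8 : |w.1.re * v.1.re + w.1.im * v.1.im| ≤ ‖w.1‖ * ‖v.1‖ := by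
    have e : w.1.re * v.1.re + w.1.im * v.1.im = (w.1 * (starRingEnd ℂ) v.1).re := by
      simp [Complex.mul_re]
    rw [e]
    calc |(w.1 * (starRingEnd ℂ) v.1).re| ≤ ‖w.1 * (starRingEnd ℂ) v.1‖ := abs_re_le_norm _
      _ = ‖w.1‖ * ‖v.1‖ := by rw [norm_mul, Complex.norm_conj]
  have h9 := (abs_le.mp h8).1
  have h10 : 0 < v.2 := lt_of_le_of_lt (norm_nonneg _) h1
  unfold B at h5
  nlinarith [mul_nonneg (norm_nonneg w.1) (norm_nonneg v.1),
    mul_le_mul_of_nonneg_left h1.le (norm_nonneg w.1),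
    mul_le_mul_of_nonneg_right h6 h10.le]

/-- reflections in spacelike vectors preserve the closed forward cone -/
theorem cone_refl {n v : V3} (hn : 0 < B n n) (h0 : 0 < v.2) (h1 : ‖v.1‖ ≤ v.2) :
    0 < (refl n v).2 ∧ ‖(refl n v).1‖ ≤ (refl n v).2 := by
  have h2 : B v v ≤ 0 := by
    rw [B_self]; nlinarith [norm_nonneg v.1]
  have h3 : B (refl n v) (refl n v) ≤ 0 := by rw [B_refl]; exact h2
  have h4 : ‖(refl n v).1‖ ^ 2 ≤ (refl n v).2 ^ 2 := by
    rw [B_self] at h3; linarith
  have h5 : B (refl n v) v = B v v - 2 * (B v n) ^ 2 / B n n := by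
    rw [refl_apply, B_sub_left, B_smul_left, B_comm n v]; ring
  have hpos : 0 ≤ 2 * (B v n) ^ 2 / B n n := by positivity
  by_cases h6 : 0 < (refl n v).2
  · exact ⟨h6, by nlinarith [norm_nonneg (refl n v).1]⟩
  exfalso
  push Not at h6
  have h8 : |(refl n v).1.re * v.1.re + (refl n v).1.im * v.1.im| ≤ ‖(refl n v).1‖ * ‖v.1‖ := by
    have e : (refl n v).1.re * v.1.re + (refl n v).1.im * v.1.im =
        ((refl n v).1 * (starRingEnd ℂ) v.1).re := by
      rw [mul_re, conj_re, conj_im]; ring
    rw [e]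
    calc |((refl n v).1 * (starRingEnd ℂ) v.1).re| ≤ ‖(refl n v).1 * (starRingEnd ℂ) v.1‖ :=
          abs_re_le_norm _
      _ = ‖(refl n v).1‖ * ‖v.1‖ := by rw [norm_mul, Complex.norm_conj]
  have h9 := (abs_le.mp h8).1
  have h7 : (refl n v).2 ≤ -‖(refl n v).1‖ := by
    nlinarith [norm_nonneg (refl n v).1]
  have h10 : 0 ≤ B (refl n v) v := by
    have e : B (refl n v) v = (refl n v).1.re * v.1.re + (refl n v).1.im * v.1.im -
      (refl n v).2 * v.2 := rfl
    rw [e]
    nlinarith [mul_le_mul_of_nonneg_left h1 (norm_nonneg (refl n v).1),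
      mul_le_mul_of_nonneg_right h7 h0.le]
  have h11 : 2 * (B v n) ^ 2 / B n n = 0 := by linarith
  have h12 : B v n = 0 := by
    have := (div_eq_zero_iff.mp h11).resolve_right hn.ne'
    simpa using this
  rw [refl_fix h12] at h6
  linarith

theorem continuous_B_left (w : V3) : Continuous fun v : V3 => B v w := by
  unfold B
  fun_prop

end Pool.Agent.RAYT
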