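import Pool.Agent.RAYT.Sector

/-!
RAYT/Pong: words of reflections, ping-pong.

PROOFS.  `word_append`: `List.map_append, List.prod_append`.  `word_reverse`: induction,
`refl_refl`.  `B_word`: `B_refl`.  `tri_word_*`: `tri_refl` and `B_nrm_nrm_pos`, induction.
`cone_word*`: `cone_refl`, `cone_refl_lt`.
`parity_of_word_eq`: `tri` of the images of `(1,0), (I,0), (0,1)` is `± 1`.
`exists_red`: strong induction on the length: if `L` is not reduced then `L = A ++ a :: b :: C` with
`a ≡ b` and `rf a (rf b v) = v` (`rf_congr`, `refl_refl`), remove the two letters.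
`pong`: induction on `L`.  `L = []`: `B (rf a v) (nrm a) = - B v (nrm a) ≥ 0` (`B_refl_left`), and
`(rf a v).2 = v.2 - 2 B(v,n)/B(n,n) n.2 ≥ v.2` because `n.2 > 0`.  `L = b :: M`: for
`w = word (b :: M) v` the induction gives `B w (nrm b) ≥ 0`, `w` is in the closed cone
(`cone_word`),
so by `disj` (`a ≢ b`) `B w (nrm a) ≤ 0`, and one goes on as before.
`pong_lt`: the same with `disj_lt'`.  `pong_two`: `w = word (b :: L) v` has `B w (nrm b) ≥ 0`
(`pong`, last letter: `v ∈ Qv`), and `‖w.1‖ < w.2`, so `disj_lt` gives `B w (nrm a) < 0`.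
`le_word_snd`: `pong` (or `L = []`).
`unique`: let `L'` be reduced with `word L' = word L` (`exists_red`).  `L' = []`: clear.
`L' = [a]`: `rf a q = c q'`; `B (rf a q) (nrm a) = - B q (nrm a) ≥ 0` and `c B q' (nrm a) ≤ 0`, so
`B q (nrm a) = 0`, `rf a q = q` (`refl_fix`).  Length at least two: `pong_two` gives
`B (c q') (nrm a) > 0`, contradiction.
-/

set_option autoImplicit false

namespace Pool.Agent.RAYT

open Complex Set Topology Filter

namespace Poly

variable {N : ℕ} (P : Poly N)

theorem word_nil (v : V3) : P.word [] v = v := rfl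

theorem word_cons (a : ℤ) (L : List ℤ) (v : V3) : P.word (a :: L) v = P.rf a (P.word L v) := rfl

theorem word_append (L L' : List ℤ) (v : V3) : P.word (L ++ L') v = P.word L (P.word L' v) := by
  rw [word, List.map_append, List.prod_append]
  rfl

theorem word_reverse (L : List ℤ) (v : V3) : P.word L.reverse (P.word L v) = v := by
  induction L generalizing v with
  | nil => rfl
  | cons a M ih =>
    rw [List.reverse_cons, P.word_append, P.word_cons a [], P.word_nil, P.word_cons]
    have e : P.rf a (P.rf a (P.word M v)) = P.word M v := refl_refl _ _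
    rw [e, ih]

theorem word_reverse' (L : List ℤ) (v : V3) : P.word L (P.word L.reverse v) = v := by
  have h := P.word_reverse L.reverse v
  rwa [List.reverse_reverse] at h

theorem B_word (L : List ℤ) (v w : V3) : B (P.word L v) (P.word L w) = B v w := by
  induction L with
  | nil => rfl
  | cons a M ih =>
    rw [P.word_cons, P.word_cons, ← ih]
    exact B_refl _ _ _

private theorem pong_tri_word (L : List ℤ) (u v w : V3) :
    tri (P.word L u) (P.word L v) (P.word L w) = (-1) ^ L.length * tri u v w := by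
  induction L with
  | nil => simp [P.word_nil]
  | cons a M ih =>
    rw [P.word_cons, P.word_cons, P.word_cons]
    have h := tri_refl (P.B_nrm_nrm_pos a).ne' (P.word M u) (P.word M v) (P.word M w)
    rw [ih] at h
    have e : tri (P.rf a (P.word M u)) (P.rf a (P.word M v)) (P.rf a (P.word M w)) =
      -((-1) ^ M.length * tri u v w) := h
    rw [e, List.length_cons, pow_succ]
    ring

private theorem pong_step {a : ℤ} {w : V3} (h : B w (P.nrm a) ≤ 0) :
    0 ≤ B (P.rf a w) (P.nrm a) ∧ w.2 ≤ (P.rf a w).2 := by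
  have hn := P.B_nrm_nrm_pos a
  have hs := P.nrm_snd_pos a
  constructor
  · have e : B (P.rf a w) (P.nrm a) = - B w (P.nrm a) := B_refl_left hn.ne' w
    rw [e]
    linarith
  · have e : (P.rf a w).2 = w.2 - (2 * B w (P.nrm a) / B (P.nrm a) (P.nrm a)) * (P.nrm a).2 := by
      rw [rf, refl_apply]
      simp only [Prod.snd_sub, Prod.smul_snd, smul_eq_mul]
    rw [e]
    have h1 : 2 * B w (P.nrm a) / B (P.nrm a) (P.nrm a) ≤ 0 :=
      div_nonpos_of_nonpos_of_nonneg (by linarith) hn.le
    nlinarith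

private theorem pong_step_lt {a : ℤ} {w : V3} (h : B w (P.nrm a) < 0) :
    0 < B (P.rf a w) (P.nrm a) := by
  have e : B (P.rf a w) (P.nrm a) = - B w (P.nrm a) :=
    B_refl_left (P.B_nrm_nrm_pos a).ne' w
  rw [e]
  linarith

theorem tri_word_even {L : List ℤ} (hL : Even L.length) (u v w : V3) :
    tri (P.word L u) (P.word L v) (P.word L w) = tri u v w := by
  rw [P.pong_tri_word, hL.neg_one_pow, one_mul]

theorem tri_word_odd {L : List ℤ} (hL : Odd L.length) (u v w : V3) :
    tri (P.word L u) (P.word L v) (P.word L w) = - tri u v w := by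
  rw [P.pong_tri_word, hL.neg_one_pow]
  ring

theorem cone_word (L : List ℤ) {v : V3} (h0 : 0 < v.2) (h1 : ‖v.1‖ ≤ v.2) :
    0 < (P.word L v).2 ∧ ‖(P.word L v).1‖ ≤ (P.word L v).2 := by
  induction L with
  | nil => exact ⟨h0, h1⟩
  | cons a M ih =>
    rw [P.word_cons]
    exact cone_refl (P.B_nrm_nrm_pos a) ih.1 ih.2

theorem cone_word_lt (L : List ℤ) {v : V3} (h1 : ‖v.1‖ < v.2) :
    ‖(P.word L v).1‖ < (P.word L v).2 := by
  induction L with
  | nil => exact h1
  | cons a M ih =>
    rw [P.word_cons]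
    exact cone_refl_lt (P.B_nrm_nrm_pos a) ih

/-- words with the same action have the same parity -/
theorem parity_of_word_eq {L L' : List ℤ} (h : ∀ v, P.word L v = P.word L' v) :
    (Even L.length ↔ Even L'.length) := by
  have h1 := P.pong_tri_word L ((1 : ℂ), (0 : ℝ)) (Complex.I, (0 : ℝ)) ((0 : ℂ), (1 : ℝ))
  have h2 := P.pong_tri_word L' ((1 : ℂ), (0 : ℝ)) (Complex.I, (0 : ℝ)) ((0 : ℂ), (1 : ℝ))
  have h3 : tri ((1 : ℂ), (0 : ℝ)) (Complex.I, (0 : ℝ)) ((0 : ℂ), (1 : ℝ)) = 1 := by
    simp [tri]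
  rw [h3, mul_one] at h1 h2
  rw [h, h, h, h2] at h1
  constructor
  · intro he
    by_contra ho
    rw [Nat.not_even_iff_odd] at ho
    rw [he.neg_one_pow, ho.neg_one_pow] at h1
    norm_num at h1
  · intro he
    by_contra ho
    rw [Nat.not_even_iff_odd] at ho
    rw [he.neg_one_pow, ho.neg_one_pow] at h1
    norm_num at h1

/-- every word can be reduced, with the same parity -/
theorem exists_red (L : List ℤ) : ∃ L', Red N L' ∧ (∀ v, P.word L' v = P.word L v) ∧
    (Even L'.length ↔ Even L.length) := by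
  induction L with
  | nil => exact ⟨[], List.isChain_nil, fun v => rfl, Iff.rfl⟩
  | cons a M ih =>
    obtain ⟨M', hM', hw, hp⟩ := ih
    rcases M' with _ | ⟨b, C⟩
    · refine ⟨[a], List.isChain_singleton _, fun v => ?_, ?_⟩
      · rw [P.word_cons, P.word_cons, hw]
      · rw [List.length_cons, List.length_cons, Nat.even_add_one, Nat.even_add_one, hp]
    · by_cases hab : a ≡ b [ZMOD (N : ℤ)]
      · refine ⟨C, ?_, fun v => ?_, ?_⟩
        · rcases C with _ | ⟨c, C'⟩
          · exact List.isChain_nil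
          · exact (List.isChain_cons_cons.mp hM').2
        · rw [P.word_cons a M, ← hw, P.word_cons b C, P.rf_congr hab]
          exact (refl_refl _ _).symm
        · rw [List.length_cons, Nat.even_add_one, ← hp, List.length_cons, Nat.even_add_one,
            not_not]
      · refine ⟨a :: b :: C, List.isChain_cons_cons.mpr ⟨hab, hM'⟩, fun v => ?_, ?_⟩
        · rw [P.word_cons a (b :: C), P.word_cons a M, hw]
        · rw [List.length_cons, List.length_cons (as := M), Nat.even_add_one, Nat.even_add_one,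
            hp]

/-- PING-PONG.  `v` in the closed forward cone, on the polygon side of the last chord -/
theorem pong {a : ℤ} {L : List ℤ} (hL : Red N (a :: L)) {v : V3} (h0 : 0 < v.2)
    (h1 : ‖v.1‖ ≤ v.2) (hlast : ∀ b ∈ (a :: L).getLast?, B v (P.nrm b) ≤ 0) :
    0 ≤ B (P.word (a :: L) v) (P.nrm a) ∧ v.2 ≤ (P.word (a :: L) v).2 := by
  induction L generalizing a with
  | nil =>
    have h : B v (P.nrm a) ≤ 0 := hlast a (by simp)
    rw [P.word_cons, P.word_nil]
    exact P.pong_step h
  | cons b M ih =>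
    obtain ⟨hab, hbM⟩ := List.isChain_cons_cons.mp hL
    have h := ih hbM (fun c hc => hlast c (by rwa [List.getLast?_cons_cons]))
    obtain ⟨hc0, hc1⟩ := P.cone_word (b :: M) h0 h1
    have h2 : B (P.word (b :: M) v) (P.nrm a) ≤ 0 := P.disj hc0 hc1 h.1 hab
    have h3 := P.pong_step h2
    rw [P.word_cons a]
    exact ⟨h3.1, h.2.trans h3.2⟩

theorem pong_lt {a : ℤ} {L : List ℤ} (hL : Red N (a :: L)) {v : V3} (h0 : 0 < v.2)
    (h1 : ‖v.1‖ ≤ v.2) (hlast : ∀ b ∈ (a :: L).getLast?, B v (P.nrm b) < 0) :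
    0 < B (P.word (a :: L) v) (P.nrm a) := by
  induction L generalizing a with
  | nil =>
    have h : B v (P.nrm a) < 0 := hlast a (by simp)
    rw [P.word_cons, P.word_nil]
    exact P.pong_step_lt h
  | cons b M ih =>
    obtain ⟨hab, hbM⟩ := List.isChain_cons_cons.mp hL
    have h := ih hbM (fun c hc => hlast c (by rwa [List.getLast?_cons_cons]))
    obtain ⟨hc0, hc1⟩ := P.cone_word (b :: M) h0 h1
    have h2 : B (P.word (b :: M) v) (P.nrm a) < 0 := P.disj_lt' hc0 hc1 h hab
    rw [P.word_cons a]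
    exact P.pong_step_lt h2

/-- words of length at least two map the polygon into the open cap -/
theorem pong_two {a b : ℤ} {L : List ℤ} (hL : Red N (a :: b :: L)) {v : V3} (hv : v ∈ P.Qv) :
    0 < B (P.word (a :: b :: L) v) (P.nrm a) := by
  obtain ⟨hab, hbM⟩ := List.isChain_cons_cons.mp hL
  have h0 : 0 < v.2 := lt_of_le_of_lt (norm_nonneg _) hv.1
  have h := P.pong hbM h0 hv.1.le (fun c _ => hv.2 c)
  have h2 : B (P.word (b :: L) v) (P.nrm a) < 0 :=
    P.disj_lt (P.cone_word_lt (b :: L) hv.1) h.1 hab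
  rw [P.word_cons a]
  exact P.pong_step_lt h2

/-- the height does not decrease -/
theorem le_word_snd {L : List ℤ} (hL : Red N L) {v : V3} (h0 : 0 < v.2) (h1 : ‖v.1‖ ≤ v.2)
    (hv : ∀ j, B v (P.nrm j) ≤ 0) : v.2 ≤ (P.word L v).2 := by
  rcases L with _ | ⟨a, M⟩
  · exact le_rfl
  · exact (P.pong hL h0 h1 (fun c _ => hv c)).2

/-- UNIQUENESS of the cell -/
theorem unique {L : List ℤ} {q q' : V3} (hq : q ∈ P.Qv) (hq' : q' ∈ P.Qv) {c : ℝ} (hc : 0 < c)
    (h : P.word L q = c • q') :
    q = c • q' ∧ ((∀ v, P.word L v = v) ∨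
      ∃ j, B q (P.nrm j) = 0 ∧ ∀ v, P.word L v = P.rf j v) := by
  obtain ⟨L', hL', hw, -⟩ := P.exists_red L
  rcases L' with _ | ⟨a, M⟩
  · have h1 : ∀ v, P.word L v = v := fun v => (hw v).symm
    exact ⟨(h1 q).symm.trans h, Or.inl h1⟩
  rcases M with _ | ⟨b, M⟩
  · have h1 : ∀ v, P.word L v = P.rf a v := fun v => (hw v).symm
    have h2 : P.rf a q = c • q' := (h1 q).symm.trans h
    have h3 : 0 ≤ B (P.rf a q) (P.nrm a) := (P.pong_step (hq.2 a)).1
    have h4 : B (c • q') (P.nrm a) ≤ 0 := by
      rw [B_smul_left]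
      exact mul_nonpos_of_nonneg_of_nonpos hc.le (hq'.2 a)
    have h5 : B (P.rf a q) (P.nrm a) = - B q (P.nrm a) :=
      B_refl_left (P.B_nrm_nrm_pos a).ne' q
    have h6 : B q (P.nrm a) = 0 := by
      rw [h2] at h3 h5
      linarith
    have h7 : P.rf a q = q := refl_fix h6
    exact ⟨h7.symm.trans h2, Or.inr ⟨a, h6, h1⟩⟩
  · exfalso
    have h1 := P.pong_two hL' hq
    rw [hw, h, B_smul_left] at h1
    have h2 := mul_nonpos_of_nonneg_of_nonpos hc.le (hq'.2 a)
    linarith

end Poly

end Pool.Agent.RAYT
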