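import Pool.Agent.RAYT.Ball

/-!
RAYT/Pr: the covering map `pr : open disc → S minus the vertices` (algebraic part).

PROOFS.  `κ_lt`: `κ x ∈ Qc`, `‖κ x‖ ≤ 1`, and equality would make `κ x` a vertex
(`Poly.eq_pt_of_norm_one`).  `κ_base`: `κ_up`, `0 ∈ Qc` (`zero_mem_Qv`).  `gap_mem`: `cover`; if
`x ∈ SU` then `x = up (κ x) = dn (κ x) ∈ SV` by `up_κ, glue, dn_mem`.
`Cell.unique`: `word L (κ x, 1)` and `word L' (κ x', 1)` have the same `proj`, both in the open
cone, so `word L (κ x,1) = c • word L' (κ x',1)`, `c > 0`.  Apply `word L'.reverse`: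
`word (L'.reverse ++ L) (κ x,1) = c • (κ x',1)`; `Poly.unique` gives `(κ x,1) = c • (κ x',1)`, so
`c = 1`, `κ x = κ x'`, and either `word (L'.reverse ++ L) = 1`, so `word L = word L'`, the parities
agree (`parity_of_word_eq`), `x, x'` are in the same side and `x = x'` (`up_κ` or `dn_κ`); or
`word (L'.reverse ++ L) = rf j` with `B (κ x,1) (nrm j) = 0`: then `up (κ x) = dn (κ x)` by `glue`,
so again `x = x'`, and `word L' = word L ∘ rf j`.
`pr_eq`: unfold `pr`, `dif_pos`, `Cell.unique`.  `exists_cell`: `exists_cell_v` for `(z,1)`,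
`x = up (proj q)` or `dn (proj q)` according to the parity, `κ x = proj q` has norm `< 1`, hence is
not a vertex.  `Cell.norm_lt`: `norm_act_lt`.  `pr_up`: `Cell [] (up z) z`.  `pr_act`:
`Cell M x z → Cell (L ++ M) x (act L z)` for even `L`.  `eq_act_of_pr_eq`: cells `(M, x)`,
`(M', x)` of `z, z'`; if the parities agree take `L = M' ++ M.reverse`; otherwise `x ∈ SU ∩ SV`,
`inter` gives `j` with `B = 0` and `act (M' ++ [j]) (κ x) = z'` (`act_concat_side`).
`word_eq_of_act_eq`: cells `M` and `L ++ M` of `z`; `Cell.unique`: the second alternative is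
excluded by the parity, the first gives `word L = 1` (apply to `word M.reverse v`).
-/

set_option autoImplicit false

namespace Pool.Agent.RAYT

open Complex Set Topology Filter

namespace Dbl

variable {N : ℕ} {P : Poly N} {S : Type*} [TopologicalSpace S] (D : Dbl P S)

theorem κ_lt {x : S} (hx : x ∉ D.Vert) : ‖D.κ x‖ < 1 := by
  rcases lt_or_eq_of_le (D.κ_mem x).1 with h | h
  · exact h
  · exact absurd (P.eq_pt_of_norm_one h (D.κ_mem x)) hx

theorem κ_Qv {x : S} (hx : x ∉ D.Vert) : (D.κ x, (1 : ℝ)) ∈ P.Qv :=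
  ⟨D.κ_lt hx, (D.κ_mem x).2⟩

private theorem zero_mem_Qc_Pr : (0 : ℂ) ∈ P.Qc :=
  ⟨by simp, P.zero_mem_Qv.2⟩

private theorem not_vert_of_norm_Pr {x : S} (h : ‖D.κ x‖ < 1) : x ∉ D.Vert := by
  rintro ⟨j, hj⟩
  rw [hj, P.norm_pt] at h
  exact lt_irrefl _ h

theorem κ_base : D.κ (D.up 0) = 0 := D.κ_up 0 zero_mem_Qc_Pr

theorem base_not_vert : D.up 0 ∉ D.Vert := by
  apply D.not_vert_of_norm_Pr
  rw [D.κ_base]
  simp

theorem gap_mem {j : ℤ} {x : S} (hx : x ∈ D.Gap j) : x ∈ D.SU ∧ x ∈ D.SV := by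
  have hg := D.glue (D.κ x) (D.κ_mem x) ⟨j, hx.2⟩
  have hc : x ∈ D.SU ∪ D.SV := by rw [D.cover]; exact Set.mem_univ x
  rcases hc with h | h
  · refine ⟨h, ?_⟩
    have h2 := D.dn_mem _ (D.κ_mem x)
    rwa [← hg, D.up_κ x h] at h2
  · refine ⟨?_, h⟩
    have h2 := D.up_mem _ (D.κ_mem x)
    rwa [hg, D.dn_κ x h] at h2

/-- a point on a side of the cover is the image of exactly one cell up to the crossing of a gap -/
theorem Cell.unique {L L' : List ℤ} {x x' : S} {z : ℂ} (h : D.Cell L x z) (h' : D.Cell L' x' z) :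
    x = x' ∧ ((∀ v, P.word L' v = P.word L v) ∨
      ∃ j, x ∈ D.Gap j ∧ ∀ v, P.word L' v = P.word L (P.rf j v)) := by
  obtain ⟨hx, hp, hz⟩ := h
  obtain ⟨hx', hp', hz'⟩ := h'
  have hq := D.κ_Qv hx
  have hq' := D.κ_Qv hx'
  have c1 : ‖(P.word L (D.κ x, 1)).1‖ < (P.word L (D.κ x, 1)).2 := P.cone_word_lt L hq.1
  have c1' : ‖(P.word L' (D.κ x', 1)).1‖ < (P.word L' (D.κ x', 1)).2 := P.cone_word_lt L' hq'.1
  have c2 : 0 < (P.word L (D.κ x, 1)).2 := lt_of_le_of_lt (norm_nonneg _) c1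
  have c2' : 0 < (P.word L' (D.κ x', 1)).2 := lt_of_le_of_lt (norm_nonneg _) c1'
  have e1 := eq_smul_proj c2.ne'
  have e1' := eq_smul_proj c2'.ne'
  have hz2 : proj (P.word L (D.κ x, 1)) = z := hz.symm
  have hz2' : proj (P.word L' (D.κ x', 1)) = z := hz'.symm
  rw [hz2] at e1
  rw [hz2'] at e1'
  obtain ⟨a, ha, e2⟩ : ∃ a : ℝ, 0 < a ∧ P.word L (D.κ x, 1) = a • ((z, 1) : V3) := ⟨_, c2, e1⟩
  obtain ⟨b, hb, e2'⟩ : ∃ a : ℝ, 0 < a ∧ P.word L' (D.κ x', 1) = a • ((z, 1) : V3) :=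
    ⟨_, c2', e1'⟩
  have hc : 0 < a / b := div_pos ha hb
  have e3 : P.word L (D.κ x, 1) = (a / b) • P.word L' (D.κ x', 1) := by
    rw [e2, e2', smul_smul, div_mul_cancel₀ _ hb.ne']
  have e4 : P.word (L'.reverse ++ L) (D.κ x, 1) = (a / b) • ((D.κ x', 1) : V3) := by
    rw [P.word_append, e3, map_smul, P.word_reverse]
  obtain ⟨e5, e6⟩ := P.unique hq hq' hc e4
  have e7 : D.κ x = D.κ x' := by
    have h2 : (1 : ℝ) = (a / b) * 1 := congrArg Prod.snd e5
    have h3 : a / b = 1 := by linarith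
    have h4 := congrArg Prod.fst e5
    rw [h3] at h4
    simpa using h4
  rcases e6 with e6 | ⟨j, hj, e6⟩
  · have e8 : ∀ v, P.word L' v = P.word L v := by
      intro v
      have := congrArg (P.word L') (e6 v)
      rw [P.word_append, P.word_reverse'] at this
      exact this.symm
    have e9 : (Even L'.length ↔ Even L.length) := P.parity_of_word_eq e8
    refine ⟨?_, Or.inl e8⟩
    rcases hp with ⟨p1, p2⟩ | ⟨p1, p2⟩
    · rcases hp' with ⟨p1', p2'⟩ | ⟨p1', p2'⟩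
      · rw [← D.up_κ x p2, ← D.up_κ x' p2', e7]
      · exact absurd (e9.mpr p1) (Nat.not_even_iff_odd.mpr p1')
    · rcases hp' with ⟨p1', p2'⟩ | ⟨p1', p2'⟩
      · exact absurd (e9.mp p1') (Nat.not_even_iff_odd.mpr p1)
      · rw [← D.dn_κ x p2, ← D.dn_κ x' p2', e7]
  · have g1 : x ∈ D.Gap j := ⟨hx, hj⟩
    have g2 : x' ∈ D.Gap j := ⟨hx', by rw [← e7]; exact hj⟩
    refine ⟨?_, Or.inr ⟨j, g1, ?_⟩⟩
    · rw [← D.up_κ x (D.gap_mem g1).1, ← D.up_κ x' (D.gap_mem g2).1, e7]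
    · intro v
      have h2 := congrArg (P.word L') (e6 (P.rf j v))
      rw [P.word_append, P.word_reverse'] at h2
      have h3 : P.rf j (P.rf j v) = v := refl_refl (P.nrm j) v
      rw [h3] at h2
      exact h2.symm

theorem pr_eq {L : List ℤ} {x : S} {z : ℂ} (h : D.Cell L x z) : D.pr z = x := by
  have hex : ∃ x L, D.Cell L x z := ⟨x, L, h⟩
  unfold pr
  rw [dif_pos hex]
  obtain ⟨L', h'⟩ := hex.choose_spec
  exact (Cell.unique D h' h).1

theorem exists_cell {z : ℂ} (hz : ‖z‖ < 1) : ∃ x L, D.Cell L x z := by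
  obtain ⟨L, q, hq, e⟩ := P.exists_cell_v (v := ((z, 1) : V3)) hz
  have h0 : 0 < q.2 := lt_of_le_of_lt (norm_nonneg _) hq.1
  have h1 : ‖proj q‖ < 1 := by
    rw [norm_proj h0, div_lt_one h0]; exact hq.1
  have h2 : proj q ∈ P.Qc := by
    refine ⟨h1.le, fun j => ?_⟩
    have h3 := hq.2 j
    rw [eq_smul_proj h0.ne', B_smul_left] at h3
    by_contra hcon
    push Not at hcon
    have := mul_pos h0 hcon
    linarith
  have h4 : z = P.act L (proj q) := by
    rw [← P.proj_word L h0 hq.1.le, ← e, proj_one]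
  rcases Nat.even_or_odd L.length with hL | hL
  · refine ⟨D.up (proj q), L, ?_, Or.inl ⟨hL, D.up_mem _ h2⟩, ?_⟩
    · apply D.not_vert_of_norm_Pr; rw [D.κ_up _ h2]; exact h1
    · rw [D.κ_up _ h2]; exact h4
  · refine ⟨D.dn (proj q), L, ?_, Or.inr ⟨hL, D.dn_mem _ h2⟩, ?_⟩
    · apply D.not_vert_of_norm_Pr; rw [D.κ_dn _ h2]; exact h1
    · rw [D.κ_dn _ h2]; exact h4

theorem Cell.norm_lt {L : List ℤ} {x : S} {z : ℂ} (h : D.Cell L x z) : ‖z‖ < 1 := by
  rw [h.2.2]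
  exact P.norm_act_lt L (D.κ_lt h.1)

theorem pr_not_vert {z : ℂ} (hz : ‖z‖ < 1) : D.pr z ∉ D.Vert := by
  obtain ⟨x, L, h⟩ := D.exists_cell hz
  rw [D.pr_eq h]
  exact h.1

/-- on the polygon `pr` is `up` -/
theorem pr_up {z : ℂ} (hz : ‖z‖ < 1) (h : z ∈ P.Qc) : D.pr z = D.up z := by
  apply D.pr_eq (L := [])
  refine ⟨?_, Or.inl ⟨by simp, D.up_mem _ h⟩, ?_⟩
  · apply D.not_vert_of_norm_Pr; rw [D.κ_up _ h]; exact hz
  · rw [D.κ_up _ h, P.act_nil]

theorem pr_zero : D.pr 0 = D.up 0 := D.pr_up (by simp) zero_mem_Qc_Pr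

private theorem cell_append_Pr {L M : List ℤ} (hL : Even L.length) {x : S} {z : ℂ}
    (h : D.Cell M x z) : D.Cell (L ++ M) x (P.act L z) := by
  obtain ⟨hx, hp, hz⟩ := h
  refine ⟨hx, ?_, ?_⟩
  · rw [List.length_append]
    rcases hp with ⟨p1, p2⟩ | ⟨p1, p2⟩
    · exact Or.inl ⟨hL.add p1, p2⟩
    · exact Or.inr ⟨hL.add_odd p1, p2⟩
  · rw [hz, P.act_append L M (D.κ_lt hx).le]

/-- deck transformations -/
theorem pr_act {L : List ℤ} (hL : Even L.length) {z : ℂ} (hz : ‖z‖ < 1) :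
    D.pr (P.act L z) = D.pr z := by
  obtain ⟨x, M, h⟩ := D.exists_cell hz
  rw [D.pr_eq h, D.pr_eq (D.cell_append_Pr hL h)]

theorem eq_act_of_pr_eq {z z' : ℂ} (hz : ‖z‖ < 1) (hz' : ‖z'‖ < 1) (h : D.pr z = D.pr z') :
    ∃ L : List ℤ, Even L.length ∧ z' = P.act L z := by
  obtain ⟨x, M, c⟩ := D.exists_cell hz
  obtain ⟨x', M', c'⟩ := D.exists_cell hz'
  rw [D.pr_eq c, D.pr_eq c'] at h
  subst h
  obtain ⟨hx, hp, e⟩ := c
  obtain ⟨_, hp', e'⟩ := c'
  have hk : ‖D.κ x‖ ≤ 1 := (D.κ_lt hx).le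
  have key : ∀ K : List ℤ, P.act K (D.κ x) = z' → P.act (K ++ M.reverse) z = z' := by
    intro K hK
    rw [P.act_append K _ hz.le, e, P.act_reverse M hk, hK]
  by_cases hpar : (Even M.length ↔ Even M'.length)
  · refine ⟨M' ++ M.reverse, ?_, (key M' e'.symm).symm⟩
    rw [List.length_append, List.length_reverse, Nat.even_add]
    exact hpar.symm
  · have hin : x ∈ D.SU ∧ x ∈ D.SV := by
      rcases hp with ⟨p1, p2⟩ | ⟨p1, p2⟩
      · rcases hp' with ⟨p1', p2'⟩ | ⟨p1', p2'⟩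
        · exact absurd (iff_of_true p1 p1') hpar
        · exact ⟨p2, p2'⟩
      · rcases hp' with ⟨p1', p2'⟩ | ⟨p1', p2'⟩
        · exact ⟨p2', p2⟩
        · exact absurd (iff_of_false (Nat.not_even_iff_odd.mpr p1)
            (Nat.not_even_iff_odd.mpr p1')) hpar
    obtain ⟨j, hj⟩ := D.inter x hin.1 hin.2
    refine ⟨(M' ++ [j]) ++ M.reverse, ?_, (key (M' ++ [j]) ?_).symm⟩
    · rw [List.length_append, List.length_append, List.length_reverse, List.length_singleton,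
        Nat.even_add, Nat.even_add_one]
      tauto
    · rw [P.act_concat_side M' hj]; exact e'.symm

/-- the deck group acts freely -/
theorem word_eq_of_act_eq {L : List ℤ} (hL : Even L.length) {z : ℂ} (hz : ‖z‖ < 1)
    (h : P.act L z = z) : ∀ v, P.word L v = v := by
  obtain ⟨M, q, hq, e⟩ := P.exists_cell_v (v := ((z, 1) : V3)) hz
  have c1 : ‖(P.word L (z, 1)).1‖ < (P.word L (z, 1)).2 := P.cone_word_lt L hz
  have c2 : 0 < (P.word L (z, 1)).2 := lt_of_le_of_lt (norm_nonneg _) c1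
  have e1 := eq_smul_proj c2.ne'
  have hz2 : proj (P.word L (z, 1)) = z := h
  rw [hz2] at e1
  obtain ⟨a, ha, e2⟩ : ∃ a : ℝ, 0 < a ∧ P.word L (z, 1) = a • ((z, 1) : V3) := ⟨_, c2, e1⟩
  have e4 : P.word (M.reverse ++ (L ++ M)) q = a • q := by
    rw [P.word_append, P.word_append, ← e, e2, map_smul, e, P.word_reverse]
  rcases (P.unique hq hq ha e4).2 with e6 | ⟨j, _, e6⟩
  · intro v
    have h3 := congrArg (P.word M) (e6 (P.word M.reverse v))
    rwa [P.word_append, P.word_reverse', P.word_append, P.word_reverse'] at h3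
  · exfalso
    have e2 : ∀ v, P.word (M.reverse ++ (L ++ M)) v = P.word [j] v := by
      intro v
      rw [e6 v, P.word_cons, P.word_nil]
    have e3 := P.parity_of_word_eq e2
    rw [List.length_append, List.length_append, List.length_reverse, List.length_singleton,
      Nat.even_add, Nat.even_add] at e3
    have : ¬ Even 1 := by decide
    tauto

end Dbl

end Pool.Agent.RAYT
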