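import Pool.Agent.RAYT.Ends

/-!
RAYT/Ray: rays, end points of rays, homotopy invariance.

PROOFS.  `tau`: elementary.  `IsRayP.exists_lift`: `Cov.exists_lift` for `A = ℝ`, `z₀ = 0`,
`pr_zero`.  `IsRayP.tendsto`: lifts with `g 0 = 0` are unique (`lift_unique`), limits are unique,
and the limit exists by `exists_tendsto` (`γ (tau x) → γ 1 = up (pt j)`).  `endPt_form`,
`norm_endPt`: `exists_tendsto`, `norm_act_eq`, `norm_pt`.
`endPt_homotopy`: extend `H` to `ℝ × ℝ`: `K (s, x) = H (proj_I s, tau x)` (`Set.projIcc`), no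
vertex, `K (s, 0) = up 0`; lift `G : ℝ × ℝ → ℂ` with `G (0, 0) = 0`; `G (s, 0) = 0` for all `s` by
uniqueness (`pr_zero`).  The set `{(s, t) | H (s, t) ∈ Near j}` is a neighbourhood of
`I × {1}` minus the vertices (`eventually_near`, `H (s, 1) = up (pt j)`; tube lemma
`generalized_tube_lemma`), so there is `T` with `K (s, x) ∈ Near j` for `s ∈ [0,1]`, `x ≥ T`;
`evec_const` on `[0,1] × [T, ∞)`: `evec j (G (0,x)) = evec j (G (1,x))` is the same vector
`word L (pt j,1)`; `tendsto_act` for `x ↦ G (0,x)` and `x ↦ G (1,x)`.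
-/

set_option autoImplicit false

namespace Pool.Agent.RAYT

open Complex Set Topology Filter unitInterval

/-- the reparametrization `ℝ → [0, 1)` -/
noncomputable def tau (x : ℝ) : I := ⟨|x| / (1 + |x|), by
  constructor
  · positivity
  · rw [div_le_one (by positivity)]; linarith⟩

theorem continuous_tau : Continuous tau := by
  refine Continuous.subtype_mk ?_ _
  exact continuous_abs.div (continuous_const.add continuous_abs) fun x => by positivity

theorem tau_zero : tau 0 = 0 := by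
  apply Subtype.ext
  simp [tau]

theorem tau_ne_one (x : ℝ) : tau x ≠ 1 := by
  intro h
  have h1 : |x| / (1 + |x|) = 1 := congrArg Subtype.val h
  have h2 : (1 + |x|) ≠ 0 := by positivity
  rw [div_eq_one_iff_eq h2] at h1
  linarith

theorem tendsto_tau : Tendsto tau atTop (𝓝 1) := by
  rw [tendsto_subtype_rng]
  have h1 : Tendsto (fun x : ℝ => 1 + |x|) atTop atTop :=
    tendsto_atTop_add_const_left _ _ tendsto_abs_atTop_atTop
  have h2 : Tendsto (fun x : ℝ => 1 - (1 + |x|)⁻¹) atTop (𝓝 (1 - 0)) :=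
    tendsto_const_nhds.sub (tendsto_inv_atTop_zero.comp h1)
  rw [sub_zero] at h2
  refine h2.congr fun x => ?_
  have h3 : (1 + |x|) ≠ 0 := by positivity
  change 1 - (1 + |x|)⁻¹ = |x| / (1 + |x|)
  field_simp
  ring

theorem exists_tau {t : I} (h : t ≠ 1) : ∃ x : ℝ, 0 ≤ x ∧ tau x = t := by
  have h1 : (t : ℝ) < 1 := lt_of_le_of_ne t.2.2 fun h2 => h (Subtype.ext h2)
  have h3 : 0 < 1 - (t : ℝ) := by linarith
  have h4 : 0 ≤ (t : ℝ) / (1 - t) := div_nonneg t.2.1 h3.le
  refine ⟨(t : ℝ) / (1 - t), h4, Subtype.ext ?_⟩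
  change |(t : ℝ) / (1 - t)| / (1 + |(t : ℝ) / (1 - t)|) = t
  rw [abs_of_nonneg h4]
  have h5 : 1 + (t : ℝ) / (1 - t) = 1 / (1 - t) := by
    field_simp
    ring
  rw [h5]
  field_simp

theorem tau_inj {x y : ℝ} (hx : 0 ≤ x) (hy : 0 ≤ y) (h : tau x = tau y) : x = y := by
  have h1 : |x| / (1 + |x|) = |y| / (1 + |y|) := congrArg Subtype.val h
  rw [abs_of_nonneg hx, abs_of_nonneg hy, div_eq_div_iff (by positivity) (by positivity)] at h1
  linarith

theorem tau_mono {x y : ℝ} (hx : 0 ≤ x) (h : x ≤ y) : tau x ≤ tau y := by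
  have hy : 0 ≤ y := hx.trans h
  change |x| / (1 + |x|) ≤ |y| / (1 + |y|)
  rw [abs_of_nonneg hx, abs_of_nonneg hy, div_le_div_iff₀ (by positivity) (by positivity)]
  linarith

namespace Dbl

variable {N : ℕ} {P : Poly N} {S : Type*} [TopologicalSpace S] (D : Dbl P S)

/-- a (not necessarily simple) ray from the base point to the vertex `j` -/
structure IsRayP (j : ℤ) (γ : I → S) : Prop where
  continuous : Continuous γ
  zero : γ 0 = D.up 0
  interior : ∀ t, t ≠ 1 → γ t ∉ D.Vert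
  one : γ 1 = D.up (P.pt j)

open Classical in
/-- the end point (on the unit circle) of a ray -/
noncomputable def endPt (γ : I → S) : ℂ :=
  if h : ∃ E : ℂ, ∃ g : ℝ → ℂ, D.IsLift (fun x => γ (tau x)) g ∧ g 0 = 0 ∧
    Tendsto g atTop (𝓝 E) then h.choose else 0

theorem IsRayP.exists_lift {j : ℤ} {γ : I → S} (h : D.IsRayP j γ) :
    ∃ g : ℝ → ℂ, D.IsLift (fun x => γ (tau x)) g ∧ g 0 = 0 :=
  D.exists_lift (h.continuous.comp continuous_tau) (fun a => h.interior _ (tau_ne_one a)) 0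
    (by simp) (by rw [D.pr_zero, Function.comp_apply, tau_zero, h.zero])

/-- a ray tends to its vertex -/
private theorem ray_lim {j : ℤ} {γ : I → S} (h : D.IsRayP j γ) :
    Tendsto (fun x => γ (tau x)) atTop (𝓝 (D.up (P.pt j))) := by
  have h1 := (h.continuous.tendsto 1).comp tendsto_tau
  rw [h.one] at h1
  exact h1

theorem IsRayP.tendsto {j : ℤ} {γ : I → S} (h : D.IsRayP j γ) {g : ℝ → ℂ}
    (hg : D.IsLift (fun x => γ (tau x)) g) (h0 : g 0 = 0) : Tendsto g atTop (𝓝 (D.endPt γ)) := by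
  obtain ⟨L, -, hL⟩ := D.exists_tendsto hg (D.ray_lim h)
  have hex : ∃ E : ℂ, ∃ g : ℝ → ℂ, D.IsLift (fun x => γ (tau x)) g ∧ g 0 = 0 ∧
      Tendsto g atTop (𝓝 E) := ⟨_, g, hg, h0, hL⟩
  unfold endPt
  rw [dif_pos hex]
  obtain ⟨g', hg', h0', hE'⟩ := hex.choose_spec
  rw [D.lift_unique hg hg' 0 (by rw [h0, h0'])]
  exact hE'

theorem IsRayP.endPt_form {j : ℤ} {γ : I → S} (h : D.IsRayP j γ) :
    ∃ L : List ℤ, D.endPt γ = P.act L (P.pt j) := by
  obtain ⟨g, hg, h0⟩ := IsRayP.exists_lift D h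
  obtain ⟨L, -, hL⟩ := D.exists_tendsto hg (D.ray_lim h)
  exact ⟨L, tendsto_nhds_unique (IsRayP.tendsto D h hg h0) hL⟩

theorem IsRayP.norm_endPt {j : ℤ} {γ : I → S} (h : D.IsRayP j γ) : ‖D.endPt γ‖ = 1 := by
  obtain ⟨L, hL⟩ := IsRayP.endPt_form D h
  rw [hL]
  exact P.norm_act_eq L (P.norm_pt j)

/-- HOMOTOPY INVARIANCE -/
theorem endPt_homotopy {j : ℤ} {H : I × I → S} (hH : Continuous H)
    (h : ∀ s, D.IsRayP j fun t => H (s, t)) :
    D.endPt (fun t => H (0, t)) = D.endPt (fun t => H (1, t)) := by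
  -- the map on the plane
  set K : ℝ × ℝ → S := fun p => H (Set.projIcc 0 1 zero_le_one p.1, tau p.2) with hK
  have hKc : Continuous K := by
    refine hH.comp (Continuous.prodMk ?_ ?_)
    · exact (continuous_projIcc (h := zero_le_one)).comp continuous_fst
    · exact continuous_tau.comp continuous_snd
  have hKV : ∀ p, K p ∉ D.Vert := fun p => (h _).interior _ (tau_ne_one _)
  have hK0 : ∀ s : ℝ, K (s, 0) = D.up 0 := by
    intro s
    have h1 := (h (Set.projIcc 0 1 zero_le_one s)).zero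
    simp only [hK, tau_zero]
    exact h1
  obtain ⟨G, hG, hG0⟩ := D.exists_lift hKc hKV (0, 0) (z₀ := 0) (by simp)
    (by rw [D.pr_zero, hK0])
  -- the base point
  have hGs : ∀ s : ℝ, G (s, 0) = 0 := by
    intro s
    have l1 : D.IsLift (fun _ : ℝ => D.up 0) (fun s : ℝ => G (s, 0)) :=
      ⟨hG.1.comp (by fun_prop), fun t => hG.2.1 _, fun t => by rw [hG.2.2, hK0]⟩
    have l2 : D.IsLift (fun _ : ℝ => D.up 0) (fun _ : ℝ => (0 : ℂ)) :=
      ⟨continuous_const, fun t => by simp, fun t => D.pr_zero⟩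
    exact congrFun (D.lift_unique l1 l2 0 hG0) s
  -- lifts of the two rays
  have lift0 : D.IsLift (fun x => H (0, tau x)) (fun x => G (0, x)) := by
    refine ⟨hG.1.comp (by fun_prop), fun t => hG.2.1 _, fun t => ?_⟩
    rw [hG.2.2]
    simp only [hK]
    rw [Set.projIcc_left]
    rfl
  have lift1 : D.IsLift (fun x => H (1, tau x)) (fun x => G (1, x)) := by
    refine ⟨hG.1.comp (by fun_prop), fun t => hG.2.1 _, fun t => ?_⟩
    rw [hG.2.2]
    simp only [hK]
    rw [Set.projIcc_right]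
    rfl
  -- near the vertex
  have hnear : ∀ᶠ t : I in 𝓝 1, ∀ s ∈ (Set.univ : Set I),
      H (s, t) ∉ D.Vert → H (s, t) ∈ D.Near j := by
    refine isCompact_univ.eventually_forall_of_forall_eventually fun s _ => ?_
    have hc : Continuous fun z : I × I => H (z.2, z.1) :=
      hH.comp (continuous_snd.prodMk continuous_fst)
    have h1 := hc.tendsto ((1 : I), s)
    have h2 : H (s, 1) = D.up (P.pt j) := (h s).one
    simp only [h2] at h1
    exact h1.eventually (D.eventually_near j)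
  obtain ⟨T, hT⟩ := eventually_atTop.mp (tendsto_tau.eventually hnear)
  have hgood : ∀ a ∈ (Set.univ : Set ℝ) ×ˢ Ici T, ‖G a‖ < 1 ∧ D.pr (G a) ∈ D.Near j := by
    rintro ⟨s, x⟩ ⟨-, hx⟩
    refine ⟨hG.2.1 _, ?_⟩
    rw [hG.2.2]
    exact hT x hx _ (Set.mem_univ _) (hKV (s, x))
  have hconst := D.evec_const (isPreconnected_univ.prod isPreconnected_Ici) hG.1.continuousOn hgood
  obtain ⟨L, hL, hL0⟩ := D.exists_tendsto lift0 (D.ray_lim (h 0))
  have hL1 : ∀ᶠ t in atTop, D.evec j (G (1, t)) = P.word L (P.pt j, 1) := by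
    filter_upwards [hL, eventually_ge_atTop T] with t h1 h2
    rw [← h1]
    exact hconst (1, t) ⟨Set.mem_univ _, h2⟩ (0, t) ⟨Set.mem_univ _, h2⟩
  have hL1' := D.tendsto_act lift1 (D.ray_lim (h 1)) hL1
  have e0 := tendsto_nhds_unique (IsRayP.tendsto D (h 0) lift0 (hGs 0)) hL0
  have e1 := tendsto_nhds_unique (IsRayP.tendsto D (h 1) lift1 (hGs 1)) hL1'
  rw [e0, e1]

end Dbl

end Pool.Agent.RAYT
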