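import Pool.Agent.RAYT.Pr

/-!
RAYT/Sec: local sections of `pr`, continuity, disjoint neighbourhoods.

PROOFS.  Let `(L, x)` be a cell of `z`.
Open sets of the disc (finitely many conditions, only `j mod N` matters):
`W₀ = {w | ‖w‖ < 1, ∀ i, B (w,1) (nrm i) < 0}`, and for a gap `j`
`W_j = {w | ‖w‖ < 1, ∀ i ≢ j, B (w,1) (nrm i) < 0 ∧ B (rf j (w,1)) (nrm i) < 0}`.
For `w ∈ W_j`: if `B (w,1) (nrm j) ≤ 0` then `w ∈ Qc` and nothing else is needed; if `≥ 0` then
`w = act [j] w'` with `w' = act [j] w ∈ Qc` (`rf j` is an involution).  Conversely, if `‖w‖ < 1`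
and `∀ i ≢ j, B (w,1) (nrm i) < 0` and `B (w,1) (nrm j) ≤ 0`, then the conditions for
`rf j (w,1)` hold automatically by `disj_lt` (as `B (rf j (w,1)) (nrm j) ≥ 0`), so `w ∈ W_j`.
Case A: `x` in no gap, then `κ x ∈ W₀`; for `w ∈ W₀` the list `L` and `x' = up w` or `dn w` (parity
of `L`) is a cell of `act L w`.  Case B: `x ∈ Gap j`, then `κ x ∈ W_j` (`disj_lt`); for `w ∈ W_j`
either `L` or `L ++ [j]` gives a cell of `act L w`.
`act L` restricted to the open disc is continuous with continuous inverse `act L.reverse`, so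
`act L '' W` is open for `W` open in the disc (it is the preimage of `W` under `act L.reverse`
intersected with the disc).  `eventually_cell`: these two cases.
`exists_section`.  Case A: `O = SVᶜ` if `L` is even, `SUᶜ` if `L` is odd; on `O`, `s y = act L (κ
y)`
(for `y ∉ SV`: `y ∈ SU` and all `B (κ y,1) (nrm i) < 0`, otherwise `y = up (κ y) = dn (κ y) ∈ SV` by
`glue`); `x ∈ O` because of `inter`.  The image is `act L '' W₀`.  Case B:
`O = {y | y ∉ Vert ∧ ∀ i ≢ j, B (κ y,1) (nrm i) < 0}` (`Vert` is closed: preimage of a finite set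
under `κ`), `s y = act L (κ y)` on the side of the parity of `L`, `s y = act (L ++ [j]) (κ y)` on
the other side; both sides are closed and the formulas agree on the intersection (`inter` gives
some `i` with `B = 0`, so `i ≡ j`, `act_concat_side`), so `s` is continuous on `O`
(`ContinuousOn.union_of_isClosed` or similar).  The image is `act L '' W_j`.
`continuousOn_pr`: at `z` the set `s '' O` is an open neighbourhood, and on it `pr` is the inverse
of `s`; better: on `act L '' W` one has the formula `pr (act L w) = up w` (or `dn w`) for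
`w ∈ W₀`, and for `w ∈ W_j` the formula with `up w` / `dn (act [j] w)` on the two closed halves.
`exists_disjoint`: `W = s '' O` intersected with a small ball is enough in case A: if
`w, act M w ∈ act L '' W₀`, `M` even, then `pr` is injective on `s '' O` (because
`s (pr w) = w` there), and `pr (act M w) = pr w`, so `act M w = w` and `word_eq_of_act_eq`.  The
same argument works in case B, so in both cases `W = s '' O`.
-/

set_option autoImplicit false

namespace Pool.Agent.RAYT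

open Complex Set Topology Filter

namespace Poly

variable {N : ℕ} (P : Poly N)

include P in
private theorem sec_N_pos : 0 < N := by
  rcases Nat.eq_zero_or_pos N with h | h
  · exfalso
    subst h
    have h1 := P.per 0
    simp only [Nat.cast_zero, add_zero] at h1
    linarith [Real.pi_pos]
  · exact h

/-- an intersection over all gaps is a finite intersection -/
private theorem sec_isOpen_gaps {X : Type*} [TopologicalSpace X] (hN : 0 < N) (p : ℤ → Set X)
    (hp : ∀ i, IsOpen (p i)) (hc : ∀ a b : ℤ, a ≡ b [ZMOD (N : ℤ)] → p a = p b) :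
    IsOpen (⋂ i, p i) := by
  have h : (⋂ i, p i) = ⋂ i ∈ Finset.range N, p (i : ℤ) := by
    ext x
    simp only [mem_iInter, Finset.mem_range]
    refine ⟨fun h i _ => h i, fun h i => ?_⟩
    have hN' : (0 : ℤ) < N := by exact_mod_cast hN
    have h1 := Int.emod_nonneg i hN'.ne'
    have h2 := Int.emod_lt_of_pos i hN'
    have h3 : i ≡ ((i % N).toNat : ℤ) [ZMOD (N : ℤ)] := by
      rw [Int.toNat_of_nonneg h1]; exact (Int.mod_modEq i N).symm
    rw [hc i _ h3]
    exact h _ (by omega)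
  rw [h]
  exact isOpen_biInter_finset fun i _ => hp i

/-- the open polygon -/
private def secW0 : Set ℂ := {w | ‖w‖ < 1 ∧ ∀ i, B (w, 1) (P.nrm i) < 0}

/-- the open polygon and its mirror image, glued along the gap `j` -/
private def secW1 (j : ℤ) : Set ℂ := {w | ‖w‖ < 1 ∧ ∀ i, ¬ i ≡ j [ZMOD (N : ℤ)] →
  B (w, 1) (P.nrm i) < 0 ∧ B (P.rf j (w, 1)) (P.nrm i) < 0}

private theorem sec_cont_B (i : ℤ) : Continuous fun w : ℂ => B (w, 1) (P.nrm i) :=
  (continuous_B_left _).comp (by fun_prop)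

private theorem sec_cont_B' (i j : ℤ) : Continuous fun w : ℂ => B (P.rf j (w, 1)) (P.nrm i) := by
  have h1 : Continuous (P.rf j) := (P.rf j).toLinearMap.continuous_of_finiteDimensional
  exact (continuous_B_left _).comp (h1.comp (by fun_prop))

private theorem sec_isOpen_W0 : IsOpen P.secW0 := by
  have h : P.secW0 = {w : ℂ | ‖w‖ < 1} ∩ ⋂ i : ℤ, {w : ℂ | B (w, 1) (P.nrm i) < 0} := by
    ext w; simp [secW0]
  rw [h]
  refine (isOpen_lt continuous_norm continuous_const).inter ?_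
  refine sec_isOpen_gaps P.sec_N_pos _ (fun i => isOpen_lt (P.sec_cont_B i) continuous_const) ?_
  intro a b hab
  rw [P.nrm_congr hab]

private theorem sec_isOpen_W1 (j : ℤ) : IsOpen (P.secW1 j) := by
  have h : P.secW1 j = {w : ℂ | ‖w‖ < 1} ∩ ⋂ i : ℤ, {w : ℂ | ¬ i ≡ j [ZMOD (N : ℤ)] →
      B (w, 1) (P.nrm i) < 0 ∧ B (P.rf j (w, 1)) (P.nrm i) < 0} := by
    ext w; simp [secW1]
  rw [h]
  refine (isOpen_lt continuous_norm continuous_const).inter ?_
  refine sec_isOpen_gaps P.sec_N_pos _ (fun i => ?_) ?_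
  · by_cases hi : i ≡ j [ZMOD (N : ℤ)]
    · simp [hi]
    · simp only [hi, not_false_eq_true, true_imp_iff]
      exact (isOpen_lt (P.sec_cont_B i) continuous_const).inter
        (isOpen_lt (P.sec_cont_B' i j) continuous_const)
  · intro a b hab
    have : a ≡ j [ZMOD (N : ℤ)] ↔ b ≡ j [ZMOD (N : ℤ)] :=
      ⟨fun h => hab.symm.trans h, fun h => hab.trans h⟩
    rw [P.nrm_congr hab, this]

/-- the image of an open subset of the disc under a word is open -/
private theorem sec_image (L : List ℤ) {W : Set ℂ} (hW : IsOpen W) (hb : W ⊆ {w | ‖w‖ < 1}) :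
    IsOpen (P.act L '' W) := by
  have h : P.act L '' W = Metric.ball (0 : ℂ) 1 ∩ P.act L.reverse ⁻¹' W := by
    ext z
    constructor
    · rintro ⟨w, hw, rfl⟩
      have h1 : ‖w‖ < 1 := hb hw
      refine ⟨by simpa using P.norm_act_lt L h1, ?_⟩
      rw [mem_preimage, P.act_reverse L h1.le]
      exact hw
    · rintro ⟨h1, h2⟩
      have h3 : ‖z‖ < 1 := by simpa using h1
      exact ⟨_, h2, P.act_reverse' L h3.le⟩
  rw [h]
  exact ((P.continuousOn_act L.reverse).mono Metric.ball_subset_closedBall).isOpen_inter_preimage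
    Metric.isOpen_ball hW

/-- the letter `j` on the vectors over the disc -/
private theorem sec_act_single (j : ℤ) {w : ℂ} (hw : ‖w‖ < 1) :
    ∃ c : ℝ, 0 < c ∧ P.rf j (w, 1) = c • ((P.act [j] w, 1) : V3) ∧
      ((w, 1) : V3) = c • P.rf j (P.act [j] w, 1) := by
  have h1 : P.word [j] (w, 1) = P.rf j (w, 1) := by
    rw [P.word_cons, P.word_nil]
  have h2 := P.cone_word [j] (v := (w, 1)) one_pos hw.le
  have h3 : P.rf j (w, 1) = (P.rf j (w, 1)).2 • ((P.act [j] w, 1) : V3) := by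
    have := eq_smul_proj (v := P.word [j] (w, 1)) h2.1.ne'
    rw [h1] at this
    unfold act
    rw [h1]
    exact this
  refine ⟨(P.rf j (w, 1)).2, by rw [← h1]; exact h2.1, h3, ?_⟩
  have h4 : P.rf j (P.rf j (w, 1)) = (w, 1) := refl_refl _ _
  conv_lhs => rw [← h4, h3]
  rw [map_smul]

private theorem sec_B_act (j : ℤ) {w : ℂ} (hw : ‖w‖ < 1) (i : ℤ) :
    (B (P.act [j] w, 1) (P.nrm i) < 0 ↔ B (P.rf j (w, 1)) (P.nrm i) < 0) ∧
    (B (P.rf j (P.act [j] w, 1)) (P.nrm i) < 0 ↔ B (w, 1) (P.nrm i) < 0) := by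
  obtain ⟨c, hc, h1, h2⟩ := P.sec_act_single j hw
  have h3 : B (P.rf j (w, 1)) (P.nrm i) = c * B (P.act [j] w, 1) (P.nrm i) := by
    rw [h1, B_smul_left]
  have h4 : B (w, 1) (P.nrm i) = c * B (P.rf j (P.act [j] w, 1)) (P.nrm i) := by
    conv_lhs => rw [h2, B_smul_left]
  rw [h3, h4]
  constructor
  · exact ⟨fun h => mul_neg_of_pos_of_neg hc h, fun h => by
      by_contra h'; exact absurd h (not_lt.mpr (mul_nonneg hc.le (not_lt.mp h')))⟩
  · exact ⟨fun h => mul_neg_of_pos_of_neg hc h, fun h => by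
      by_contra h'; exact absurd h (not_lt.mpr (mul_nonneg hc.le (not_lt.mp h')))⟩

/-- `W1` is symmetric -/
private theorem sec_act_mem_W1 {j : ℤ} {w : ℂ} (hw : w ∈ P.secW1 j) : P.act [j] w ∈ P.secW1 j := by
  refine ⟨P.norm_act_lt _ hw.1, fun i hi => ?_⟩
  have h := P.sec_B_act j hw.1 i
  exact ⟨h.1.mpr (hw.2 i hi).2, h.2.mpr (hw.2 i hi).1⟩

/-- the half of `W1` in the polygon -/
private theorem sec_mem_W1 {j : ℤ} {w : ℂ} (h1 : ‖w‖ < 1)
    (h2 : ∀ i, ¬ i ≡ j [ZMOD (N : ℤ)] → B (w, 1) (P.nrm i) < 0)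
    (h3 : B (w, 1) (P.nrm j) ≤ 0) : w ∈ P.secW1 j := by
  refine ⟨h1, fun i hi => ⟨h2 i hi, ?_⟩⟩
  have h4 : ‖((w, 1) : V3).1‖ < ((w, 1) : V3).2 := h1
  have h5 := cone_refl_lt (P.B_nrm_nrm_pos j) h4
  refine P.disj_lt (j := j) h5 ?_ hi
  have h6 : B (P.rf j (w, 1)) (P.nrm j) = - B (w, 1) (P.nrm j) :=
    B_refl_left (P.B_nrm_nrm_pos j).ne' _
  rw [h6]
  linarith

private theorem sec_Qc_of_W1 {j : ℤ} {w : ℂ} (hw : w ∈ P.secW1 j)
    (h : B (w, 1) (P.nrm j) ≤ 0) : w ∈ P.Qc := by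
  refine ⟨hw.1.le, fun i => ?_⟩
  by_cases hi : i ≡ j [ZMOD (N : ℤ)]
  · rw [P.nrm_congr hi]; exact h
  · exact (hw.2 i hi).1.le

private theorem sec_B_act_j (j : ℤ) {w : ℂ} (hw : ‖w‖ < 1) :
    ∃ c : ℝ, 0 < c ∧ - B (w, 1) (P.nrm j) = c * B (P.act [j] w, 1) (P.nrm j) := by
  obtain ⟨c, hc, h1, h2⟩ := P.sec_act_single j hw
  refine ⟨c, hc, ?_⟩
  have h3 : B (P.rf j (w, 1)) (P.nrm j) = c * B (P.act [j] w, 1) (P.nrm j) := by
    rw [h1, B_smul_left]
  rw [← h3]
  exact (B_refl_left (P.B_nrm_nrm_pos j).ne' _).symm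

private theorem sec_act_Qc {j : ℤ} {w : ℂ} (hw : w ∈ P.secW1 j)
    (h : 0 ≤ B (w, 1) (P.nrm j)) : P.act [j] w ∈ P.Qc := by
  refine P.sec_Qc_of_W1 (P.sec_act_mem_W1 hw) ?_
  obtain ⟨c, hc, h1⟩ := P.sec_B_act_j j hw.1
  by_contra h2
  have h3 := mul_pos hc (not_le.mp h2)
  linarith

private theorem sec_act_act {j : ℤ} {w : ℂ} (hw : ‖w‖ < 1) : P.act [j] (P.act [j] w) = w := by
  have := P.act_reverse [j] hw.le
  simpa using this

/-- crossing the gap `j` -/
private theorem sec_act_snoc (L : List ℤ) {j : ℤ} {w : ℂ} (h1 : ‖w‖ < 1) :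
    P.act (L ++ [j]) (P.act [j] w) = P.act L w := by
  rw [P.act_append L [j] (P.norm_act_le [j] h1.le), P.sec_act_act h1]

private theorem sec_W0_Qc {w : ℂ} (hw : w ∈ P.secW0) : w ∈ P.Qc := ⟨hw.1.le, fun i => (hw.2 i).le⟩

end Poly

namespace Dbl

variable {N : ℕ} {P : Poly N} {S : Type*} [TopologicalSpace S] (D : Dbl P S)

/-- the side of the parity of `L` -/
private def secS (L : List ℤ) : Set S := if Even L.length then D.SU else D.SV

/-- the section of `κ` of the parity of `L` -/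
private def secd (L : List ℤ) : ℂ → S := if Even L.length then D.up else D.dn

private theorem sec_closed (L : List ℤ) : IsClosed (D.secS L) := by
  unfold secS; split_ifs
  · exact D.closedU
  · exact D.closedV

private theorem sec_cell (L : List ℤ) (x : S) (z : ℂ) :
    D.Cell L x z ↔ x ∉ D.Vert ∧ x ∈ D.secS L ∧ z = P.act L (D.κ x) := by
  unfold Cell secS
  by_cases h : Even L.length
  · simp [h]
  · simp [h, Nat.not_even_iff_odd.mp h]

private theorem sec_parity (L : List ℤ) (j : ℤ) :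
    Even (L ++ [j]).length ↔ ¬ Even L.length := by
  rw [List.length_append, List.length_singleton, Nat.even_add_one]

private theorem sec_cover (L : List ℤ) (j : ℤ) (x : S) :
    x ∈ D.secS L ∨ x ∈ D.secS (L ++ [j]) := by
  have h : x ∈ D.SU ∪ D.SV := by rw [D.cover]; trivial
  unfold secS
  by_cases hL : Even L.length
  · have : ¬ Even (L ++ [j]).length := fun h' => (sec_parity L j).mp h' hL
    rw [if_pos hL, if_neg this]
    exact h
  · have : Even (L ++ [j]).length := (sec_parity L j).mpr hL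
    rw [if_neg hL, if_pos this]
    exact h.symm

private theorem sec_inter {L : List ℤ} {j : ℤ} {x : S} (h1 : x ∈ D.secS L)
    (h2 : x ∈ D.secS (L ++ [j])) : ∃ i, B (D.κ x, 1) (P.nrm i) = 0 := by
  unfold secS at h1 h2
  by_cases hL : Even L.length
  · have : ¬ Even (L ++ [j]).length := fun h' => (sec_parity L j).mp h' hL
    rw [if_pos hL] at h1
    rw [if_neg this] at h2
    exact D.inter x h1 h2
  · have : Even (L ++ [j]).length := (sec_parity L j).mpr hL
    rw [if_neg hL] at h1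
    rw [if_pos this] at h2
    exact D.inter x h2 h1

private theorem secd_mem (L : List ℤ) {w : ℂ} (hw : w ∈ P.Qc) : D.secd L w ∈ D.secS L := by
  unfold secd secS; split_ifs
  · exact D.up_mem w hw
  · exact D.dn_mem w hw

private theorem sec_κ_secd (L : List ℤ) {w : ℂ} (hw : w ∈ P.Qc) : D.κ (D.secd L w) = w := by
  unfold secd; split_ifs
  · exact D.κ_up w hw
  · exact D.κ_dn w hw

private theorem secd_κ {L : List ℤ} {x : S} (hx : x ∈ D.secS L) : D.secd L (D.κ x) = x := by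
  unfold secS at hx
  unfold secd
  by_cases hL : Even L.length
  · rw [if_pos hL] at hx ⊢; exact D.up_κ x hx
  · rw [if_neg hL] at hx ⊢; exact D.dn_κ x hx

private theorem secd_cont (L : List ℤ) : ContinuousOn (D.secd L) P.Qc := by
  unfold secd; split_ifs
  · exact D.up_cont
  · exact D.dn_cont

private theorem secd_glue (L : List ℤ) (j : ℤ) {w : ℂ} (hw : w ∈ P.Qc)
    (h : ∃ i, B (w, 1) (P.nrm i) = 0) : D.secd (L ++ [j]) w = D.secd L w := by
  unfold secd
  by_cases hL : Even L.length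
  · have : ¬ Even (L ++ [j]).length := fun h' => (sec_parity L j).mp h' hL
    rw [if_pos hL, if_neg this]
    exact (D.glue w hw h).symm
  · have : Even (L ++ [j]).length := (sec_parity L j).mpr hL
    rw [if_neg hL, if_pos this]
    exact D.glue w hw h

private theorem sec_vert_iff (x : S) : x ∉ D.Vert ↔ ‖D.κ x‖ < 1 := by
  refine ⟨D.κ_lt, fun h => ?_⟩
  rintro ⟨j, hj⟩
  rw [hj, P.norm_pt] at h
  exact lt_irrefl _ h

private theorem sec_cell_secd (L : List ℤ) {w : ℂ} (h1 : ‖w‖ < 1) (hw : w ∈ P.Qc) :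
    D.Cell L (D.secd L w) (P.act L w) := by
  rw [D.sec_cell]
  have h2 := D.sec_κ_secd L hw
  exact ⟨(D.sec_vert_iff _).mpr (by rw [h2]; exact h1), D.secd_mem L hw, by rw [h2]⟩

private theorem sec_cell_snoc (L : List ℤ) {j : ℤ} {w : ℂ} (hw : w ∈ P.secW1 j)
    (h : 0 ≤ B (w, 1) (P.nrm j)) :
    D.Cell (L ++ [j]) (D.secd (L ++ [j]) (P.act [j] w)) (P.act L w) := by
  have h2 := D.sec_cell_secd (L ++ [j]) (P.norm_act_lt [j] hw.1) (P.sec_act_Qc hw h)
  rwa [P.sec_act_snoc L hw.1] at h2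

private theorem sec_W0_of {x : S} (hx : x ∉ D.Vert) (h : ∀ j, x ∉ D.Gap j) :
    D.κ x ∈ P.secW0 := by
  refine ⟨D.κ_lt hx, fun i => ?_⟩
  rcases lt_or_eq_of_le ((D.κ_mem x).2 i) with h1 | h1
  · exact h1
  · exact absurd ⟨hx, h1⟩ (h i)

private theorem sec_W1_of {x : S} {j : ℤ} (h : x ∈ D.Gap j) : D.κ x ∈ P.secW1 j := by
  have h1 := D.κ_lt h.1
  refine P.sec_mem_W1 h1 (fun i hi => ?_) h.2.le
  have h4 : ‖((D.κ x, 1) : V3).1‖ < ((D.κ x, 1) : V3).2 := h1
  exact P.disj_lt (j := j) h4 h.2.ge hi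

/-- near `z` there are only the cell of `z` and the cells across the gap of `z` -/
theorem eventually_cell {L : List ℤ} {x : S} {z : ℂ} (h : D.Cell L x z) :
    ∀ᶠ z' in 𝓝 z, ∃ L' x', D.Cell L' x' z' ∧ ((∀ v, P.word L' v = P.word L v) ∨
      ∃ i, x ∈ D.Gap i ∧ ∀ v, P.word L' v = P.word L (P.rf i v)) := by
  rw [D.sec_cell] at h
  obtain ⟨hx, hS, rfl⟩ := h
  by_cases hg : ∀ j, x ∉ D.Gap j
  · have h1 := D.sec_W0_of hx hg
    have h2 : P.act L '' P.secW0 ∈ 𝓝 (P.act L (D.κ x)) :=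
      (P.sec_image L P.sec_isOpen_W0 fun w hw => hw.1).mem_nhds ⟨_, h1, rfl⟩
    filter_upwards [h2]
    rintro _ ⟨w, hw, rfl⟩
    exact ⟨L, _, D.sec_cell_secd L hw.1 (P.sec_W0_Qc hw), Or.inl fun v => rfl⟩
  · push Not at hg
    obtain ⟨j, hj⟩ := hg
    have h1 := D.sec_W1_of hj
    have h2 : P.act L '' P.secW1 j ∈ 𝓝 (P.act L (D.κ x)) :=
      (P.sec_image L (P.sec_isOpen_W1 j) fun w hw => hw.1).mem_nhds ⟨_, h1, rfl⟩
    filter_upwards [h2]
    rintro _ ⟨w, hw, rfl⟩
    rcases le_total (B (w, 1) (P.nrm j)) 0 with h3 | h3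
    · exact ⟨L, _, D.sec_cell_secd L hw.1 (P.sec_Qc_of_W1 hw h3), Or.inl fun v => rfl⟩
    · refine ⟨L ++ [j], _, D.sec_cell_snoc L hw h3, Or.inr ⟨j, hj, fun v => ?_⟩⟩
      rw [P.word_append, P.word_cons, P.word_nil]

/-- the chart around a cell: `O` open in `S`, `s` a continuous section of `pr` on `O` through the
given point, with open image -/
theorem exists_section {z : ℂ} (hz : ‖z‖ < 1) : ∃ O : Set S, IsOpen O ∧ D.pr z ∈ O ∧
    ∃ s : S → ℂ, ContinuousOn s O ∧ s (D.pr z) = z ∧ IsOpen (s '' O) ∧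
      ∀ x ∈ O, ‖s x‖ < 1 ∧ D.pr (s x) = x := by
  obtain ⟨x, L, h⟩ := D.exists_cell hz
  have hpr := D.pr_eq h
  rw [hpr]
  rw [D.sec_cell] at h
  obtain ⟨hx, hS, rfl⟩ := h
  have hsc : ∀ M : List ℤ, Continuous fun y => P.act M (D.κ y) := fun M =>
    (P.continuousOn_act M).comp_continuous D.κ_cont fun y => by
      simpa using (D.κ_mem y).1
  by_cases hg : ∀ j, x ∉ D.Gap j
  · -- the point is in the open cell
    have hO : ∀ y, y ∉ D.secS (L ++ [0]) → y ∉ D.Vert ∧ y ∈ D.secS L ∧ D.κ y ∈ P.secW0 := by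
      intro y hy
      have h1 : y ∈ D.secS L := (D.sec_cover L 0 y).resolve_right hy
      have h2 : ∀ i, B (D.κ y, 1) (P.nrm i) < 0 := by
        intro i
        rcases lt_or_eq_of_le ((D.κ_mem y).2 i) with h3 | h3
        · exact h3
        · exfalso
          apply hy
          have h4 := D.secd_glue L 0 (D.κ_mem y) ⟨i, h3⟩
          rw [D.secd_κ h1] at h4
          rw [← h4]
          exact D.secd_mem _ (D.κ_mem y)
      have h3 : y ∉ D.Vert := by
        rintro ⟨j, hj⟩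
        have h4 := h2 j
        rw [hj, P.B_pt_left j] at h4
        exact lt_irrefl _ h4
      exact ⟨h3, h1, D.κ_lt h3, h2⟩
    refine ⟨(D.secS (L ++ [0]))ᶜ, (D.sec_closed _).isOpen_compl, ?_, fun y => P.act L (D.κ y),
      (hsc L).continuousOn, rfl, ?_, ?_⟩
    · intro h1
      obtain ⟨i, hi⟩ := D.sec_inter hS h1
      exact hg i ⟨hx, hi⟩
    · have h1 : (fun y => P.act L (D.κ y)) '' (D.secS (L ++ [0]))ᶜ = P.act L '' P.secW0 := by
        ext z
        constructor
        · rintro ⟨y, hy, rfl⟩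
          exact ⟨_, (hO y hy).2.2, rfl⟩
        · rintro ⟨w, hw, rfl⟩
          have h2 := D.sec_κ_secd L (P.sec_W0_Qc hw)
          refine ⟨D.secd L w, fun h3 => ?_, ?_⟩
          · obtain ⟨i, hi⟩ := D.sec_inter (D.secd_mem L (P.sec_W0_Qc hw)) h3
            rw [h2] at hi
            exact (hw.2 i).ne hi
          · show P.act L (D.κ (D.secd L w)) = P.act L w
            rw [h2]
      rw [h1]
      exact P.sec_image L P.sec_isOpen_W0 fun w hw => hw.1
    · intro y hy
      obtain ⟨h1, h2, h3⟩ := hO y hy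
      exact ⟨P.norm_act_lt L h3.1, D.pr_eq ((D.sec_cell L y _).mpr ⟨h1, h2, rfl⟩)⟩
  · -- the point is on the gap `j`
    push Not at hg
    obtain ⟨j, hj⟩ := hg
    set O : Set S := {y | y ∉ D.Vert ∧ ∀ i, ¬ i ≡ j [ZMOD (N : ℤ)] →
      B (D.κ y, 1) (P.nrm i) < 0} with hOdef
    have hOo : IsOpen O := by
      have h1 : O = {y | ‖D.κ y‖ < 1} ∩ ⋂ i : ℤ, {y | ¬ i ≡ j [ZMOD (N : ℤ)] →
          B (D.κ y, 1) (P.nrm i) < 0} := by
        ext y; simp only [hOdef, mem_ofPred_eq, D.sec_vert_iff, mem_inter_iff, mem_iInter]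
      rw [h1]
      refine (isOpen_lt (continuous_norm.comp D.κ_cont) continuous_const).inter ?_
      refine Poly.sec_isOpen_gaps P.sec_N_pos _ (fun i => ?_) ?_
      · by_cases hi : i ≡ j [ZMOD (N : ℤ)]
        · simp [hi]
        · simp only [hi, not_false_eq_true, true_imp_iff]
          exact isOpen_lt ((P.sec_cont_B i).comp D.κ_cont) continuous_const
      · intro a b hab
        have : a ≡ j [ZMOD (N : ℤ)] ↔ b ≡ j [ZMOD (N : ℤ)] :=
          ⟨fun h => hab.symm.trans h, fun h => hab.trans h⟩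
        rw [P.nrm_congr hab, this]
    have hOW : ∀ y ∈ O, D.κ y ∈ P.secW1 j := fun y hy =>
      P.sec_mem_W1 (D.κ_lt hy.1) hy.2 ((D.κ_mem y).2 j)
    classical
    set s : S → ℂ := fun y => if y ∈ D.secS L then P.act L (D.κ y)
      else P.act (L ++ [j]) (D.κ y) with hs
    have hs1 : ∀ y ∈ D.secS L, s y = P.act L (D.κ y) := fun y hy => if_pos hy
    have hs2 : ∀ y ∈ O, y ∈ D.secS (L ++ [j]) → s y = P.act (L ++ [j]) (D.κ y) := by
      intro y hy h1
      by_cases h2 : y ∈ D.secS L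
      · rw [hs1 y h2]
        obtain ⟨i, hi⟩ := D.sec_inter h2 h1
        by_cases h3 : i ≡ j [ZMOD (N : ℤ)]
        · rw [P.nrm_congr h3] at hi
          exact (P.act_concat_side L hi).symm
        · exact absurd hi (hy.2 i h3).ne
      · exact if_neg h2
    have hcell : ∀ y ∈ O, ∃ L', D.Cell L' y (s y) := by
      intro y hy
      rcases D.sec_cover L j y with h1 | h1
      · exact ⟨L, (D.sec_cell L y _).mpr ⟨hy.1, h1, hs1 y h1⟩⟩
      · exact ⟨L ++ [j], (D.sec_cell _ y _).mpr ⟨hy.1, h1, hs2 y hy h1⟩⟩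
    refine ⟨O, hOo, ?_, s, ?_, hs1 x hS, ?_, ?_⟩
    · exact ⟨hx, fun i hi => ((D.sec_W1_of hj).2 i hi).1⟩
    · intro y hy
      have h1 : ContinuousWithinAt s (O ∩ D.secS L) y := by
        by_cases hyL : y ∈ D.secS L
        · exact (hsc L).continuousWithinAt.congr (fun u hu => hs1 u hu.2) (hs1 y hyL)
        · refine continuousWithinAt_of_notMem_closure fun h2 => hyL ?_
          exact (D.sec_closed L).closure_subset_iff.mpr inter_subset_right h2
      have h2 : ContinuousWithinAt s (O ∩ D.secS (L ++ [j])) y := by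
        by_cases hyL : y ∈ D.secS (L ++ [j])
        · exact (hsc (L ++ [j])).continuousWithinAt.congr (fun u hu => hs2 u hu.1 hu.2)
            (hs2 y hy hyL)
        · refine continuousWithinAt_of_notMem_closure fun h2 => hyL ?_
          exact (D.sec_closed _).closure_subset_iff.mpr inter_subset_right h2
      refine (h1.union h2).mono fun u hu => ?_
      rcases D.sec_cover L j u with h3 | h3
      · exact Or.inl ⟨hu, h3⟩
      · exact Or.inr ⟨hu, h3⟩
    · have h1 : s '' O = P.act L '' P.secW1 j := by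
        ext z
        constructor
        · rintro ⟨y, hy, rfl⟩
          rcases D.sec_cover L j y with h2 | h2
          · exact ⟨_, hOW y hy, (hs1 y h2).symm⟩
          · refine ⟨P.act [j] (D.κ y), P.sec_act_mem_W1 (hOW y hy), ?_⟩
            rw [hs2 y hy h2, P.act_append L [j] (D.κ_mem y).1]
        · rintro ⟨w, hw, rfl⟩
          rcases le_total (B (w, 1) (P.nrm j)) 0 with h3 | h3
          · have hQ := P.sec_Qc_of_W1 hw h3
            have h4 := D.sec_κ_secd L hQ
            refine ⟨D.secd L w, ⟨(D.sec_vert_iff _).mpr (by rw [h4]; exact hw.1),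
              fun i hi => by rw [h4]; exact (hw.2 i hi).1⟩, ?_⟩
            rw [hs1 _ (D.secd_mem L hQ), h4]
          · have hQ := P.sec_act_Qc hw h3
            have hw' := P.sec_act_mem_W1 hw
            have h4 := D.sec_κ_secd (L ++ [j]) hQ
            have h5 : D.secd (L ++ [j]) (P.act [j] w) ∈ O :=
              ⟨(D.sec_vert_iff _).mpr (by rw [h4]; exact hw'.1),
                fun i hi => by rw [h4]; exact (hw'.2 i hi).1⟩
            refine ⟨_, h5, ?_⟩
            rw [hs2 _ h5 (D.secd_mem _ hQ), h4, P.sec_act_snoc L hw.1]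
      rw [h1]
      exact P.sec_image L (P.sec_isOpen_W1 j) fun w hw => hw.1
    · intro y hy
      obtain ⟨L', h1⟩ := hcell y hy
      exact ⟨h1.norm_lt, D.pr_eq h1⟩

theorem continuousOn_pr : ContinuousOn D.pr (Metric.ball (0 : ℂ) 1) := by
  intro z hz
  have hz' : ‖z‖ < 1 := by simpa using hz
  refine ContinuousAt.continuousWithinAt ?_
  obtain ⟨x, L, h⟩ := D.exists_cell hz'
  rw [D.sec_cell] at h
  obtain ⟨hx, hS, rfl⟩ := h
  have hrev : ∀ {w : ℂ}, ‖w‖ < 1 → P.act L.reverse (P.act L w) = w := fun hw =>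
    P.act_reverse L hw.le
  -- the formula on a set `V` of points of the disc
  have hform : ∀ (M : List ℤ) (V : Set ℂ), V ⊆ {z | ‖z‖ < 1} →
      (∀ z ∈ V, P.act M.reverse z ∈ P.Qc) → (∀ z ∈ V, D.pr z = D.secd M (P.act M.reverse z)) →
      ContinuousOn D.pr V := by
    intro M V h1 h2 h3
    have h4 : ContinuousOn (fun z => D.secd M (P.act M.reverse z)) V :=
      (D.secd_cont M).comp ((P.continuousOn_act _).mono fun z hz => by
        simpa using (h1 hz : ‖z‖ < 1).le) h2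
    exact h4.congr h3
  by_cases hg : ∀ j, x ∉ D.Gap j
  · have h1 := D.sec_W0_of hx hg
    have hV : P.act L '' P.secW0 ∈ 𝓝 (P.act L (D.κ x)) :=
      (P.sec_image L P.sec_isOpen_W0 fun w hw => hw.1).mem_nhds ⟨_, h1, rfl⟩
    refine (hform L (P.act L '' P.secW0) ?_ ?_ ?_).continuousAt hV
    · rintro _ ⟨w, hw, rfl⟩; exact P.norm_act_lt L hw.1
    · rintro _ ⟨w, hw, rfl⟩; rw [hrev hw.1]; exact P.sec_W0_Qc hw
    · rintro _ ⟨w, hw, rfl⟩
      rw [hrev hw.1]
      exact D.pr_eq (D.sec_cell_secd L hw.1 (P.sec_W0_Qc hw))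
  · push Not at hg
    obtain ⟨j, hj⟩ := hg
    have h1 := D.sec_W1_of hj
    have hV : P.act L '' P.secW1 j ∈ 𝓝 (P.act L (D.κ x)) :=
      (P.sec_image L (P.sec_isOpen_W1 j) fun w hw => hw.1).mem_nhds ⟨_, h1, rfl⟩
    set V1 : Set ℂ := P.act L '' {w | w ∈ P.secW1 j ∧ B (w, 1) (P.nrm j) ≤ 0} with hV1
    set V2 : Set ℂ := P.act L '' {w | w ∈ P.secW1 j ∧ 0 ≤ B (w, 1) (P.nrm j)} with hV2
    have hVu : V1 ∪ V2 = P.act L '' P.secW1 j := by
      rw [hV1, hV2, ← image_union]
      congr 1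
      ext w
      simp only [mem_union, mem_ofPred_eq, ← and_or_left]
      exact ⟨fun h => h.1, fun h => ⟨h, le_total _ _⟩⟩
    have hc1 : ContinuousOn D.pr V1 := by
      refine hform L V1 ?_ ?_ ?_
      · rintro _ ⟨w, hw, rfl⟩; exact P.norm_act_lt L hw.1.1
      · rintro _ ⟨w, hw, rfl⟩; rw [hrev hw.1.1]; exact P.sec_Qc_of_W1 hw.1 hw.2
      · rintro _ ⟨w, hw, rfl⟩
        rw [hrev hw.1.1]
        exact D.pr_eq (D.sec_cell_secd L hw.1.1 (P.sec_Qc_of_W1 hw.1 hw.2))
    have hrev2 : ∀ {w : ℂ}, ‖w‖ < 1 →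
        P.act (L ++ [j]).reverse (P.act L w) = P.act [j] w := by
      intro w hw
      rw [← P.sec_act_snoc (j := j) L hw, P.act_reverse _ (P.norm_act_le [j] hw.le)]
    have hc2 : ContinuousOn D.pr V2 := by
      refine hform (L ++ [j]) V2 ?_ ?_ ?_
      · rintro _ ⟨w, hw, rfl⟩; exact P.norm_act_lt L hw.1.1
      · rintro _ ⟨w, hw, rfl⟩; rw [hrev2 hw.1.1]; exact P.sec_act_Qc hw.1 hw.2
      · rintro _ ⟨w, hw, rfl⟩
        rw [hrev2 hw.1.1]
        exact D.pr_eq (D.sec_cell_snoc L hw.1 hw.2)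
    have h3 : ContinuousWithinAt D.pr (V1 ∪ V2) (P.act L (D.κ x)) :=
      (hc1 _ ⟨_, ⟨h1, hj.2.le⟩, rfl⟩).union (hc2 _ ⟨_, ⟨h1, hj.2.ge⟩, rfl⟩)
    rw [hVu] at h3
    exact h3.continuousAt hV

include D in
/-- small neighbourhoods are moved off themselves by the deck group -/
theorem exists_disjoint {z : ℂ} (hz : ‖z‖ < 1) : ∃ W ∈ 𝓝 z, W ⊆ Metric.ball (0 : ℂ) 1 ∧
    ∀ L : List ℤ, Even L.length → ∀ w ∈ W, P.act L w ∈ W → ∀ v, P.word L v = v := by
  obtain ⟨O, hO, hzO, s, _, hsz, hsO, hs⟩ := D.exists_section hz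
  refine ⟨s '' O, hsO.mem_nhds ⟨_, hzO, hsz⟩, ?_, ?_⟩
  · rintro _ ⟨y, hy, rfl⟩
    simpa using (hs y hy).1
  · rintro L hL w ⟨y, hy, rfl⟩ ⟨y', hy', h⟩
    have h1 := (hs y hy).1
    have h2 := D.pr_act hL h1
    rw [← h, (hs y hy).2, (hs y' hy').2] at h2
    subst h2
    first
      | exact word_eq_of_act_eq D hL h1 h.symm
      | exact word_eq_of_act_eq hL h1 h.symm

end Dbl

end Pool.Agent.RAYT
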