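import Pool.Agent.RAYT.Lor

/-!
RAYT/Sector: angles of the polygon, the caps of two different gaps are disjoint.

PROOFS.  For `N = 0` the field `per` says `θ j = θ j + 2 π`; so `N_pos`.  `θ_add`: induction on `k`.
`hw_pos, hw_lt`: fields `mono, small`.  `nrm_congr`, `pt_congr`: `b = a + k N`, `mid` changes by
`2 π k`, `hw` does not change.  `B_nrm_nrm`: `1 - cos² = sin²`.
`B_polar`: `Re (e^{iφ} e^{-i mid}) = cos (φ - mid)`.  `B_pt_left/right`: `θ j - mid = - hw`.
`sector`: with `h = hw j`, `r cos (φ - mid) ≥ t cos h > 0`, so `cos (φ - mid) ≥ cos h` (as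
`r ≤ t`).  Choose `k` with `|φ - mid - 2 π k| ≤ π` (round); `cos` is antitone on `[0, π]`, so
`|φ - mid - 2 π k| ≤ h`; `mid - h = θ j`, `mid + h = θ (j+1)`, and `θ (j + kN) = θ j + 2 π k`,
`θ (j + k N + 1) = θ (j+1) + 2 π k`.  `sector_lt`: the same with strict inequalities (`r = 0` is
impossible).  In `sector_lt` it is also enough that `0 ≤ B` and `r < t` (write a private version
and use it in `disj_lt`).
`exists_gap`: the greatest integer `j` with `θ j ≤ φ` (`Int.exists_greatest_of_bdd`; bounded and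
nonempty by `θ_add`).
`disj`: write `v.1 = r e^{iφ}` (`r = ‖v.1‖`, `φ = arg`).  If `B v (nrm i) > 0` then by `sector_lt`
`θ i' < φ < θ (i'+1)` with `i' = i + k N`, by `sector` `θ j' ≤ φ ≤ θ (j'+1)`, `j' = j + k' N`;
strict monotonicity gives `i' = j'`, contradiction.  `disj_lt` (`r < t`): both are in the open
sectors.  `disj_lt'`: similar.
`B_pt_neg`: `B ≤ 0` by `disj` (with `B_pt_left`); if `= 0` then `sector` gives
`θ i' ≤ θ j ≤ θ (i'+1)`, so `j = i'` or `j = i'+1` (strict monotone, integers).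
`eq_pt_of_B_zero`: `z = e^{iφ}`, `cos (φ - mid) = cos hw`, so (`Real.cos_eq_cos_iff`)
`φ = 2 π k + mid ± hw`.  `eq_pt_of_norm_one`: `z = e^{iφ}`, `θ j ≤ φ < θ (j+1)` by `exists_gap`;
if `θ j < φ` then `B_exp_pos` contradicts `z ∈ Qc`.
-/

set_option autoImplicit false

namespace Pool.Agent.RAYT

open Complex Set Topology Filter

namespace Poly

variable {N : ℕ} (P : Poly N)

include P in
theorem N_pos : 0 < N := by
  rcases Nat.eq_zero_or_pos N with h | h
  · exfalso
    subst h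
    have h1 := P.per 0
    simp only [Nat.cast_zero, add_zero] at h1
    linarith [Real.pi_pos]
  · exact h

theorem θ_add (j k : ℤ) : P.θ (j + k * N) = P.θ j + k * (2 * Real.pi) := by
  induction k using Int.induction_on with
  | zero => simp
  | succ n ih =>
    have h : j + ((n : ℤ) + 1) * N = (j + n * N) + N := by ring
    rw [h, P.per, ih]; push_cast; ring
  | pred n ih =>
    have h : j + -(n : ℤ) * N = (j + (-(n : ℤ) - 1) * N) + N := by ring
    rw [h, P.per] at ih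
    push_cast at ih ⊢
    linarith

private theorem sector_congr_ex {a b : ℤ} (h : a ≡ b [ZMOD (N : ℤ)]) : ∃ k : ℤ, b = a + k * N := by
  obtain ⟨k, hk⟩ := (Int.modEq_iff_dvd.mp h)
  exact ⟨k, by linarith [mul_comm (N : ℤ) k]⟩

theorem hw_pos (j : ℤ) : 0 < P.hw j := by
  have h := P.mono (lt_add_one j)
  unfold hw; linarith

theorem hw_lt (j : ℤ) : P.hw j < Real.pi / 2 := by
  have h := P.small j
  unfold hw; linarith

private theorem sector_mid_add (j k : ℤ) : P.mid (j + k * N) = P.mid j + k * (2 * Real.pi) := by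
  have h : j + k * N + 1 = (j + 1) + k * N := by ring
  unfold mid; rw [h, P.θ_add, P.θ_add]; ring

private theorem sector_hw_add (j k : ℤ) : P.hw (j + k * N) = P.hw j := by
  have h : j + k * N + 1 = (j + 1) + k * N := by ring
  unfold hw; rw [h, P.θ_add, P.θ_add]; ring

private theorem sector_exp_add (x : ℝ) (k : ℤ) :
    Complex.exp (((x + k * (2 * Real.pi) : ℝ) : ℂ) * Complex.I) = Complex.exp (x * Complex.I) := by
  rw [Complex.exp_eq_exp_iff_exists_int]
  exact ⟨k, by push_cast; ring⟩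

theorem nrm_congr {a b : ℤ} (h : a ≡ b [ZMOD (N : ℤ)]) : P.nrm a = P.nrm b := by
  obtain ⟨k, rfl⟩ := sector_congr_ex h
  unfold nrm
  rw [P.sector_mid_add, P.sector_hw_add, sector_exp_add]

theorem pt_congr {a b : ℤ} (h : a ≡ b [ZMOD (N : ℤ)]) : P.pt a = P.pt b := by
  obtain ⟨k, rfl⟩ := sector_congr_ex h
  unfold pt
  rw [P.θ_add, sector_exp_add]

theorem rf_congr {a b : ℤ} (h : a ≡ b [ZMOD (N : ℤ)]) : P.rf a = P.rf b := by
  unfold rf; rw [P.nrm_congr h]

private theorem sector_exp_re (x : ℝ) : (Complex.exp (x * Complex.I)).re = Real.cos x :=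
  Complex.exp_ofReal_mul_I_re x

private theorem sector_exp_im (x : ℝ) : (Complex.exp (x * Complex.I)).im = Real.sin x :=
  Complex.exp_ofReal_mul_I_im x

/-- the form in polar coordinates -/
theorem B_polar (j : ℤ) (r φ t : ℝ) :
    B ((r : ℂ) * Complex.exp (φ * Complex.I), t) (P.nrm j) =
      r * Real.cos (φ - P.mid j) - t * Real.cos (P.hw j) := by
  simp only [B, nrm, re_ofReal_mul, im_ofReal_mul, sector_exp_re, sector_exp_im, Real.cos_sub]
  ring

private theorem sector_B_exp (j : ℤ) (φ : ℝ) :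
    B (Complex.exp (φ * Complex.I), 1) (P.nrm j) =
      Real.cos (φ - P.mid j) - Real.cos (P.hw j) := by
  have h := P.B_polar j 1 φ 1
  simpa using h

theorem B_nrm_nrm (j : ℤ) : B (P.nrm j) (P.nrm j) = Real.sin (P.hw j) ^ 2 := by
  have h := P.B_polar j 1 (P.mid j) (Real.cos (P.hw j))
  have e : ((1 : ℝ) : ℂ) * Complex.exp (P.mid j * Complex.I) =
      Complex.exp (P.mid j * Complex.I) := by simp
  rw [e] at h
  have e2 : P.nrm j = (Complex.exp (P.mid j * Complex.I), Real.cos (P.hw j)) := rfl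
  rw [← e2] at h
  rw [h, sub_self, Real.cos_zero]
  nlinarith [Real.sin_sq_add_cos_sq (P.hw j)]

theorem B_nrm_nrm_pos (j : ℤ) : 0 < B (P.nrm j) (P.nrm j) := by
  rw [P.B_nrm_nrm]
  have := Real.sin_pos_of_pos_of_lt_pi (P.hw_pos j) (by linarith [P.hw_lt j, Real.pi_pos])
  positivity

private theorem sector_cos_pos (j : ℤ) : 0 < Real.cos (P.hw j) :=
  Real.cos_pos_of_mem_Ioo ⟨by linarith [P.hw_pos j, Real.pi_pos], P.hw_lt j⟩

theorem nrm_snd_pos (j : ℤ) : 0 < (P.nrm j).2 := P.sector_cos_pos j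

theorem norm_pt (j : ℤ) : ‖P.pt j‖ = 1 := Complex.norm_exp_ofReal_mul_I _

theorem B_pt_left (j : ℤ) : B (P.pt j, 1) (P.nrm j) = 0 := by
  rw [pt, P.sector_B_exp]
  have : P.θ j - P.mid j = - P.hw j := by unfold mid hw; ring
  rw [this, Real.cos_neg, sub_self]

theorem B_pt_right (j : ℤ) : B (P.pt (j + 1), 1) (P.nrm j) = 0 := by
  rw [pt, P.sector_B_exp]
  have : P.θ (j + 1) - P.mid j = P.hw j := by unfold mid hw; ring
  rw [this, sub_self]

private theorem sector_hw_pi (j : ℤ) : P.hw j ≤ Real.pi := by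
  linarith [P.hw_lt j, Real.pi_pos]

theorem B_exp_pos {j : ℤ} {φ : ℝ} (h1 : P.θ j < φ) (h2 : φ < P.θ (j + 1)) :
    0 < B (Complex.exp (φ * Complex.I), 1) (P.nrm j) := by
  rw [P.sector_B_exp, sub_pos, ← Real.cos_abs (φ - P.mid j)]
  apply Real.cos_lt_cos_of_nonneg_of_le_pi (abs_nonneg _) (P.sector_hw_pi j)
  rw [abs_lt]
  unfold mid hw
  constructor <;> linarith

/-- the angle `φ` reduced near `m` -/
private theorem sector_red (φ m : ℝ) : ∃ k : ℤ, |φ - m - k * (2 * Real.pi)| ≤ Real.pi := by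
  have hp : 0 < 2 * Real.pi := by positivity
  refine ⟨round ((φ - m) / (2 * Real.pi)), ?_⟩
  have h := abs_sub_round ((φ - m) / (2 * Real.pi))
  have e : φ - m - (round ((φ - m) / (2 * Real.pi)) : ℤ) * (2 * Real.pi) =
      ((φ - m) / (2 * Real.pi) - (round ((φ - m) / (2 * Real.pi)) : ℤ)) * (2 * Real.pi) := by
    field_simp
  rw [e, abs_mul, abs_of_pos hp]
  nlinarith

private theorem sector_cos_red (x : ℝ) (k : ℤ) :
    Real.cos (x - k * (2 * Real.pi)) = Real.cos x := by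
  exact Real.cos_sub_int_mul_two_pi x k

/-- the closed cap of the gap `j` lies in the sector of the gap -/
theorem sector {j : ℤ} {r φ t : ℝ} (ht : 0 < t) (hr : 0 ≤ r) (hrt : r ≤ t)
    (h : 0 ≤ B ((r : ℂ) * Complex.exp (φ * Complex.I), t) (P.nrm j)) :
    ∃ k : ℤ, P.θ (j + k * N) ≤ φ ∧ φ ≤ P.θ (j + k * N + 1) := by
  rw [P.B_polar] at h
  have hc := P.sector_cos_pos j
  have h1 : Real.cos (P.hw j) ≤ Real.cos (φ - P.mid j) := by
    by_contra hcon
    push Not at hcon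
    rcases hr.eq_or_lt with hr0 | hr0
    · rw [← hr0] at h; nlinarith [mul_pos ht hc]
    · nlinarith [mul_lt_mul_of_pos_left hcon hr0, mul_le_mul_of_nonneg_right hrt hc.le]
  obtain ⟨k, hk⟩ := sector_red φ (P.mid j)
  refine ⟨k, ?_⟩
  rw [← sector_cos_red (φ - P.mid j) k,
    ← Real.cos_abs (φ - P.mid j - k * (2 * Real.pi))] at h1
  have h2 : |φ - P.mid j - k * (2 * Real.pi)| ≤ P.hw j := by
    by_contra hcon
    push Not at hcon
    have := Real.cos_lt_cos_of_nonneg_of_le_pi (P.hw_pos j).le hk hcon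
    linarith
  rw [abs_le] at h2
  have e : j + k * N + 1 = (j + 1) + k * N := by ring
  rw [e, P.θ_add, P.θ_add]
  unfold mid hw at h2
  constructor <;> linarith [h2.1, h2.2]

/-- strict version, under weaker hypotheses -/
private theorem sector_strict {j : ℤ} {r φ t : ℝ} (_ht : 0 < t) (hr : 0 ≤ r) (hrt : r ≤ t)
    (h : 0 ≤ B ((r : ℂ) * Complex.exp (φ * Complex.I), t) (P.nrm j))
    (hs : r < t ∨ 0 < B ((r : ℂ) * Complex.exp (φ * Complex.I), t) (P.nrm j)) :
    ∃ k : ℤ, P.θ (j + k * N) < φ ∧ φ < P.θ (j + k * N + 1) := by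
  rw [P.B_polar] at h hs
  have hc := P.sector_cos_pos j
  have h1 : Real.cos (P.hw j) < Real.cos (φ - P.mid j) := by
    by_contra hcon
    push Not at hcon
    have h3 : r * Real.cos (φ - P.mid j) ≤ r * Real.cos (P.hw j) :=
      mul_le_mul_of_nonneg_left hcon hr
    have h4 : r * Real.cos (P.hw j) ≤ t * Real.cos (P.hw j) :=
      mul_le_mul_of_nonneg_right hrt hc.le
    rcases hs with hs | hs
    · have h5 : r * Real.cos (P.hw j) < t * Real.cos (P.hw j) :=
        mul_lt_mul_of_pos_right hs hc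
      linarith
    · linarith
  obtain ⟨k, hk⟩ := sector_red φ (P.mid j)
  refine ⟨k, ?_⟩
  rw [← sector_cos_red (φ - P.mid j) k,
    ← Real.cos_abs (φ - P.mid j - k * (2 * Real.pi))] at h1
  have h2 : |φ - P.mid j - k * (2 * Real.pi)| < P.hw j := by
    by_contra hcon
    push Not at hcon
    have := Real.cos_le_cos_of_nonneg_of_le_pi (P.hw_pos j).le hk hcon
    linarith
  rw [abs_lt] at h2
  have e : j + k * N + 1 = (j + 1) + k * N := by ring
  rw [e, P.θ_add, P.θ_add]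
  unfold mid hw at h2
  constructor <;> linarith [h2.1, h2.2]

theorem sector_lt {j : ℤ} {r φ t : ℝ} (ht : 0 < t) (hr : 0 ≤ r) (hrt : r ≤ t)
    (h : 0 < B ((r : ℂ) * Complex.exp (φ * Complex.I), t) (P.nrm j)) :
    ∃ k : ℤ, P.θ (j + k * N) < φ ∧ φ < P.θ (j + k * N + 1) :=
  P.sector_strict ht hr hrt h.le (Or.inr h)

/-- every angle lies in exactly one half open gap -/
theorem exists_gap (φ : ℝ) : ∃ j : ℤ, P.θ j ≤ φ ∧ φ < P.θ (j + 1) := by
  have hp : 0 < 2 * Real.pi := by positivity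
  have hN : (0 : ℤ) < N := by exact_mod_cast P.N_pos
  have hb : ∃ b : ℤ, ∀ z : ℤ, P.θ z ≤ φ → z ≤ b := by
    obtain ⟨k, hk⟩ := exists_int_gt ((φ - P.θ 0) / (2 * Real.pi))
    refine ⟨k * N, fun z hz => ?_⟩
    by_contra hcon
    push Not at hcon
    have h1 := P.mono hcon
    have h2 := P.θ_add 0 k
    rw [zero_add] at h2
    rw [div_lt_iff₀ hp] at hk
    linarith
  have hi : ∃ z : ℤ, P.θ z ≤ φ := by
    obtain ⟨k, hk⟩ := exists_int_lt ((φ - P.θ 0) / (2 * Real.pi))
    refine ⟨k * N, ?_⟩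
    have h2 := P.θ_add 0 k
    rw [zero_add] at h2
    rw [lt_div_iff₀ hp] at hk
    linarith
  obtain ⟨j, hj, hmax⟩ := Int.exists_greatest_of_bdd hb hi
  refine ⟨j, hj, ?_⟩
  by_contra hcon
  push Not at hcon
  have := hmax (j + 1) hcon
  omega

private theorem sector_eq {a b : ℤ} {φ : ℝ} (h1 : P.θ a < φ) (h2 : φ < P.θ (a + 1))
    (h3 : P.θ b ≤ φ) (h4 : φ ≤ P.θ (b + 1)) : a = b := by
  have h5 : a < b + 1 := P.mono.lt_iff_lt.mp (lt_of_lt_of_le h1 h4)
  have h6 : b < a + 1 := P.mono.lt_iff_lt.mp (lt_of_le_of_lt h3 h2)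
  omega

private theorem sector_modEq {i j k l : ℤ} (h : i + k * N = j + l * N) :
    i ≡ j [ZMOD (N : ℤ)] := by
  rw [Int.modEq_iff_dvd]
  exact ⟨k - l, by linarith⟩

private theorem sector_polar (v : V3) :
    v = (((‖v.1‖ : ℝ) : ℂ) * Complex.exp ((Complex.arg v.1 : ℝ) * Complex.I), v.2) := by
  ext1
  · simp [Complex.norm_mul_exp_arg_mul_I]
  · rfl

/-- different closed caps meet at most in a common vertex -/
theorem disj {i j : ℤ} {v : V3} (h0 : 0 < v.2) (h1 : ‖v.1‖ ≤ v.2) (hj : 0 ≤ B v (P.nrm j))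
    (hne : ¬ i ≡ j [ZMOD (N : ℤ)]) : B v (P.nrm i) ≤ 0 := by
  by_contra hcon
  push Not at hcon
  rw [sector_polar v] at hcon hj
  obtain ⟨k, hk1, hk2⟩ := P.sector_lt h0 (norm_nonneg _) h1 hcon
  obtain ⟨l, hl1, hl2⟩ := P.sector h0 (norm_nonneg _) h1 hj
  exact hne (sector_modEq (P.sector_eq hk1 hk2 hl1 hl2))

theorem disj_lt {i j : ℤ} {v : V3} (h1 : ‖v.1‖ < v.2) (hj : 0 ≤ B v (P.nrm j))
    (hne : ¬ i ≡ j [ZMOD (N : ℤ)]) : B v (P.nrm i) < 0 := by
  by_contra hcon
  push Not at hcon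
  have h0 : 0 < v.2 := lt_of_le_of_lt (norm_nonneg _) h1
  rw [sector_polar v] at hcon hj
  obtain ⟨k, hk1, hk2⟩ := P.sector_strict h0 (norm_nonneg _) h1.le hcon (Or.inl h1)
  obtain ⟨l, hl1, hl2⟩ := P.sector h0 (norm_nonneg _) h1.le hj
  exact hne (sector_modEq (P.sector_eq hk1 hk2 hl1 hl2))

theorem disj_lt' {i j : ℤ} {v : V3} (h0 : 0 < v.2) (h1 : ‖v.1‖ ≤ v.2) (hj : 0 < B v (P.nrm j))
    (hne : ¬ i ≡ j [ZMOD (N : ℤ)]) : B v (P.nrm i) < 0 := by
  by_contra hcon
  push Not at hcon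
  rw [sector_polar v] at hcon hj
  obtain ⟨k, hk1, hk2⟩ := P.sector h0 (norm_nonneg _) h1 hcon
  obtain ⟨l, hl1, hl2⟩ := P.sector_lt h0 (norm_nonneg _) h1 hj
  exact hne (sector_modEq (P.sector_eq hl1 hl2 hk1 hk2)).symm

/-- at the vertex `j` only the gaps `j - 1` and `j` have `B = 0` -/
theorem B_pt_neg {i j : ℤ} (h1 : ¬ i ≡ j [ZMOD (N : ℤ)]) (h2 : ¬ i ≡ j - 1 [ZMOD (N : ℤ)]) :
    B (P.pt j, 1) (P.nrm i) < 0 := by
  by_contra hcon
  push Not at hcon
  have e : ((P.pt j, 1) : V3) =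
      (((1 : ℝ) : ℂ) * Complex.exp ((P.θ j : ℝ) * Complex.I), (1 : ℝ)) := by simp [pt]
  rw [e] at hcon
  obtain ⟨k, hk1, hk2⟩ := P.sector one_pos zero_le_one le_rfl hcon
  have h3 : i + k * N ≤ j := P.mono.le_iff_le.mp hk1
  have h4 : j ≤ i + k * N + 1 := P.mono.le_iff_le.mp hk2
  rcases (show j = i + k * N ∨ j - 1 = i + k * N by omega) with h | h
  · exact h1 (sector_modEq (k := k) (l := 0) (by rw [← h]; ring))
  · exact h2 (sector_modEq (k := k) (l := 0) (by rw [← h]; ring))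

/-- a point of the closed disc with `B = 0` for the gap `j` and norm one is one of the two
vertices -/
theorem eq_pt_of_B_zero {j : ℤ} {z : ℂ} (h1 : ‖z‖ = 1) (h : B (z, 1) (P.nrm j) = 0) :
    z = P.pt j ∨ z = P.pt (j + 1) := by
  have hz : z = Complex.exp ((Complex.arg z : ℝ) * Complex.I) := by
    have := Complex.norm_mul_exp_arg_mul_I z
    rw [h1] at this
    simpa using this.symm
  rw [hz, P.sector_B_exp, sub_eq_zero, Real.cos_eq_cos_iff] at h
  obtain ⟨k, hk⟩ := h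
  have key : ∀ (x : ℝ) (l : ℤ), Complex.arg z = x + l * (2 * Real.pi) →
      z = Complex.exp ((x : ℝ) * Complex.I) := by
    intro x l hx
    rw [hz, hx]
    exact sector_exp_add x l
  rcases hk with hk | hk
  · right
    refine key (P.θ (j + 1)) (-k) ?_
    unfold mid hw at hk
    push_cast
    linarith
  · left
    refine key (P.θ j) k ?_
    unfold mid hw at hk
    linarith

/-- a point of the closed polygon of norm one is a vertex -/
theorem eq_pt_of_norm_one {z : ℂ} (h1 : ‖z‖ = 1) (h : z ∈ P.Qc) : ∃ j, z = P.pt j := by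
  have hz : z = Complex.exp ((Complex.arg z : ℝ) * Complex.I) := by
    have := Complex.norm_mul_exp_arg_mul_I z
    rw [h1] at this
    simpa using this.symm
  obtain ⟨j, hj1, hj2⟩ := P.exists_gap (Complex.arg z)
  refine ⟨j, ?_⟩
  rcases hj1.eq_or_lt with he | hl
  · rw [hz, ← he]; rfl
  · exfalso
    have h2 := P.B_exp_pos hl hj2
    rw [← hz] at h2
    linarith [h.2 j]

theorem zero_mem_Qv : ((0 : ℂ), (1 : ℝ)) ∈ P.Qv := by
  refine ⟨by simp, fun j => ?_⟩
  have h := P.B_polar j 0 0 1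
  simp only [ofReal_zero, zero_mul, zero_sub, one_mul] at h
  rw [h]
  linarith [P.sector_cos_pos j]

end Poly

end Pool.Agent.RAYT
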