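import Pool.Agent.RAYT.Itin

/-!
RAYT/Strip: the end point of a ray which uses only the gaps of an interval.

PROOFS.  `pt_inj`: `exp` is injective modulo `2 π i`; with `θ i = θ j + 2 π k = θ (j + k N)` and
strict monotonicity.
`strip`: let `g` be the lift of `γ ∘ tau`, `x₁ ≥ 0` with `tau x₁ = τ`.  By `Itin.stay` (`L = []`)
`g x = κ (γ (tau x)) ∈ Qc` for `0 ≤ x ≤ x₁`.  Call a gap `i` bad if no `i + c N` is in `[l, r]`.
For a bad gap `i` and `x ≥ x₁`: `B (g x,1) (nrm i) ≠ 0`, because otherwise `g x ∈ Qc` (`disj_lt`),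
`γ (tau x) = pr (g x) = up (g x)` (`pr_up`), `κ` of it is `g x`, so `γ (tau x) ∈ Gap i`,
contradiction to `h2`.  At `x₁` it is `≤ 0`, so `< 0`; by the intermediate value theorem
`B (g x,1) (nrm i) < 0` for `x ≥ x₁`.  For the limit `E` (`‖E‖ = 1`): `B (E,1) (nrm i) ≤ 0`.  Write
`E = e^{iφ}`, `θ m ≤ φ < θ (m+1)` (`exists_gap`).  If `θ m < φ` then `m` is not bad (`B_exp_pos`),
shift by `c N`: done.  If `φ = θ m`, `E = pt m`: if `m` or `m - 1` is not bad then
`m + c N ∈ [l, r]` or `m + c N ∈ [l + 1, r + 1]`: done.  If both are bad: for large `x` all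
`B (g x,1) (nrm i) < 0` (`i ≢ m, m - 1` by continuity and `B_pt_neg`, finitely many classes), so
`g x ∈ Qc`, `γ (tau x) = up (g x) → up (pt m)`, while `γ (tau x) → up (pt j)`; apply `κ`:
`pt m = pt j`, `m ≡ j`, and `j ∈ [l + 1, r]`, so `m` is not bad, contradiction.
-/

set_option autoImplicit false

namespace Pool.Agent.RAYT

open Complex Set Topology Filter unitInterval

namespace Dbl

variable {N : ℕ} {P : Poly N} {S : Type*} [TopologicalSpace S] (D : Dbl P S)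

theorem pt_inj {i j : ℤ} (h : P.pt i = P.pt j) : i ≡ j [ZMOD (N : ℤ)] := by
  unfold Poly.pt at h
  rw [Complex.exp_eq_exp_iff_exists_int] at h
  obtain ⟨n, hn⟩ := h
  have h1 : P.θ i = P.θ (j + n * N) := by
    rw [P.θ_add]
    have h2 : ((P.θ i : ℝ) : ℂ) * Complex.I =
        (((P.θ j + n * (2 * Real.pi) : ℝ)) : ℂ) * Complex.I := by
      rw [hn]; push_cast; ring
    exact_mod_cast mul_right_cancel₀ Complex.I_ne_zero h2
  have h3 : i = j + n * N := P.mono.injective h1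
  rw [h3]
  exact (Int.modEq_iff_dvd.mpr ⟨n, by ring⟩).symm

private theorem strip_N_pos (P : Poly N) : 0 < N := by
  rcases Nat.eq_zero_or_pos N with h | h
  · exfalso
    have h1 := P.per 0
    have e : (0 : ℤ) + (N : ℤ) = 0 := by rw [h]; simp
    rw [e] at h1
    have := Real.pi_pos
    linarith
  · exact h

private theorem strip_pt_mem (P : Poly N) (j : ℤ) : P.pt j ∈ P.Qc := by
  refine ⟨(P.norm_pt j).le, fun i => ?_⟩
  by_cases h1 : i ≡ j [ZMOD (N : ℤ)]
  · rw [P.nrm_congr h1, P.B_pt_left]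
  · by_cases h2 : i ≡ j - 1 [ZMOD (N : ℤ)]
    · have h3 := P.B_pt_right (j - 1)
      rw [sub_add_cancel] at h3
      rw [P.nrm_congr h2, h3]
    · exact (P.B_pt_neg h1 h2).le

/-- a point of the polygon seen through `pr` -/
private theorem strip_kappa {z : ℂ} (hz : ‖z‖ < 1) (h : z ∈ P.Qc) : D.κ (D.pr z) = z := by
  rw [D.pr_up hz h, D.κ_up z h]

private theorem strip_zero_mem {z : ℂ} (hz : ‖z‖ < 1) {i : ℤ} (h : B (z, 1) (P.nrm i) = 0) :
    z ∈ P.Qc := by
  refine ⟨hz.le, fun k => ?_⟩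
  by_cases hk : k ≡ i [ZMOD (N : ℤ)]
  · rw [P.nrm_congr hk, h]
  · exact (P.disj_lt (v := ((z, 1) : V3)) hz h.ge hk).le

/-- up to time `τ` the ray stays in the side `SU`, then it meets only gaps with index (mod `N`) in
`[l, r]` -/
theorem strip {j l r : ℤ} (hl : l < j) (hr : j ≤ r) {γ : I → S} (h : D.IsRayP j γ) {τ : I}
    (hτ : τ ≠ 1) (h1 : ∀ t ≤ τ, γ t ∈ D.SU)
    (h2 : ∀ t, τ ≤ t → t ≠ 1 → ∀ i, γ t ∈ D.Gap i → ∃ c : ℤ, l ≤ i + c * N ∧ i + c * N ≤ r) :
    ∃ φ : ℝ, P.θ l ≤ φ ∧ φ ≤ P.θ (r + 1) ∧ D.endPt γ = Complex.exp (φ * Complex.I) := by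
  obtain ⟨g, hg, hg0⟩ := h.exists_lift
  obtain ⟨x₁, hx₁, hτx⟩ := exists_tau hτ
  have hgc : Continuous g := hg.1
  have hgn : ∀ x, ‖g x‖ < 1 := hg.2.1
  have hgp : ∀ x, D.pr (g x) = γ (tau x) := hg.2.2
  have hE := h.tendsto D hg hg0
  have hEn := h.norm_endPt D
  -- up to time `x₁` the lift is the fold
  have hfirst : g x₁ ∈ P.Qc := by
    have h3 := D.stay hg hx₁ (L := []) (Or.inl ⟨by simp, fun t ht => ?_⟩) ?_ x₁
      (right_mem_Icc.mpr hx₁)
    · rw [P.act_nil] at h3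
      rw [h3]
      exact D.κ_mem _
    · exact h1 _ (by rw [← hτx]; exact tau_mono ht.1 ht.2)
    · rw [hg0, P.act_nil, tau_zero, h.zero, D.κ_base]
  have hfc : ∀ i, Continuous fun x => B (g x, 1) (P.nrm i) := fun i =>
    (continuous_B_left (P.nrm i)).comp (hgc.prodMk continuous_const)
  have hne : ∀ i, (¬ ∃ c : ℤ, l ≤ i + c * N ∧ i + c * N ≤ r) → ∀ x, x₁ ≤ x →
      B (g x, 1) (P.nrm i) ≠ 0 := by
    intro i hi x hx h0
    have h3 := strip_zero_mem (hgn x) h0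
    have h4 := strip_kappa D (hgn x) h3
    rw [hgp x] at h4
    refine hi (h2 (tau x) (by rw [← hτx]; exact tau_mono hx₁ hx) (tau_ne_one x) i ⟨?_, ?_⟩)
    · exact h.interior _ (tau_ne_one x)
    · rw [h4]; exact h0
  have hneg : ∀ i, (¬ ∃ c : ℤ, l ≤ i + c * N ∧ i + c * N ≤ r) → ∀ x, x₁ ≤ x →
      B (g x, 1) (P.nrm i) < 0 := by
    intro i hi x hx
    by_contra hcon
    push Not at hcon
    have h3 : B (g x₁, 1) (P.nrm i) ≤ 0 := hfirst.2 i
    obtain ⟨y, hy, hy0⟩ := intermediate_value_Icc hx (hfc i).continuousOn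
      (show (0 : ℝ) ∈ Icc (B (g x₁, 1) (P.nrm i)) (B (g x, 1) (P.nrm i)) from ⟨h3, hcon⟩)
    exact hne i hi y hy.1 hy0
  have hlim : ∀ i, Tendsto (fun x => B (g x, 1) (P.nrm i)) atTop
      (𝓝 (B (D.endPt γ, 1) (P.nrm i))) := fun i =>
    ((continuous_B_left (P.nrm i)).tendsto (D.endPt γ, (1 : ℝ))).comp
      (hE.prodMk_nhds tendsto_const_nhds)
  have hle : ∀ i, (¬ ∃ c : ℤ, l ≤ i + c * N ∧ i + c * N ≤ r) →
      B (D.endPt γ, 1) (P.nrm i) ≤ 0 := by
    intro i hi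
    refine le_of_tendsto (hlim i) ?_
    filter_upwards [eventually_ge_atTop x₁] with x hx
    exact (hneg i hi x hx).le
  have hpol : D.endPt γ = Complex.exp (((D.endPt γ).arg : ℂ) * Complex.I) := by
    have h3 := Complex.norm_mul_exp_arg_mul_I (D.endPt γ)
    rw [hEn, Complex.ofReal_one, one_mul] at h3
    exact h3.symm
  have hshift : ∀ (φ : ℝ) (c : ℤ), Complex.exp (((φ + c * (2 * Real.pi) : ℝ) : ℂ) * Complex.I) =
      Complex.exp ((φ : ℂ) * Complex.I) := by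
    intro φ c
    rw [Complex.exp_eq_exp_iff_exists_int]
    exact ⟨c, by push_cast; ring⟩
  obtain ⟨m, hm1, hm2⟩ := P.exists_gap (D.endPt γ).arg
  rcases hm1.lt_or_eq with hm3 | hm3
  · have h3 := P.B_exp_pos hm3 hm2
    rw [← hpol] at h3
    obtain ⟨c, hc1, hc2⟩ : ∃ c : ℤ, l ≤ m + c * N ∧ m + c * N ≤ r := by
      by_contra hcon
      exact absurd (hle m hcon) (not_le.mpr h3)
    refine ⟨(D.endPt γ).arg + c * (2 * Real.pi), ?_, ?_, ?_⟩
    · have h4 := P.mono.monotone hc1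
      rw [P.θ_add] at h4
      linarith
    · have h4 := P.mono.monotone (show m + 1 + c * N ≤ r + 1 by linarith)
      rw [P.θ_add] at h4
      linarith
    · rw [hshift]; exact hpol
  · have hEm : D.endPt γ = P.pt m := by
      rw [hpol, ← hm3]; rfl
    have hfin : ∀ c : ℤ, l ≤ m + c * N → m + c * N ≤ r + 1 →
        ∃ φ : ℝ, P.θ l ≤ φ ∧ φ ≤ P.θ (r + 1) ∧ D.endPt γ = Complex.exp (φ * Complex.I) := by
      intro c hc1 hc2
      refine ⟨P.θ (m + c * N), P.mono.monotone hc1, P.mono.monotone hc2, ?_⟩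
      rw [P.θ_add, hshift, hEm]; rfl
    by_cases hb : ∃ c : ℤ, l ≤ m + c * N ∧ m + c * N ≤ r
    · obtain ⟨c, hc1, hc2⟩ := hb
      exact hfin c hc1 (by linarith)
    by_cases hb' : ∃ c : ℤ, l ≤ m - 1 + c * N ∧ m - 1 + c * N ≤ r
    · obtain ⟨c, hc1, hc2⟩ := hb'
      exact hfin c (by linarith) (by linarith)
    exfalso
    have hk : ∀ k ∈ Finset.range N, ∀ᶠ x in atTop, B (g x, 1) (P.nrm (k : ℤ)) < 0 := by
      intro k _
      by_cases hk1 : (k : ℤ) ≡ m [ZMOD (N : ℤ)]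
      · filter_upwards [eventually_ge_atTop x₁] with x hx
        rw [P.nrm_congr hk1]
        exact hneg m hb x hx
      by_cases hk2 : (k : ℤ) ≡ m - 1 [ZMOD (N : ℤ)]
      · filter_upwards [eventually_ge_atTop x₁] with x hx
        rw [P.nrm_congr hk2]
        exact hneg (m - 1) hb' x hx
      have h3 := hlim k
      rw [hEm] at h3
      exact h3.eventually_lt_const (P.B_pt_neg hk1 hk2)
    have hall : ∀ᶠ x in atTop, ∀ k ∈ Finset.range N, B (g x, 1) (P.nrm (k : ℤ)) < 0 :=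
      (Filter.eventually_all_finset _).mpr hk
    have hN' : (0 : ℤ) < N := by exact_mod_cast strip_N_pos P
    have hev : ∀ᶠ x in atTop, D.κ (γ (tau x)) = g x := by
      filter_upwards [hall] with x hx
      rw [← hgp x]
      refine strip_kappa D (hgn x) ⟨(hgn x).le, fun i => ?_⟩
      have h3 : ((i % N).toNat : ℤ) ≡ i [ZMOD (N : ℤ)] := by
        rw [Int.toNat_of_nonneg (Int.emod_nonneg i hN'.ne')]
        exact Int.mod_modEq i N
      rw [← P.nrm_congr h3]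
      refine (hx _ (Finset.mem_range.mpr ?_)).le
      have h4 := Int.emod_lt_of_pos i hN'
      have h5 := Int.emod_nonneg i hN'.ne'
      omega
    have hκ : Tendsto (fun x => D.κ (γ (tau x))) atTop (𝓝 (P.pt j)) := by
      have h3 : D.κ (γ 1) = P.pt j := by rw [h.one, D.κ_up _ (strip_pt_mem P j)]
      rw [← h3]
      exact ((D.κ_cont.comp h.continuous).tendsto 1).comp tendsto_tau
    have heq : P.pt m = P.pt j := by
      rw [← hEm]
      exact tendsto_nhds_unique hE (hκ.congr' hev)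
    obtain ⟨c, hc⟩ := Int.modEq_iff_dvd.mp (pt_inj heq)
    exact hb ⟨c, by nlinarith, by nlinarith⟩

end Dbl

end Pool.Agent.RAYT
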